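import Pool.Agent.R135.WM.Stm

/-! Piece BCP: the block is compact with empty interior, its sublevel sets are `F_σ`. -/

namespace Pool.Agent.R135.WM

open Set Topology

namespace BCP

theorem cpt_words (p : ℕ) : IsCompact {L : ℕ → ℕ | Wd p L} := by
  have h : {L : ℕ → ℕ | Wd p L} = Set.pi Set.univ (fun _ => Set.Iio (2 ^ (p + 2))) := by
    ext L
    simp only [Set.mem_ofPred_eq, Set.mem_pi, Set.mem_univ, true_implies, Set.mem_Iio, Wd]
  rw [h]
  exact isCompact_univ_pi fun _ => (Set.finite_Iio _).isCompact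

theorem cont_V (h : StmVAL) (p : ℕ) : ContinuousOn (V p) {L : ℕ → ℕ | Wd p L} := by
  intro L hL
  rw [ContinuousWithinAt, Metric.tendsto_nhds]
  intro ε hε
  obtain ⟨s, hs⟩ := (h p).2.2 ε hε
  have h1 : ∀ᶠ L' : ℕ → ℕ in 𝓝 L, ∀ r ∈ Set.Iio s, L' r = L r := by
    rw [Filter.eventually_all_finite (Set.finite_Iio s)]
    intro r _
    have h2 : ({L r} : Set ℕ) ∈ 𝓝 (L r) := (isOpen_discrete _).mem_nhds rfl
    exact (continuous_apply r).continuousAt.eventually h2
  have h3 : ∀ᶠ L' : ℕ → ℕ in 𝓝[{L : ℕ → ℕ | Wd p L}] L, ∀ r ∈ Set.Iio s, L' r = L r :=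
    nhdsWithin_le_nhds h1
  filter_upwards [h3, self_mem_nhdsWithin] with L' h4 h5
  rw [Real.dist_eq]
  exact hs L' L h5 hL h4

theorem blk_eq (p : ℕ) : Blk p = V p '' {L : ℕ → ℕ | Wd p L} := by
  ext x
  constructor
  · rintro ⟨L, hL, rfl⟩
    exact ⟨L, hL, rfl⟩
  · rintro ⟨L, hL, rfl⟩
    exact ⟨L, hL, rfl⟩

theorem first_diff {L M : ℕ → ℕ} (h : L ≠ M) : ∃ s, (∀ r < s, L r = M r) ∧ L s ≠ M s := by
  classical
  have h1 : ∃ s, L s ≠ M s := by
    by_contra hc
    push Not at hc
    exact h (funext hc)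
  refine ⟨Nat.find h1, fun r hr => ?_, Nat.find_spec h1⟩
  have := Nat.find_min h1 hr
  push Not at this
  exact this

/-- strict lexicographic order is reflected -/
theorem lex_of_lt (h : StmVAL) {p : ℕ} {L M : ℕ → ℕ} (hL : Wd p L) (hM : Wd p M)
    (hlt : V p L < V p M) : ∃ s, (∀ r < s, L r = M r) ∧ L s < M s := by
  have hne : L ≠ M := by
    rintro rfl
    exact lt_irrefl _ hlt
  obtain ⟨s, h1, h2⟩ := first_diff hne
  refine ⟨s, h1, ?_⟩
  rcases lt_or_gt_of_ne h2 with h3 | h3
  · exact h3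
  · exact absurd ((h p).1 M L hM hL s (fun r hr => (h1 r hr).symm) h3) (lt_asymm hlt)

/-- there is a gap between any two points of the block -/
theorem gap (h : StmVAL) {p : ℕ} {L M : ℕ → ℕ} (hL : Wd p L) (hM : Wd p M)
    (hlt : V p L < V p M) : ∃ z, V p L < z ∧ z < V p M ∧ z ∉ Blk p := by
  obtain ⟨s, h1, h2⟩ := lex_of_lt h hL hM hlt
  have hN : 0 < 2 ^ (p + 2) := by positivity
  -- the largest word that starts like `L`, and the least one after it
  let T : ℕ → ℕ := fun r => if r ≤ s then L r else 2 ^ (p + 2) - 1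
  let U : ℕ → ℕ := fun r => if r < s then L r else if r = s then L s + 1 else 0
  have hT : Wd p T := by
    intro r
    change (if r ≤ s then L r else 2 ^ (p + 2) - 1) < _
    split_ifs
    · exact hL r
    · omega
  have hU : Wd p U := by
    intro r
    change (if r < s then L r else if r = s then L s + 1 else 0) < _
    split_ifs
    · exact hL r
    · have := hM s
      omega
    · exact hN
  have T1 : ∀ r ≤ s, T r = L r := fun r hr => if_pos hr
  have T2 : ∀ r, s < r → T r = 2 ^ (p + 2) - 1 := fun r hr => if_neg (by omega)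
  have U1 : ∀ r < s, U r = L r := fun r hr => if_pos hr
  have U2 : U s = L s + 1 := by
    change (if s < s then L s else if s = s then L s + 1 else 0) = _
    rw [if_neg (lt_irrefl s), if_pos rfl]
  have U3 : ∀ r, s < r → U r = 0 := by
    intro r hr
    change (if r < s then L r else if r = s then L s + 1 else 0) = _
    rw [if_neg (by omega), if_neg (by omega)]
  have hTU : V p T < V p U := by
    refine (h p).1 T U hT hU s (fun r hr => ?_) ?_
    · rw [T1 r hr.le, U1 r hr]
    · rw [T1 s le_rfl, U2]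
      omega
  -- words that start like `L` up to `s` are at most `T`
  have leT : ∀ M' : ℕ → ℕ, Wd p M' → (∀ r ≤ s, M' r = L r) → V p M' ≤ V p T := by
    intro M' hM' h3
    by_contra hc
    push Not at hc
    obtain ⟨k, k1, k2⟩ := lex_of_lt h hT hM' hc
    rcases le_or_gt k s with hk | hk
    · rw [T1 k hk, h3 k hk] at k2
      exact lt_irrefl _ k2
    · rw [T2 k hk] at k2
      have := hM' k
      omega
  -- words that agree with `U` up to `s` are at least `U`
  have geU : ∀ M' : ℕ → ℕ, Wd p M' → (∀ r < s, M' r = L r) → L s + 1 ≤ M' s →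
      V p U ≤ V p M' := by
    intro M' hM' h3 h4
    by_contra hc
    push Not at hc
    obtain ⟨k, k1, k2⟩ := lex_of_lt h hM' hU hc
    rcases lt_trichotomy k s with hk | hk | hk
    · rw [U1 k hk, h3 k hk] at k2
      exact lt_irrefl _ k2
    · rw [hk, U2] at k2
      omega
    · rw [U3 k hk] at k2
      omega
  have hLT := leT L hL fun r _ => rfl
  have hUM := geU M hM (fun r hr => (h1 r hr).symm) (by omega)
  refine ⟨(V p T + V p U) / 2, by linarith, by linarith, ?_⟩
  rintro ⟨M', hM', hz⟩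
  have e1 : V p T < V p M' := by rw [← hz]; linarith
  have e2 : V p M' < V p U := by rw [← hz]; linarith
  obtain ⟨k, k1, k2⟩ := lex_of_lt h hT hM' e1
  obtain ⟨j, j1, j2⟩ := lex_of_lt h hM' hU e2
  -- `M'` starts like `L`
  have hks : s ≤ k := by
    by_contra hc
    push Not at hc
    -- at `k < s` the word `M'` is larger than `L`, hence larger than `U`
    have hcon : V p U < V p M' := by
      refine (h p).1 U M' hU hM' k (fun r hr => ?_) ?_
      · rw [U1 r (hr.trans hc), ← k1 r hr, T1 r (hr.trans hc).le]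
      · rw [U1 k hc, ← T1 k hc.le]
        exact k2
    exact lt_asymm hcon e2
  have hpre : ∀ r < s, M' r = L r := fun r hr => by
    rw [← k1 r (hr.trans_le hks), T1 r hr.le]
  rcases le_or_gt (M' s) (L s) with hle | hgt
  · have hge : L s ≤ M' s := by
      rcases hks.eq_or_lt with hk | hk
      · rw [← hk, T1 s le_rfl] at k2
        exact k2.le
      · rw [← k1 s hk, T1 s le_rfl]
    have h5 : ∀ r ≤ s, M' r = L r := by
      intro r hr
      rcases hr.eq_or_lt with hr | hr
      · rw [hr]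
        exact le_antisymm hle hge
      · exact hpre r hr
    exact absurd (leT M' hM' h5) (not_le.2 e1)
  · exact absurd (geU M' hM' hpre hgt) (not_le.2 e2)

theorem int_empty (h : StmVAL) (p : ℕ) : interior (Blk p) = ∅ := by
  rw [Set.eq_empty_iff_forall_notMem]
  intro x hx
  rw [mem_interior_iff_mem_nhds, Metric.mem_nhds_iff] at hx
  obtain ⟨ε, hε, hball⟩ := hx
  have hx1 : x ∈ Blk p := hball (Metric.mem_ball_self hε)
  have hy1 : x + ε / 2 ∈ Blk p := by
    apply hball
    rw [Metric.mem_ball, Real.dist_eq]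
    rw [show x + ε / 2 - x = ε / 2 by ring, abs_of_pos (by linarith)]
    linarith
  obtain ⟨L, hL, hxL⟩ := hx1
  obtain ⟨M, hM, hyM⟩ := hy1
  obtain ⟨z, hz1, hz2, hz3⟩ := gap h hL hM (by rw [← hxL, ← hyM]; linarith)
  apply hz3
  apply hball
  rw [← hxL] at hz1
  rw [← hyM] at hz2
  rw [Metric.mem_ball, Real.dist_eq, abs_lt]
  constructor <;> linarith

theorem lev_le {p i : ℕ} {L : ℕ → ℕ} : lev p L ≤ i ↔
    p ≤ i ∨ ∃ i' k, i' ≤ i ∧ i' < p ∧ ∀ s ≥ k, (L s).testBit i' = false := by
  unfold lev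
  constructor
  · intro h
    have hne : {i | i = p ∨ (i < p ∧ {s | (L s).testBit i = true}.Finite)}.Nonempty :=
      ⟨p, Or.inl rfl⟩
    have hm := Nat.sInf_mem hne
    rcases hm with hm | ⟨hm1, hm2⟩
    · left
      rw [← hm]
      exact h
    · right
      obtain ⟨k, hk⟩ := hm2.bddAbove
      refine ⟨_, k + 1, h, hm1, fun s hs => ?_⟩
      by_contra hc
      rw [Bool.not_eq_false] at hc
      have := hk hc
      omega
  · rintro (h | ⟨i', k, h1, h2, h3⟩)
    · exact (Nat.sInf_le (Or.inl rfl)).trans h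
    · refine (Nat.sInf_le (Or.inr ⟨h2, ?_⟩)).trans h1
      refine (Set.finite_Iio k).subset fun s hs => ?_
      by_contra hc
      rw [Set.mem_Iio, not_lt] at hc
      have h4 := h3 s hc
      have h5 : (L s).testBit i' = true := hs
      rw [h4] at h5
      exact Bool.false_ne_true h5

theorem fs (h : StmVAL) (p i : ℕ) : FS {x | ∃ L, Wd p L ∧ x = V p L ∧ lev p L ≤ i} := by
  let S : ℕ → Set (ℕ → ℕ) := fun m => {L | p ≤ i ∨ ((Nat.unpair m).1 ≤ i ∧ (Nat.unpair m).1 < p ∧
    ∀ s ≥ (Nat.unpair m).2, (L s).testBit (Nat.unpair m).1 = false)}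
  have hS : ∀ m, IsClosed (S m) := by
    intro m
    refine IsClosed.union isClosed_const (IsClosed.inter isClosed_const
      (IsClosed.inter isClosed_const ?_))
    have e : {L : ℕ → ℕ | ∀ s ≥ (Nat.unpair m).2, (L s).testBit (Nat.unpair m).1 = false} =
        ⋂ s, ⋂ (_ : s ≥ (Nat.unpair m).2),
          (fun L : ℕ → ℕ => L s) ⁻¹' {n | n.testBit (Nat.unpair m).1 = false} := by
      ext L
      simp only [Set.mem_ofPred_eq, Set.mem_iInter, Set.mem_preimage]
    have e2 : IsClosed {L : ℕ → ℕ |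
        ∀ s ≥ (Nat.unpair m).2, (L s).testBit (Nat.unpair m).1 = false} := by
      rw [e]
      exact isClosed_iInter fun s => isClosed_iInter fun _ =>
        (isClosed_discrete _).preimage (continuous_apply s)
    exact e2
  refine ⟨fun m => V p '' ({L | Wd p L} ∩ S m), fun m => ?_, ?_⟩
  · exact (((cpt_words p).inter_right (hS m)).image_of_continuousOn
      ((cont_V h p).mono inter_subset_left)).isClosed
  · ext x
    simp only [Set.mem_iUnion, Set.mem_image, Set.mem_inter_iff]
    constructor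
    · rintro ⟨m, L, ⟨hL, hm⟩, rfl⟩
      refine ⟨L, hL, rfl, lev_le.2 ?_⟩
      rcases hm with hm | ⟨h1, h2, h3⟩
      · exact Or.inl hm
      · exact Or.inr ⟨_, _, h1, h2, h3⟩
    · rintro ⟨L, hL, rfl, hl⟩
      rcases lev_le.1 hl with hm | ⟨i', k, h1, h2, h3⟩
      · exact ⟨0, L, ⟨hL, Or.inl hm⟩, rfl⟩
      · refine ⟨Nat.pair i' k, L, ⟨hL, Or.inr ?_⟩, rfl⟩
        rw [Nat.unpair_pair]
        exact ⟨h1, h2, h3⟩

end BCP

open BCP

theorem bcp (h : StmVAL) : StmBCP := by
  intro p
  refine ⟨?_, int_empty h p, fs h p⟩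
  rw [blk_eq]
  exact (cpt_words p).image_of_continuousOn (cont_V h p)

end Pool.Agent.R135.WM
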