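import Pool.Agent.R135.WM.Stm

/-! Piece BF: assembly of the back-and-forth. -/

namespace Pool.Agent.R135.WM

open Set Topology

lemma PI.swap {R : ℝ → ℝ → Prop} {G : Set (ℝ × ℝ)} (h : PI R G) :
    PI (fun x y => R y x) (Prod.swap '' G) := by
  have e1 : Prod.fst '' (Prod.swap '' G) = Prod.snd '' G := by
    rw [image_image]; rfl
  have e2 : Prod.snd '' (Prod.swap '' G) = Prod.fst '' G := by
    rw [image_image]; rfl
  refine ⟨⟨_, h.zero, rfl⟩, ⟨_, h.one, rfl⟩, ?_, ?_, ?_, ?_, ?_⟩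
  · rintro _ ⟨g, hg, rfl⟩
    exact ⟨(h.box g hg).2, (h.box g hg).1⟩
  · rintro _ ⟨g, hg, rfl⟩ _ ⟨k, hk, rfl⟩
    exact (h.ord g hg k hk).symm
  · rw [e1]; exact h.cl2
  · rw [e2]; exact h.cl1
  · rintro _ ⟨g, hg, rfl⟩
    rcases h.rel g hg with h1 | h1 | h1
    · left; rw [h1]; rfl
    · right; left; rw [h1]; rfl
    · right; right; exact h1

lemma pi_start (R : ℝ → ℝ → Prop) : PI R {((0 : ℝ), (0 : ℝ)), ((1 : ℝ), (1 : ℝ))} := by
  refine ⟨by simp, by simp, ?_, ?_, ?_, ?_, ?_⟩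
  · rintro g (rfl | rfl)
    · simp
    · simp
  · rintro g (rfl | rfl) k (rfl | rfl) <;> simp
  · exact (Set.toFinite _).isClosed
  · exact (Set.toFinite _).isClosed
  · rintro g (rfl | rfl)
    · left; rfl
    · right; left; rfl

theorem bf : StmBF := by
  intro hGAP hSTEP hLIM R κ κ' hκ hκ' hd hd' hE hE'
  have step := hSTEP hGAP
  have key : ∀ (j : ℕ) (G : {G : Set (ℝ × ℝ) // PI R G}), ∃ G'' : {G : Set (ℝ × ℝ) // PI R G},
      G.1 ⊆ G''.1 ∧ κ j ⊆ Prod.fst '' G''.1 ∧ κ' j ⊆ Prod.snd '' G''.1 := by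
    rintro j ⟨G, hG⟩
    obtain ⟨G1, hs1, hp1, hc1⟩ := step R G (κ j) hG (hκ j).1 (hκ j).2.1 (hκ j).2.2 (hE j)
    obtain ⟨G2, hs2, hp2, hc2⟩ := step (fun x y => R y x) (Prod.swap '' G1) (κ' j) hp1.swap
      (hκ' j).1 (hκ' j).2.1 (hκ' j).2.2 (hE' j)
    refine ⟨⟨Prod.swap '' G2, hp2.swap⟩, ?_, ?_, ?_⟩
    · intro g hg
      exact ⟨g.swap, hs2 ⟨g, hs1 hg, rfl⟩, Prod.swap_swap g⟩
    · intro x hx
      obtain ⟨g, hg, rfl⟩ := hc1 hx
      exact ⟨g, ⟨g.swap, hs2 ⟨g, hg, rfl⟩, Prod.swap_swap g⟩, rfl⟩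
    · intro y hy
      obtain ⟨g, hg, rfl⟩ := hc2 hy
      exact ⟨g.swap, ⟨g, hg, rfl⟩, rfl⟩
  choose nxt hn1 hn2 hn3 using key
  let S : ℕ → {G : Set (ℝ × ℝ) // PI R G} := fun n =>
    Nat.rec ⟨_, pi_start R⟩ (fun n G => nxt n G) n
  have hS : ∀ n, S (n + 1) = nxt n (S n) := fun n => rfl
  have hmono : Monotone fun n => (S n).1 := by
    apply monotone_nat_of_le_succ
    intro n
    rw [hS]
    exact hn1 n (S n)
  have hK : ∀ j, κ j ⊆ Prod.fst '' (S (j + 1)).1 := fun j => by rw [hS]; exact hn2 j (S j)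
  have hK' : ∀ j, κ' j ⊆ Prod.snd '' (S (j + 1)).1 := fun j => by rw [hS]; exact hn3 j (S j)
  obtain ⟨θ, hθ1, hθ2, hθ3, hθ4, hθ5⟩ := hLIM (⋃ n, (S n).1)
    (mem_iUnion.2 ⟨0, (S 0).2.zero⟩) (mem_iUnion.2 ⟨0, (S 0).2.one⟩)
    (by
      intro g hg
      obtain ⟨n, hn⟩ := mem_iUnion.1 hg
      exact (S n).2.box g hn)
    (by
      intro g hg k hk
      obtain ⟨n, hn⟩ := mem_iUnion.1 hg
      obtain ⟨m, hm⟩ := mem_iUnion.1 hk
      exact (S (max n m)).2.ord g (hmono (le_max_left n m) hn) k (hmono (le_max_right n m) hm))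
    (by
      intro a b ha hab hb
      obtain ⟨j, x, hx, hxab⟩ := hd a b ha hab hb
      obtain ⟨g, hg, rfl⟩ := hK j hx
      exact ⟨g, mem_iUnion.2 ⟨j + 1, hg⟩, hxab⟩)
    (by
      intro a b ha hab hb
      obtain ⟨j, x, hx, hxab⟩ := hd' a b ha hab hb
      obtain ⟨g, hg, rfl⟩ := hK' j hx
      exact ⟨g, mem_iUnion.2 ⟨j + 1, hg⟩, hxab⟩)
  refine ⟨θ, hθ1, hθ2, hθ3, hθ4, ?_, ?_⟩
  · intro j x hx
    have hx01 := (hκ j).2.1 hx
    obtain ⟨g, hg, rfl⟩ := hK j hx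
    rw [hθ5 g (mem_iUnion.2 ⟨j + 1, hg⟩)]
    rcases (S (j + 1)).2.rel g hg with h1 | h1 | h1
    · rw [h1] at hx01; exact absurd hx01.1 (lt_irrefl _)
    · rw [h1] at hx01; exact absurd hx01.2 (lt_irrefl _)
    · exact h1
  · intro j x hx hxj
    have hx01 := (hκ' j).2.1 hxj
    obtain ⟨g, hg, hgx⟩ := hK' j hxj
    have h5 := hθ5 g (mem_iUnion.2 ⟨j + 1, hg⟩)
    have hbox := (S (j + 1)).2.box g hg
    have hgx' : g.1 = x := hθ1.injOn hbox.1 hx (h5.trans hgx)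
    rcases (S (j + 1)).2.rel g hg with h1 | h1 | h1
    · rw [← hgx, h1] at hx01; exact absurd hx01.1 (lt_irrefl _)
    · rw [← hgx, h1] at hx01; exact absurd hx01.2 (lt_irrefl _)
    · rw [← hgx', h5]; exact h1

end Pool.Agent.R135.WM
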