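import Pool.Agent.R135.WM.Stm

/-! Project WM, piece BLK: disjoint dense scaled copies of a nowhere dense compact set -/

set_option autoImplicit false

namespace Pool.Agent.R135.WM.BLKp

open Set Topology Pool.Agent.R135.WM

/-- the scaled copy -/
def S (B : Set ℝ) (q : ℝ × ℝ) : Set ℝ := (fun x => q.1 + q.2 * x) '' B

theorem S_closed {B : Set ℝ} (hB : IsCompact B) (q : ℝ × ℝ) : IsClosed (S B q) :=
  (hB.image (by fun_prop)).isClosed

theorem S_int {B : Set ℝ} (hi : interior B = ∅) {q : ℝ × ℝ} (hq : 0 < q.2) :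
    interior (S B q) = ∅ := by
  by_contra hne
  obtain ⟨y, hy⟩ := nonempty_iff_ne_empty.2 hne
  have ho : IsOpen ((fun x : ℝ => q.1 + q.2 * x) ⁻¹' interior (S B q)) :=
    isOpen_interior.preimage (by fun_prop)
  have hs : (fun x : ℝ => q.1 + q.2 * x) ⁻¹' interior (S B q) ⊆ B := by
    intro x hx
    obtain ⟨z, hz, hzx⟩ := interior_subset hx
    have : z = x := by
      have h1 : q.2 * z = q.2 * x := by simpa using hzx
      exact mul_left_cancel₀ hq.ne' h1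
    exact this ▸ hz
  have h1 := interior_maximal hs ho
  rw [hi] at h1
  have h2 : (y - q.1) / q.2 ∈ (fun x : ℝ => q.1 + q.2 * x) ⁻¹' interior (S B q) := by
    show q.1 + q.2 * ((y - q.1) / q.2) ∈ interior (S B q)
    have : q.1 + q.2 * ((y - q.1) / q.2) = y := by field_simp; ring
    rw [this]; exact hy
  exact h1 h2

theorem avoid {C : Set ℝ} (hC : IsClosed C) (hi : interior C = ∅) {u v : ℝ} (h : u < v) :
    ∃ u' v' : ℝ, u' < v' ∧ Ioo u' v' ⊆ Ioo u v ∧ Disjoint C (Ioo u' v') := by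
  have hne : (Ioo u v \ C).Nonempty := by
    by_contra hne
    have h1 : Ioo u v ⊆ C := by
      intro x hx
      by_contra hxC
      exact hne ⟨x, hx, hxC⟩
    have h2 := interior_maximal h1 isOpen_Ioo
    rw [hi] at h2
    exact h2 (show (u + v) / 2 ∈ Ioo u v from ⟨by linarith, by linarith⟩)
  obtain ⟨x, hx⟩ := hne
  have ho : IsOpen (Ioo u v \ C) := isOpen_Ioo.sdiff hC
  obtain ⟨ε, hε, hb⟩ := Metric.isOpen_iff.1 ho x hx
  rw [Real.ball_eq_Ioo] at hb
  refine ⟨x - ε, x + ε, by linarith, fun y hy => (hb hy).1, ?_⟩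
  rw [Set.disjoint_left]
  intro y hy hy'
  exact (hb hy').2 hy

theorem avoid_list {B : Set ℝ} (hB : IsCompact B) (hi : interior B = ∅) (l : List (ℝ × ℝ)) :
    (∀ q ∈ l, 0 < q.2) → ∀ u v : ℝ, u < v →
    ∃ u' v' : ℝ, u' < v' ∧ Ioo u' v' ⊆ Ioo u v ∧ ∀ q ∈ l, Disjoint (S B q) (Ioo u' v') := by
  induction l with
  | nil => intro _ u v h; exact ⟨u, v, h, subset_rfl, by simp⟩
  | cons q l ih =>
    intro hq u v h
    obtain ⟨u1, v1, h1, h2, h3⟩ := ih (fun r hr => hq r (List.mem_cons_of_mem _ hr)) u v h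
    obtain ⟨u2, v2, h4, h5, h6⟩ :=
      avoid (S_closed hB q) (S_int hi (hq q List.mem_cons_self)) h1
    refine ⟨u2, v2, h4, h5.trans h2, ?_⟩
    intro r hr
    rcases List.mem_cons.1 hr with rfl | hr
    · exact h6
    · exact (h3 r hr).mono_right h5

theorem step {B : Set ℝ} (hB : IsCompact B) (hB1 : B ⊆ Icc 0 1) (hi : interior B = ∅)
    (l : List (ℝ × ℝ)) (hl : ∀ q ∈ l, 0 < q.2) (u v : ℝ) (h : u < v) :
    ∃ p : ℝ × ℝ, 0 < p.2 ∧ S B p ⊆ Ioo u v ∧ ∀ q ∈ l, Disjoint (S B q) (S B p) := by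
  obtain ⟨u1, v1, h1, h2, h3⟩ := avoid_list hB hi l hl u v h
  have hs : S B (u1 + (v1 - u1) / 4, (v1 - u1) / 2) ⊆ Ioo u1 v1 := by
    rintro _ ⟨x, hx, rfl⟩
    obtain ⟨hx0, hx1⟩ := hB1 hx
    have hd : 0 < v1 - u1 := by linarith
    constructor
    · show u1 < u1 + (v1 - u1) / 4 + (v1 - u1) / 2 * x
      nlinarith [mul_nonneg hd.le hx0]
    · show u1 + (v1 - u1) / 4 + (v1 - u1) / 2 * x < v1
      nlinarith [mul_nonneg hd.le (sub_nonneg.2 hx1)]
  exact ⟨(u1 + (v1 - u1) / 4, (v1 - u1) / 2), by simp only; linarith, hs.trans h2,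
    fun q hq => (h3 q hq).mono_right hs⟩

theorem blk : StmBLK := by
  intro B hB hB1 hi hne
  -- enumeration of the rational intervals
  let I : Type := {p : ℚ × ℚ // 0 ≤ p.1 ∧ p.1 < p.2 ∧ p.2 ≤ 1}
  haveI : Nonempty I := ⟨⟨(0, 1), by norm_num⟩⟩
  haveI : Countable I := Subtype.countable
  obtain ⟨e, he⟩ := exists_surjective_nat I
  have hstep : ∀ (n : ℕ) (l : List (ℝ × ℝ)), ∃ p : ℝ × ℝ, (∀ q ∈ l, 0 < q.2) →
      0 < p.2 ∧ S B p ⊆ Ioo ((e n).1.1 : ℝ) ((e n).1.2 : ℝ) ∧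
      ∀ q ∈ l, Disjoint (S B q) (S B p) := by
    intro n l
    by_cases hl : ∀ q ∈ l, 0 < q.2
    · obtain ⟨p, hp⟩ := step hB hB1 hi l hl ((e n).1.1 : ℝ) ((e n).1.2 : ℝ)
        (by exact_mod_cast (e n).2.2.1)
      exact ⟨p, fun _ => hp⟩
    · exact ⟨(0, 0), fun h => absurd h hl⟩
  choose g hg using hstep
  let L : ℕ → List (ℝ × ℝ) := fun n => Nat.rec [] (fun n l => g n l :: l) n
  have hL1 : ∀ n, L (n + 1) = g n (L n) :: L n := fun n => rfl
  have hpos : ∀ n, ∀ q ∈ L n, 0 < q.2 := by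
    intro n
    induction n with
    | zero => intro q hq; exact absurd hq (by simp [L])
    | succ n ih =>
      intro q hq
      rw [hL1] at hq
      rcases List.mem_cons.1 hq with rfl | hq
      · exact (hg n (L n) ih).1
      · exact ih q hq
  let f : ℕ → ℝ × ℝ := fun n => g n (L n)
  have hf : ∀ n, 0 < (f n).2 ∧ S B (f n) ⊆ Ioo ((e n).1.1 : ℝ) ((e n).1.2 : ℝ) ∧
      ∀ q ∈ L n, Disjoint (S B q) (S B (f n)) := fun n => hg n (L n) (hpos n)
  have hmem : ∀ m n, m < n → f m ∈ L n := by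
    intro m n hmn
    induction n with
    | zero => omega
    | succ n ih =>
      rw [hL1]
      rcases Nat.lt_succ_iff_lt_or_eq.1 hmn with h | h
      · exact List.mem_cons_of_mem _ (ih h)
      · subst h; exact List.mem_cons_self
  have hdis : ∀ i j, i ≠ j → Disjoint (S B (f i)) (S B (f j)) := by
    intro i j hij
    rcases Nat.lt_or_gt_of_ne hij with h | h
    · exact (hf j).2.2 _ (hmem i j h)
    · exact ((hf i).2.2 _ (hmem j i h)).symm
  have hint : ∀ u v : ℝ, 0 ≤ u → u < v → v ≤ 1 →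
      ∃ j, Ioo ((e j).1.1 : ℝ) ((e j).1.2 : ℝ) ⊆ Ioo u v := by
    intro u v hu huv hv
    obtain ⟨p, hp1, hp2⟩ := exists_rat_btwn huv
    obtain ⟨q, hq1, hq2⟩ := exists_rat_btwn hp2
    have h0 : (0 : ℚ) ≤ p := by
      have : (0 : ℝ) ≤ p := by linarith
      exact_mod_cast this
    have h1 : p < q := by exact_mod_cast hq1
    have h2 : q ≤ 1 := by
      have : (q : ℝ) ≤ 1 := by linarith
      exact_mod_cast this
    obtain ⟨j, hj⟩ := he ⟨(p, q), h0, h1, h2⟩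
    refine ⟨j, ?_⟩
    rw [hj]
    exact Ioo_subset_Ioo hp1.le hq2.le
  have h01 : ∀ n, Ioo ((e n).1.1 : ℝ) ((e n).1.2 : ℝ) ⊆ Ioo 0 1 := by
    intro n
    apply Ioo_subset_Ioo
    · exact_mod_cast (e n).2.1
    · exact_mod_cast (e n).2.2.2
  refine ⟨fun n => (f n).1, fun n => (f n).2, fun n => (hf n).1,
    fun n => ((hf n).2.1).trans (h01 n), hdis, ?_, ?_⟩
  · intro u v hu huv hv
    obtain ⟨j, hj⟩ := hint u v hu huv hv
    exact ⟨j, ((hf j).2.1).trans hj⟩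
  · have hdense : Dense (⋂ n, (S B (f n))ᶜ) :=
      dense_iInter_of_isOpen_nat (fun n => (S_closed hB (f n)).isOpen_compl)
        (fun n => by
          rw [← interior_eq_empty_iff_dense_compl]
          exact S_int hi (hf n).1)
    have hpt : ∀ n, ∃ x, x ∈ Ioo ((e n).1.1 : ℝ) ((e n).1.2 : ℝ) ∧ ∀ j, x ∉ S B (f j) := by
      intro n
      have hlt : ((e n).1.1 : ℝ) < (e n).1.2 := by exact_mod_cast (e n).2.2.1
      obtain ⟨x, hx1, hx2⟩ := hdense.inter_open_nonempty _ isOpen_Ioo (nonempty_Ioo.2 hlt)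
      exact ⟨x, hx1, fun j => mem_iInter.1 hx2 j⟩
    choose x hx1 hx2 using hpt
    refine ⟨range x, countable_range x, ?_, ?_, ?_⟩
    · rintro _ ⟨n, rfl⟩; exact h01 n (hx1 n)
    · rintro _ ⟨n, rfl⟩ j; exact hx2 n j
    · intro u v hu huv hv
      obtain ⟨j, hj⟩ := hint u v hu huv hv
      exact ⟨x j, ⟨j, rfl⟩, hj (hx1 j)⟩

end Pool.Agent.R135.WM.BLKp

theorem Pool.Agent.R135.WM.blk : Pool.Agent.R135.WM.StmBLK := Pool.Agent.R135.WM.BLKp.blk
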