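import Pool.Agent.R135.WM.Stm

/-! Piece BLOW of project WM (MP_fd8bd4_lc): a monotone continuous map onto `[0,1]` which blows up
exactly the points of a given countable set. -/

namespace Pool.Agent.R135.WM

open Set Topology Filter

namespace BlowAux

variable (Q : Set ℝ) (e : ℕ → ℝ)

open Classical in
/-- the `n`-th jump function -/
noncomputable def bf (n : ℕ) (y : ℝ) : ℝ := if e n ∈ Q ∧ e n < y then (1 / 2 : ℝ) ^ n else 0

/-- the sum of the jumps -/
noncomputable def bS (y : ℝ) : ℝ := ∑' n, bf Q e n y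

/-- the strictly increasing function with jumps at the points of `Q` -/
noncomputable def bg (y : ℝ) : ℝ := y + bS Q e y

/-- the set whose supremum is the value of the blow-up map -/
def bA (x : ℝ) : Set ℝ := {y | y ∈ Icc (0 : ℝ) 1 ∧ (y = 0 ∨ bg Q e y ≤ x)}

/-- the blow-up map -/
noncomputable def bpi (x : ℝ) : ℝ := sSup (bA Q e x)

theorem bf_nonneg (n : ℕ) (y : ℝ) : 0 ≤ bf Q e n y := by
  unfold bf; split_ifs <;> positivity

theorem bf_le (n : ℕ) (y : ℝ) : bf Q e n y ≤ (1 / 2 : ℝ) ^ n := by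
  unfold bf; split_ifs
  · exact le_rfl
  · positivity

theorem bf_mono (n : ℕ) {y z : ℝ} (h : y ≤ z) : bf Q e n y ≤ bf Q e n z := by
  unfold bf
  split_ifs with h1 h2 h2
  · exact le_rfl
  · exact absurd ⟨h1.1, h1.2.trans_le h⟩ h2
  · positivity
  · exact le_rfl

theorem bsum (y : ℝ) : Summable (fun n => bf Q e n y) :=
  Summable.of_nonneg_of_le (fun n => bf_nonneg Q e n y) (fun n => bf_le Q e n y)
    summable_geometric_two

theorem bS_mono {y z : ℝ} (h : y ≤ z) : bS Q e y ≤ bS Q e z :=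
  Summable.tsum_le_tsum (fun n => bf_mono Q e n h) (bsum Q e y) (bsum Q e z)

theorem bS_jump {n : ℕ} (hn : e n ∈ Q) {z : ℝ} (hz : e n < z) :
    bS Q e (e n) + (1 / 2 : ℝ) ^ n ≤ bS Q e z := by
  have hs : Summable (fun m : ℕ => if m = n then (1 / 2 : ℝ) ^ n else 0) :=
    (hasSum_ite_eq n ((1 / 2 : ℝ) ^ n)).summable
  have h1 : bS Q e (e n) + (1 / 2 : ℝ) ^ n =
      ∑' m, (bf Q e m (e n) + if m = n then (1 / 2 : ℝ) ^ n else 0) := by
    rw [Summable.tsum_add (bsum Q e (e n)) hs, tsum_ite_eq]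
    rfl
  rw [h1]
  refine Summable.tsum_le_tsum (fun m => ?_) ((bsum Q e (e n)).add hs) (bsum Q e z)
  by_cases hm : m = n
  · subst hm
    simp [bf, hn, hz]
  · simp only [hm, if_false, add_zero]
    exact bf_mono Q e m hz.le

theorem bg_cont {y : ℝ} (hy : y ∉ Q) : ContinuousAt (bg Q e) y := by
  have h : Tendsto (fun z => ∑' n, bf Q e n z) (𝓝 y) (𝓝 (∑' n, bf Q e n y)) := by
    refine tendsto_tsum_of_dominated_convergence (bound := fun n : ℕ => (1 / 2 : ℝ) ^ n)
      summable_geometric_two (fun n => ?_) (Eventually.of_forall fun z n => ?_)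
    · refine (tendsto_const_nhds (x := bf Q e n y)).congr' ?_
      by_cases hn : e n ∈ Q
      · rcases lt_trichotomy (e n) y with h | h | h
        · filter_upwards [lt_mem_nhds h] with z hz
          simp [bf, hn, h, hz]
        · exact absurd (h ▸ hn) hy
        · filter_upwards [gt_mem_nhds h] with z hz
          simp [bf, not_lt.2 h.le, not_lt.2 hz.le]
      · exact Eventually.of_forall fun z => by simp [bf, hn]
    · rw [Real.norm_of_nonneg (bf_nonneg Q e n z)]
      exact bf_le Q e n z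
  exact continuousAt_id.add h

theorem bg_lt {y z : ℝ} (h : y ≤ z) : bg Q e y + (z - y) ≤ bg Q e z := by
  have := bS_mono Q e h
  unfold bg; linarith

theorem bA_bdd (x : ℝ) : BddAbove (bA Q e x) := ⟨1, fun _ hy => hy.1.2⟩

theorem bA_zero (x : ℝ) : (0 : ℝ) ∈ bA Q e x := ⟨⟨le_rfl, zero_le_one⟩, Or.inl rfl⟩

theorem k1 {x y : ℝ} (hy : y ∈ Icc (0 : ℝ) 1) (h : bg Q e y ≤ x) : y ≤ bpi Q e x :=
  le_csSup (bA_bdd Q e x) ⟨hy, Or.inr h⟩

theorem k2 {x y : ℝ} (hy : 0 ≤ y) (h : ∀ z, y < z → z ≤ 1 → x < bg Q e z) :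
    bpi Q e x ≤ y := by
  refine csSup_le ⟨0, bA_zero Q e x⟩ (fun z hz => ?_)
  by_contra hc
  push Not at hc
  rcases hz.2 with h0 | h0
  · linarith
  · exact absurd (h z hc hz.1.2) (not_lt.2 h0)

theorem k0 (x : ℝ) : 0 ≤ bpi Q e x := le_csSup (bA_bdd Q e x) (bA_zero Q e x)

theorem k3 (x : ℝ) : bpi Q e x ≤ 1 := csSup_le ⟨0, bA_zero Q e x⟩ (fun _ hz => hz.1.2)

theorem bmono : Monotone (bpi Q e) := fun x x' h =>
  csSup_le_csSup (bA_bdd Q e x') ⟨0, bA_zero Q e x⟩
    (fun _ hy => ⟨hy.1, hy.2.imp id (fun h' => h'.trans h)⟩)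

theorem blip {x x' : ℝ} (h : x ≤ x') : bpi Q e x' ≤ bpi Q e x + (x' - x) := by
  refine csSup_le ⟨0, bA_zero Q e x'⟩ (fun y' hy' => ?_)
  have h0 := k0 Q e x
  rcases hy'.2 with h1 | h1
  · linarith
  · by_cases hc : y' - (x' - x) ≤ 0
    · linarith
    · push Not at hc
      have h2 := bg_lt Q e (y := y' - (x' - x)) (z := y') (by linarith)
      have h3 := k1 Q e (x := x) (y := y' - (x' - x)) ⟨hc.le, by linarith [hy'.1.2]⟩
        (by linarith)
      linarith

theorem bcont : Continuous (bpi Q e) := by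
  refine (LipschitzWith.of_le_add fun x y => ?_).continuous
  rcases le_total x y with h | h
  · have h1 := bmono Q e h
    have h2 := dist_nonneg (x := x) (y := y)
    linarith
  · have h1 := blip Q e h
    rw [Real.dist_eq, abs_of_nonneg (by linarith)]
    linarith

theorem bpi_bg {y : ℝ} (hy : y ∈ Icc (0 : ℝ) 1) : bpi Q e (bg Q e y) = y :=
  le_antisymm
    (k2 Q e hy.1 fun z hz _ => by
      have := bg_lt Q e hz.le
      linarith)
    (k1 Q e hy le_rfl)

end BlowAux

open BlowAux in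
theorem blow : StmBLOW := by
  intro Q hQ hsub
  obtain ⟨e, he⟩ := (Set.countable_iff_exists_subset_range).1 hQ
  refine ⟨bpi Q e, bcont Q e, bmono Q e, ?_, ?_, ?_⟩
  · ext y
    constructor
    · rintro ⟨x, rfl⟩
      exact ⟨k0 Q e x, k3 Q e x⟩
    · intro hy
      exact ⟨bg Q e y, bpi_bg Q e hy⟩
  · intro q hq
    obtain ⟨n, rfl⟩ := he hq
    have hI : e n ∈ Icc (0 : ℝ) 1 := Ioo_subset_Icc_self (hsub hq)
    have hp : (0 : ℝ) < (1 / 2) ^ n := by positivity
    refine ⟨bg Q e (e n), bg Q e (e n) + (1 / 2) ^ n, by linarith, bpi_bg Q e hI,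
      le_antisymm ?_ (k1 Q e hI (by linarith))⟩
    refine k2 Q e hI.1 fun z hz _ => ?_
    have := bS_jump Q e hq hz
    unfold bg
    linarith
  · intro y hy hyQ
    have key : ∀ s, bpi Q e s = y → s = bg Q e y := by
      intro s hs
      have hc := bg_cont Q e hyQ
      rcases lt_trichotomy s (bg Q e y) with h | h | h
      · exfalso
        have h1 : ∀ᶠ z in 𝓝 y, s < bg Q e z := hc.eventually (lt_mem_nhds h)
        have h3 : ∀ᶠ z in 𝓝[<] y, z ∈ Ioo 0 y := Ioo_mem_nhdsLT hy.1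
        obtain ⟨z, hz1, hz2⟩ := ((h1.filter_mono nhdsWithin_le_nhds).and h3).exists
        have h2 : bpi Q e s ≤ z := k2 Q e hz2.1.le fun w hw _ => by
          have := bg_lt Q e hw.le
          linarith
        linarith [hz2.2]
      · exact h
      · exfalso
        have h1 : ∀ᶠ z in 𝓝 y, bg Q e z < s := hc.eventually (gt_mem_nhds h)
        have h3 : ∀ᶠ z in 𝓝[>] y, z ∈ Ioo y 1 := Ioo_mem_nhdsGT hy.2
        obtain ⟨z, hz1, hz2⟩ := ((h1.filter_mono nhdsWithin_le_nhds).and h3).exists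
        have h2 : z ≤ bpi Q e s := k1 Q e ⟨(hy.1.trans hz2.1).le, hz2.2.le⟩ hz1.le
        linarith [hz2.1]
    intro s t hs ht
    rw [key s hs, key t ht]

end Pool.Agent.R135.WM
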