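import Pool.Agent.R135.WM.Stm

/-! Project WM, piece C1: position bits. -/

namespace Pool.Agent.R135.WM

open Set Topology

namespace PC1

open Classical in
/-- the cells -/
noncomputable def st (cut : ℕ → ℝ × ℝ → ℝ) (σ : ℝ × ℝ) (x : ℝ) : ℕ → ℝ × ℝ
  | 0 => σ
  | s + 1 => if cut s (st cut σ x s) < x then (cut s (st cut σ x s), (st cut σ x s).2)
      else ((st cut σ x s).1, cut s (st cut σ x s))

open Classical in
/-- the bits -/
noncomputable def bt (cut : ℕ → ℝ × ℝ → ℝ) (σ : ℝ × ℝ) (x : ℝ) (s : ℕ) : Bool :=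
  decide (cut s (st cut σ x s) < x)

theorem bt_true {cut : ℕ → ℝ × ℝ → ℝ} {σ : ℝ × ℝ} {x : ℝ} {s : ℕ} :
    bt cut σ x s = true ↔ cut s (st cut σ x s) < x := by simp [bt]

theorem bt_false {cut : ℕ → ℝ × ℝ → ℝ} {σ : ℝ × ℝ} {x : ℝ} {s : ℕ} :
    bt cut σ x s = false ↔ ¬ cut s (st cut σ x s) < x := by simp [bt]

theorem st_true {cut : ℕ → ℝ × ℝ → ℝ} {σ : ℝ × ℝ} {x : ℝ} {s : ℕ} (h : bt cut σ x s = true) :
    st cut σ x (s + 1) = (cut s (st cut σ x s), (st cut σ x s).2) := by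
  rw [st, if_pos (bt_true.1 h)]

theorem st_false {cut : ℕ → ℝ × ℝ → ℝ} {σ : ℝ × ℝ} {x : ℝ} {s : ℕ} (h : bt cut σ x s = false) :
    st cut σ x (s + 1) = ((st cut σ x s).1, cut s (st cut σ x s)) := by
  rw [st, if_neg (bt_false.1 h)]

theorem st_eq {cut : ℕ → ℝ × ℝ → ℝ} {σ : ℝ × ℝ} {x y : ℝ} (s : ℕ)
    (h : ∀ r < s, bt cut σ x r = bt cut σ y r) : st cut σ x s = st cut σ y s := by
  induction s with
  | zero => rfl
  | succ s ih =>
    have e := ih fun r hr => h r (Nat.lt_succ_of_lt hr)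
    have hb := h s (Nat.lt_succ_self s)
    cases hx : bt cut σ x s with
    | true => rw [st_true hx, st_true (hb ▸ hx), e]
    | false => rw [st_false hx, st_false (hb ▸ hx), e]

/-- the property of the cuts -/
def Cut (K : Set ℝ) (m : ℕ → ℝ) (cut : ℕ → ℝ × ℝ → ℝ) : Prop := ∀ (s : ℕ) (σ : ℝ × ℝ),
  ((¬ ∃ j, m j ∈ Ioo σ.1 σ.2) → cut s σ = σ.1) ∧
  ∀ j, m j ∈ Ioo σ.1 σ.2 → (∀ i < j, m i ∉ Ioo σ.1 σ.2) → cut s σ ∉ K ∧
    (Even s → m j < cut s σ ∧ cut s σ < σ.2 ∧ cut s σ < m j + (1 / 2) ^ s) ∧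
    (¬ Even s → cut s σ < m j ∧ σ.1 < cut s σ ∧ m j - (1 / 2) ^ s < cut s σ)

theorem exists_notMem {K : Set ℝ} (hK : interior K = ∅) {u v : ℝ} (h : u < v) :
    ∃ ρ, ρ ∉ K ∧ u < ρ ∧ ρ < v := by
  by_contra hc
  push Not at hc
  have h1 : Ioo u v ⊆ interior K := by
    apply interior_maximal _ isOpen_Ioo
    intro ρ hρ
    by_contra hk
    exact absurd hρ.2 (not_lt.2 (hc ρ hk hρ.1))
  rw [hK] at h1
  exact h1 (show (u + v) / 2 ∈ Ioo u v from ⟨by linarith, by linarith⟩)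

theorem exists_cut {K : Set ℝ} (hK : interior K = ∅) (m : ℕ → ℝ) : ∃ cut, Cut K m cut := by
  classical
  have : ∀ (s : ℕ) (σ : ℝ × ℝ), ∃ ρ : ℝ, ((¬ ∃ j, m j ∈ Ioo σ.1 σ.2) → ρ = σ.1) ∧
      ∀ j, m j ∈ Ioo σ.1 σ.2 → (∀ i < j, m i ∉ Ioo σ.1 σ.2) → ρ ∉ K ∧
        (Even s → m j < ρ ∧ ρ < σ.2 ∧ ρ < m j + (1 / 2) ^ s) ∧
        (¬ Even s → ρ < m j ∧ σ.1 < ρ ∧ m j - (1 / 2) ^ s < ρ) := by
    intro s σ
    by_cases hex : ∃ j, m j ∈ Ioo σ.1 σ.2
    · have h1 := Nat.find_spec hex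
      have hpos : (0 : ℝ) < (1 / 2) ^ s := by positivity
      have huniq : ∀ j, m j ∈ Ioo σ.1 σ.2 → (∀ i < j, m i ∉ Ioo σ.1 σ.2) →
          j = Nat.find hex := by
        intro j hj hj2
        rcases lt_trichotomy j (Nat.find hex) with h | h | h
        · exact absurd hj (Nat.find_min hex h)
        · exact h
        · exact absurd h1 (hj2 _ h)
      by_cases hs : Even s
      · obtain ⟨ρ, h2, h3, h4⟩ := exists_notMem hK
          (u := m (Nat.find hex)) (v := min σ.2 (m (Nat.find hex) + (1 / 2) ^ s))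
          (lt_min h1.2 (by linarith))
        refine ⟨ρ, fun h => absurd hex h, fun j hj hj2 => ?_⟩
        rw [huniq j hj hj2]
        exact ⟨h2, fun _ => ⟨h3, h4.trans_le (min_le_left _ _), h4.trans_le (min_le_right _ _)⟩,
          fun h => absurd hs h⟩
      · obtain ⟨ρ, h2, h3, h4⟩ := exists_notMem hK
          (u := max σ.1 (m (Nat.find hex) - (1 / 2) ^ s)) (v := m (Nat.find hex))
          (max_lt h1.1 (by linarith))
        refine ⟨ρ, fun h => absurd hex h, fun j hj hj2 => ?_⟩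
        rw [huniq j hj hj2]
        exact ⟨h2, fun h => absurd h hs, fun _ => ⟨h4, (le_max_left _ _).trans_lt h3,
          (le_max_right _ _).trans_lt h3⟩⟩
    · exact ⟨σ.1, fun _ => rfl, fun j hj => absurd ⟨j, hj⟩ hex⟩
  choose cut hcut using this
  exact ⟨cut, hcut⟩

section
variable {K : Set ℝ} {m : ℕ → ℝ} {cut : ℕ → ℝ × ℝ → ℝ} {σ : ℝ × ℝ}

theorem cut_notMem (hc : Cut K m cut) (s : ℕ) {τ : ℝ × ℝ} (h1 : τ.1 ∉ K) : cut s τ ∉ K := by
  classical
  by_cases hex : ∃ j, m j ∈ Ioo τ.1 τ.2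
  · exact ((hc s τ).2 _ (Nat.find_spec hex) fun i hi => Nat.find_min hex hi).1
  · rw [(hc s τ).1 hex]; exact h1

theorem inv (hc : Cut K m cut) (h1 : σ.1 ∉ K) (h2 : K ⊆ Ioo σ.1 σ.2) {x : ℝ} (hx : x ∈ K)
    (s : ℕ) : (st cut σ x s).1 ∉ K ∧ x ∈ Ioo (st cut σ x s).1 (st cut σ x s).2 := by
  induction s with
  | zero => exact ⟨h1, h2 hx⟩
  | succ s ih =>
    have hcK := cut_notMem hc s ih.1
    cases hb : bt cut σ x s with
    | true => rw [st_true hb]; exact ⟨hcK, bt_true.1 hb, ih.2.2⟩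
    | false =>
      rw [st_false hb]
      refine ⟨ih.1, ih.2.1, lt_of_le_of_ne (not_lt.1 (bt_false.1 hb)) ?_⟩
      intro he
      have he' : x = cut s (st cut σ x s) := he
      apply hcK
      rw [← he']
      exact hx

theorem cell_mono (hc : Cut K m cut) (x : ℝ) (s : ℕ) {y : ℝ}
    (hy : y ∈ Ioo (st cut σ x (s + 1)).1 (st cut σ x (s + 1)).2) :
    y ∈ Ioo (st cut σ x s).1 (st cut σ x s).2 := by
  classical
  by_cases hex : ∃ j, m j ∈ Ioo (st cut σ x s).1 (st cut σ x s).2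
  · have h := (hc s (st cut σ x s)).2 _ (Nat.find_spec hex) fun i hi => Nat.find_min hex hi
    have h3 := Nat.find_spec hex
    have hlr : (st cut σ x s).1 < cut s (st cut σ x s) ∧
        cut s (st cut σ x s) < (st cut σ x s).2 := by
      by_cases hs : Even s
      · exact ⟨h3.1.trans (h.2.1 hs).1, (h.2.1 hs).2.1⟩
      · exact ⟨(h.2.2 hs).2.1, (h.2.2 hs).1.trans h3.2⟩
    cases hb : bt cut σ x s with
    | true => rw [st_true hb] at hy; exact ⟨hlr.1.trans hy.1, hy.2⟩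
    | false => rw [st_false hb] at hy; exact ⟨hy.1, hy.2.trans hlr.2⟩
  · have h := (hc s (st cut σ x s)).1 hex
    cases hb : bt cut σ x s with
    | true => rw [st_true hb, h] at hy; exact hy
    | false =>
      rw [st_false hb, h] at hy
      exact absurd (hy.1.trans hy.2) (lt_irrefl _)

theorem lemA (hc : Cut K m cut) (x : ℝ) (i : ℕ)
    (hi : ∀ s, m i ∈ Ioo (st cut σ x s).1 (st cut σ x s).2) :
    ∃ j s0, ∀ s ≥ s0,
      (Even s → bt cut σ x s = false ∧ cut s (st cut σ x s) < m j + (1 / 2) ^ s) ∧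
      (¬ Even s → bt cut σ x s = true ∧ m j - (1 / 2) ^ s < cut s (st cut σ x s)) := by
  classical
  have hex : ∀ s, ∃ j, m j ∈ Ioo (st cut σ x s).1 (st cut σ x s).2 := fun s => ⟨i, hi s⟩
  let J : ℕ → ℕ := fun s => Nat.find (hex s)
  have hJ1 : ∀ s, m (J s) ∈ Ioo (st cut σ x s).1 (st cut σ x s).2 := fun s => Nat.find_spec (hex s)
  have hJ2 : ∀ s, ∀ k < J s, m k ∉ Ioo (st cut σ x s).1 (st cut σ x s).2 :=
    fun s k hk => Nat.find_min (hex s) hk
  have hJle : ∀ s, J s ≤ i := fun s => Nat.find_min' (hex s) (hi s)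
  have hJmono : Monotone J := monotone_nat_of_le_succ fun s =>
    Nat.find_min' (hex s) (cell_mono hc x s (hJ1 (s + 1)))
  obtain ⟨s0, hs0⟩ : ∃ s0, ∀ s ≥ s0, J s = J s0 := by
    obtain ⟨s0, hs0⟩ : ∃ s0, ∀ s, J s ≤ J s0 := by
      have hb : BddAbove (range J) := ⟨i, by rintro _ ⟨s, rfl⟩; exact hJle s⟩
      have hne : (range J).Nonempty := ⟨_, 0, rfl⟩
      obtain ⟨s0, h0⟩ := Nat.sSup_mem hne hb
      exact ⟨s0, fun s => by rw [h0]; exact le_csSup hb ⟨s, rfl⟩⟩
    exact ⟨s0, fun s hs => le_antisymm (hs0 s) (hJmono hs)⟩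
  refine ⟨J s0, s0, fun s hs => ?_⟩
  have h := (hc s (st cut σ x s)).2 _ (hJ1 s) (hJ2 s)
  have h1 := hJ1 (s + 1)
  rw [hs0 (s + 1) (by omega)] at h1
  rw [hs0 s hs] at h
  constructor
  · intro he
    refine ⟨?_, (h.2.1 he).2.2⟩
    cases hb : bt cut σ x s with
    | false => rfl
    | true =>
      rw [st_true hb] at h1
      exact absurd (h1.1.trans (h.2.1 he).1) (lt_irrefl _)
  · intro he
    refine ⟨?_, (h.2.2 he).2.2⟩
    cases hb : bt cut σ x s with
    | true => rfl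
    | false =>
      rw [st_false hb] at h1
      exact absurd (h1.2.trans (h.2.2 he).1) (lt_irrefl _)

theorem lemB (hc : Cut K m cut) {x : ℝ} {j s0 : ℕ} (hx : ∀ s ≥ s0,
      (Even s → bt cut σ x s = false ∧ cut s (st cut σ x s) < m j + (1 / 2) ^ s) ∧
      (¬ Even s → bt cut σ x s = true ∧ m j - (1 / 2) ^ s < cut s (st cut σ x s))) :
    x = m j := by
  have hlim : ∀ ε > (0 : ℝ), ∃ n : ℕ, ∀ k ≥ n, (1 / 2 : ℝ) ^ k < ε := by
    intro ε hε
    obtain ⟨n, hn⟩ := exists_pow_lt_of_lt_one hε (by norm_num : (1 / 2 : ℝ) < 1)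
    exact ⟨n, fun k hk => (pow_le_pow_of_le_one (by norm_num) (by norm_num) hk).trans_lt hn⟩
  apply le_antisymm
  · apply le_of_forall_pos_lt_add
    intro ε hε
    obtain ⟨n, hn⟩ := hlim ε hε
    have h1 := (hx (2 * (n + s0)) (by omega)).1 (even_two_mul _)
    have h2 := not_lt.1 (bt_false.1 h1.1)
    have h3 := hn (2 * (n + s0)) (by omega)
    linarith [h1.2]
  · apply le_of_forall_pos_lt_add
    intro ε hε
    obtain ⟨n, hn⟩ := hlim ε hε
    have h1 := (hx (2 * (n + s0) + 1) (by omega)).2 (by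
      rw [Nat.not_even_iff_odd]; exact odd_two_mul_add_one _)
    have h2 := bt_true.1 h1.1
    have h3 := hn (2 * (n + s0) + 1) (by omega)
    linarith [h1.2]

end

theorem exists_marks {K M : Set ℝ} (hK : IsCompact K) (hne : K.Nonempty) (hM : M.Countable) :
    ∃ m : ℕ → ℝ, (∀ x ∈ K, x ∈ M → ∃ i, m i = x) ∧
      ∀ x ∈ K, ∀ y ∈ K, x < y → ∃ i, x ≤ m i ∧ m i ≤ y := by
  let S : Set ℝ := M ∪ range fun q : ℚ => sSup (K ∩ Iic (q : ℝ))
  have hS : S.Countable := hM.union (countable_range _)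
  have hSne : S.Nonempty := ⟨sSup (K ∩ Iic ((0 : ℚ) : ℝ)), Or.inr ⟨0, rfl⟩⟩
  obtain ⟨m, hm⟩ := hS.exists_eq_range hSne
  refine ⟨m, fun x _ hxM => ?_, fun x hx y hy hxy => ?_⟩
  · have : x ∈ S := Or.inl hxM
    rw [hm] at this
    exact this
  · obtain ⟨q, hq1, hq2⟩ := exists_rat_btwn hxy
    have h1 : sSup (K ∩ Iic (q : ℝ)) ∈ S := Or.inr ⟨q, rfl⟩
    rw [hm] at h1
    obtain ⟨i, hi⟩ := h1
    refine ⟨i, ?_, ?_⟩
    · rw [hi]
      exact le_csSup (hK.bddAbove.mono inter_subset_left) ⟨hx, hq1.le⟩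
    · rw [hi]
      have hne2 : (K ∩ Iic (q : ℝ)).Nonempty := ⟨x, hx, hq1.le⟩
      have h5 : sSup (K ∩ Iic (q : ℝ)) ≤ (q : ℝ) := csSup_le hne2 fun z hz => hz.2
      exact h5.trans hq2.le

end PC1

open PC1 in
theorem c1 : StmC1 := by
  classical
  intro K M hK hint hM
  rcases K.eq_empty_or_nonempty with rfl | hne
  · exact ⟨fun _ _ => true, by simp, by simp, by simp⟩
  obtain ⟨m, hm1, hm2⟩ := exists_marks hK hne hM
  obtain ⟨cut, hc⟩ := exists_cut hint m
  obtain ⟨l, hl⟩ := hK.bddBelow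
  obtain ⟨r, hr⟩ := hK.bddAbove
  let σ : ℝ × ℝ := (l - 1, r + 1)
  have hσ1 : σ.1 ∉ K := fun h => by have := hl h; simp only [σ] at this; linarith
  have hσ2 : K ⊆ Ioo σ.1 σ.2 := fun x hx => by
    have h1 := hl hx
    have h2 := hr hx
    exact ⟨by simp only [σ]; linarith, by simp only [σ]; linarith⟩
  refine ⟨bt cut σ, ?_, ?_, ?_⟩
  · intro x hx y hy hxy
    have hex : ∃ s, bt cut σ x s ≠ bt cut σ y s := by
      by_contra hall
      push Not at hall
      have hst : ∀ s, st cut σ x s = st cut σ y s := fun s => st_eq s fun r _ => hall r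
      obtain ⟨i, hi1, hi2⟩ := hm2 x hx y hy hxy
      have hcell : ∀ s, m i ∈ Ioo (st cut σ x s).1 (st cut σ x s).2 := by
        intro s
        have h1 := (inv hc hσ1 hσ2 hx s).2
        have h2 := (inv hc hσ1 hσ2 hy s).2
        rw [← hst s] at h2
        exact ⟨h1.1.trans_le hi1, hi2.trans_lt h2.2⟩
      obtain ⟨j, s0, hj⟩ := lemA hc x i hcell
      have e1 := lemB hc hj
      have e2 : y = m j := by
        refine lemB (s0 := s0) (cut := cut) (σ := σ) hc fun s hs => ?_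
        have h3 := hj s hs
        rw [hall s, hst s] at h3
        exact h3
      rw [e1, e2] at hxy
      exact lt_irrefl _ hxy
    have h1 := Nat.find_spec hex
    have h2 : ∀ r < Nat.find hex, bt cut σ x r = bt cut σ y r :=
      fun r hr => not_not.1 (Nat.find_min hex hr)
    have h3 := st_eq (Nat.find hex) h2
    refine ⟨Nat.find hex, h2, ?_⟩
    cases hbx : bt cut σ x (Nat.find hex) with
    | false =>
      refine ⟨rfl, ?_⟩
      cases hby : bt cut σ y (Nat.find hex) with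
      | true => rfl
      | false => exact absurd (hbx.trans hby.symm) h1
    | true =>
      exfalso
      have h4 := bt_true.1 hbx
      rw [h3] at h4
      have h5 : bt cut σ y (Nat.find hex) = true := bt_true.2 (h4.trans hxy)
      exact h1 (hbx.trans h5.symm)
  · have key : ∀ s, ∀ x ∈ K, ∃ ε > 0, ∀ y ∈ K, |y - x| < ε → ∀ r < s,
        bt cut σ y r = bt cut σ x r := by
      intro s
      induction s with
      | zero => intro x _; exact ⟨1, one_pos, fun y _ _ r hr => absurd hr (Nat.not_lt_zero _)⟩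
      | succ s ih =>
        intro x hx
        obtain ⟨ε, hε, h⟩ := ih x hx
        have hK1 := cut_notMem hc s (inv hc hσ1 hσ2 hx s).1
        have hne1 : cut s (st cut σ x s) ≠ x := fun h => hK1 (by rw [h]; exact hx)
        have hpos : 0 < |cut s (st cut σ x s) - x| := abs_pos.2 (sub_ne_zero.2 hne1)
        refine ⟨min ε |cut s (st cut σ x s) - x|, lt_min hε hpos, fun y hy hyx r hr => ?_⟩
        have h1 := h y hy (hyx.trans_le (min_le_left _ _))
        rcases Nat.lt_succ_iff_lt_or_eq.1 hr with hr | rfl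
        · exact h1 r hr
        · have e := st_eq r h1
          have h2 := hyx.trans_le (min_le_right _ _)
          unfold bt
          rw [e]
          rw [decide_eq_decide]
          rcases lt_or_gt_of_ne hne1 with h3 | h3
          · rw [abs_of_neg (sub_neg.2 h3)] at h2
            have h4 := (abs_lt.1 h2).1
            exact ⟨fun _ => h3, fun _ => by linarith⟩
          · rw [abs_of_pos (sub_pos.2 h3)] at h2
            have h4 := (abs_lt.1 h2).2
            exact ⟨fun h5 => by linarith, fun h5 => by linarith⟩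
    intro s x hx
    obtain ⟨ε, hε, h⟩ := key (s + 1) x hx
    exact ⟨ε, hε, fun y hy hyx => h y hy hyx s (Nat.lt_succ_self s)⟩
  · intro x hx hxM
    obtain ⟨i, hi⟩ := hm1 x hx hxM
    obtain ⟨j, s0, hj⟩ := lemA (σ := σ) hc x i fun s => by rw [hi]; exact (inv hc hσ1 hσ2 hx s).2
    refine ⟨s0, fun s hs => ?_⟩
    by_cases he : Even s
    · rw [((hj s hs).1 he).1, ((hj (s + 2) (by omega)).1 (he.add even_two)).1]
    · rw [((hj s hs).2 he).1, ((hj (s + 2) (by omega)).2 (by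
        rw [Nat.even_add]; simp [he])).1]

end Pool.Agent.R135.WM
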