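import Pool.Agent.R135.WM.Stm

set_option autoImplicit false

namespace Pool.Agent.R135.WM

open Set Topology

/-- the cells -/
noncomputable def C1b_st (ρ : ℝ → ℝ → ℕ → ℝ) (B x : ℝ) : ℕ → ℝ × ℝ
  | 0 => (-B, B)
  | s + 1 => if ρ (C1b_st ρ B x s).1 (C1b_st ρ B x s).2 s < x then
      (ρ (C1b_st ρ B x s).1 (C1b_st ρ B x s).2 s, (C1b_st ρ B x s).2) else
      ((C1b_st ρ B x s).1, ρ (C1b_st ρ B x s).1 (C1b_st ρ B x s).2 s)

lemma C1b_lim (u v : ℝ) (f : ℕ → ℕ) (hf : ∀ n, n ≤ f n) (h : ∀ n, u < v + (1 / 2 : ℝ) ^ (f n)) :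
    u ≤ v := by
  by_contra hlt
  push Not at hlt
  obtain ⟨n, hn⟩ := exists_pow_lt_of_lt_one (sub_pos.2 hlt) (by norm_num : (1 / 2 : ℝ) < 1)
  have h1 := h n
  have h2 : (1 / 2 : ℝ) ^ (f n) ≤ (1 / 2) ^ n :=
    pow_le_pow_of_le_one (by norm_num) (by norm_num) (hf n)
  linarith

theorem c1b : StmC1 := by
  intro K M hK hKi hM
  classical
  -- marks
  obtain ⟨m, hm⟩ : ∃ m : ℕ → ℝ, M ∪ range ((↑) : ℚ → ℝ) = range m :=
    (hM.union (countable_range _)).exists_eq_range ⟨((0 : ℚ) : ℝ), Or.inr (mem_range_self _)⟩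
  have hmQ : ∀ l r : ℝ, l < r → ∃ i, m i ∈ Ioo l r := by
    intro l r hlr
    obtain ⟨q, hq1, hq2⟩ := exists_rat_btwn hlr
    have : (q : ℝ) ∈ range m := hm ▸ Or.inr (mem_range_self q)
    obtain ⟨i, hi⟩ := this
    exact ⟨i, by rw [hi]; exact ⟨hq1, hq2⟩⟩
  have hKd : ∀ l r : ℝ, l < r → ∃ ρ, ρ ∉ K ∧ ρ ∈ Ioo l r := by
    intro l r hlr
    have hd : Dense Kᶜ := interior_eq_empty_iff_dense_compl.1 hKi
    obtain ⟨ρ, h1, h2⟩ := hd.exists_between hlr
    exact ⟨ρ, h1, h2⟩
  have hcut : ∀ (l r : ℝ) (s : ℕ), l < r → ∃ ρ, ρ ∉ K ∧ ρ ∈ Ioo l r ∧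
      ∀ j, (m j ∈ Ioo l r ∧ ∀ i < j, m i ∉ Ioo l r) →
        (Even s → m j < ρ ∧ ρ < m j + (1 / 2 : ℝ) ^ s) ∧
        (¬ Even s → ρ < m j ∧ m j < ρ + (1 / 2 : ℝ) ^ s) := by
    intro l r s hlr
    have hex := hmQ l r hlr
    set j := Nat.find hex with hj
    have hj1 : m j ∈ Ioo l r := Nat.find_spec hex
    have huniq : ∀ j', (m j' ∈ Ioo l r ∧ ∀ i < j', m i ∉ Ioo l r) → j' = j := by
      rintro j' ⟨h1, h2⟩
      refine le_antisymm ?_ (Nat.find_min' hex h1)
      by_contra hlt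
      push Not at hlt
      exact h2 j hlt hj1
    have hp : (0 : ℝ) < (1 / 2) ^ s := by positivity
    by_cases hs : Even s
    · obtain ⟨ρ, h1, h2⟩ := hKd (m j) (min r (m j + (1 / 2) ^ s)) (lt_min hj1.2 (by linarith))
      refine ⟨ρ, h1, ⟨hj1.1.trans h2.1, h2.2.trans_le (min_le_left _ _)⟩, fun j' hj' => ?_⟩
      rw [huniq j' hj']
      exact ⟨fun _ => ⟨h2.1, h2.2.trans_le (min_le_right _ _)⟩, fun h => absurd hs h⟩
    · obtain ⟨ρ, h1, h2⟩ := hKd (max l (m j - (1 / 2) ^ s)) (m j) (max_lt hj1.1 (by linarith))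
      refine ⟨ρ, h1, ⟨(le_max_left _ _).trans_lt h2.1, h2.2.trans hj1.2⟩, fun j' hj' => ?_⟩
      rw [huniq j' hj']
      refine ⟨fun h => absurd h hs, fun _ => ⟨h2.2, ?_⟩⟩
      have := (le_max_right l (m j - (1 / 2) ^ s)).trans_lt h2.1
      linarith
  choose! ρ hρ1 hρ2 hρ3 using hcut
  obtain ⟨B, hB⟩ : ∃ B : ℝ, ∀ x ∈ K, -B < x ∧ x < B := by
    obtain ⟨B, hB⟩ := hK.isBounded.subset_ball (0 : ℝ)
    refine ⟨B, fun x hx => ?_⟩
    have := hB hx
    rw [Metric.mem_ball, Real.dist_eq, sub_zero, abs_lt] at this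
    exact this
  set st := C1b_st ρ B with hst
  have hst0 : ∀ x, st x 0 = (-B, B) := fun x => rfl
  have hsts : ∀ x s, st x (s + 1) = if ρ (st x s).1 (st x s).2 s < x then
      (ρ (st x s).1 (st x s).2 s, (st x s).2) else ((st x s).1, ρ (st x s).1 (st x s).2 s) :=
    fun x s => rfl
  have hin : ∀ x ∈ K, ∀ s, (st x s).1 < x ∧ x < (st x s).2 := by
    intro x hx s
    induction s with
    | zero => exact hB x hx
    | succ s ih =>
      have hlr := ih.1.trans ih.2
      have hne : ρ (st x s).1 (st x s).2 s ≠ x := fun h => hρ1 _ _ s hlr (by rw [h]; exact hx)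
      rw [hsts]
      split_ifs with h
      · exact ⟨h, ih.2⟩
      · exact ⟨ih.1, lt_of_le_of_ne (not_lt.1 h) hne.symm⟩
  have hlr : ∀ x ∈ K, ∀ s, (st x s).1 < (st x s).2 := fun x hx s => (hin x hx s).1.trans (hin x hx s).2
  have hmono1 : ∀ x ∈ K, ∀ s, Ioo (st x (s + 1)).1 (st x (s + 1)).2 ⊆ Ioo (st x s).1 (st x s).2 := by
    intro x hx s
    have h2 := hρ2 _ _ s (hlr x hx s)
    rw [hsts]
    split_ifs with h
    · exact Ioo_subset_Ioo h2.1.le le_rfl
    · exact Ioo_subset_Ioo le_rfl h2.2.le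
  have hmono : ∀ x ∈ K, ∀ s t, s ≤ t → Ioo (st x t).1 (st x t).2 ⊆ Ioo (st x s).1 (st x s).2 := by
    intro x hx s t hle
    induction t, hle using Nat.le_induction with
    | base => exact Subset.rfl
    | succ t _ ih => exact (hmono1 x hx t).trans ih
  set β : ℝ → ℕ → Bool := fun x s => decide (ρ (st x s).1 (st x s).2 s < x) with hβ
  have hsame : ∀ x y s, (∀ r < s, β x r = β y r) → st x s = st y s := by
    intro x y s
    induction s with
    | zero => intro _; rfl
    | succ s ih =>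
      intro h
      have h1 := ih fun r hr => h r (by omega)
      have h2 := h s (by omega)
      simp only [hβ, decide_eq_decide] at h2
      rw [hsts, hsts]
      rw [h1] at h2 ⊢
      by_cases h3 : ρ (st y s).1 (st y s).2 s < x
      · rw [if_pos h3, if_pos (h2.1 h3)]
      · rw [if_neg h3, if_neg (fun h4 => h3 (h2.2 h4))]
  have hkey : ∀ x ∈ K, ∀ i, (∀ s, m i ∈ Ioo (st x s).1 (st x s).2) →
      x = m i ∧ ∃ s0, ∀ s ≥ s0, (Even s → β x s = false) ∧ (¬ Even s → β x s = true) := by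
    intro x hx i hi
    have hex : ∀ s, ∃ j, m j ∈ Ioo (st x s).1 (st x s).2 := fun s => ⟨i, hi s⟩
    set j : ℕ → ℕ := fun s => Nat.find (hex s) with hj
    have hji : ∀ s, j s ≤ i := fun s => Nat.find_min' (hex s) (hi s)
    have hjs : ∀ s, m (j s) ∈ Ioo (st x s).1 (st x s).2 := fun s => Nat.find_spec (hex s)
    have hjm : ∀ s t, s ≤ t → j s ≤ j t := fun s t h =>
      Nat.find_min' (hex s) (hmono x hx s t h (hjs t))
    obtain ⟨s0, hs0⟩ : ∃ s0, ∀ s, j s ≤ j s0 := by
      refine ⟨Function.argmin (fun s => i - j s), fun s => ?_⟩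
      have h1 : i - j (Function.argmin (fun s => i - j s)) ≤ i - j s :=
        Function.argmin_le (fun s => i - j s) s
      have h2 := hji s
      have h3 := hji (Function.argmin (fun s => i - j s))
      omega
    set J := j s0 with hJ
    have hjJ : ∀ s ≥ s0, j s = J := fun s hs => le_antisymm (hs0 s) (hjm _ _ hs)
    have hmJ : ∀ s ≥ s0, m J ∈ Ioo (st x s).1 (st x s).2 := fun s hs => hjJ s hs ▸ hjs s
    have hmin : ∀ s ≥ s0, m J ∈ Ioo (st x s).1 (st x s).2 ∧
        ∀ i < J, m i ∉ Ioo (st x s).1 (st x s).2 := by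
      intro s hs
      refine ⟨hmJ s hs, fun i' hi' => ?_⟩
      have := hjJ s hs
      exact Nat.find_min (hex s) (by rw [← this] at hi'; exact hi')
    have hev : ∀ s ≥ s0, Even s → β x s = false ∧ x < m J + (1 / 2 : ℝ) ^ s ∧
        m i < m J + (1 / 2 : ℝ) ^ s := by
      intro s hs he
      have h1 := ((hρ3 _ _ s (hlr x hx s)) J (hmin s hs)).1 he
      have h2 := hmJ (s + 1) (by omega)
      have h3 := hi (s + 1)
      have h4 := hin x hx (s + 1)
      rw [hsts] at h2 h3 h4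
      by_cases h : ρ (st x s).1 (st x s).2 s < x
      · rw [if_pos h] at h2
        exact absurd (h2.1.trans h1.1) (lt_irrefl _)
      · rw [if_neg h] at h3 h4
        exact ⟨by simp only [hβ, decide_eq_false_iff_not]; exact h, h4.2.trans h1.2, h3.2.trans h1.2⟩
    have hod : ∀ s ≥ s0, ¬ Even s → β x s = true ∧ m J < x + (1 / 2 : ℝ) ^ s ∧
        m J < m i + (1 / 2 : ℝ) ^ s := by
      intro s hs he
      have h1 := ((hρ3 _ _ s (hlr x hx s)) J (hmin s hs)).2 he
      have h2 := hmJ (s + 1) (by omega)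
      have h3 := hi (s + 1)
      have h4 := hin x hx (s + 1)
      rw [hsts] at h2 h3 h4
      by_cases h : ρ (st x s).1 (st x s).2 s < x
      · rw [if_pos h] at h3 h4
        exact ⟨by simp only [hβ, decide_eq_true_eq]; exact h,
          h1.2.trans (by linarith [h4.1]), h1.2.trans (by linarith [h3.1])⟩
      · rw [if_neg h] at h2
        exact absurd (h2.2.trans h1.1) (lt_irrefl _)
    have hE : ∀ n, Even (2 * (n + s0)) := fun n => even_two_mul _
    have hO : ∀ n, ¬ Even (2 * (n + s0) + 1) := fun n => by simp [Nat.even_add_one]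
    have a1 : x ≤ m J := C1b_lim _ _ (fun n => 2 * (n + s0)) (fun n => by omega)
      fun n => (hev _ (by omega) (hE n)).2.1
    have a2 : m i ≤ m J := C1b_lim _ _ (fun n => 2 * (n + s0)) (fun n => by omega)
      fun n => (hev _ (by omega) (hE n)).2.2
    have a3 : m J ≤ x := C1b_lim _ _ (fun n => 2 * (n + s0) + 1) (fun n => by omega)
      fun n => (hod _ (by omega) (hO n)).2.1
    have a4 : m J ≤ m i := C1b_lim _ _ (fun n => 2 * (n + s0) + 1) (fun n => by omega)
      fun n => (hod _ (by omega) (hO n)).2.2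
    exact ⟨by linarith, s0, fun s hs => ⟨fun h => (hev s hs h).1, fun h => (hod s hs h).1⟩⟩
  refine ⟨β, ?_, ?_, ?_⟩
  · intro x hx y hy hxy
    have hex : ∃ s, β x s ≠ β y s := by
      by_contra hno
      push Not at hno
      obtain ⟨i, hi⟩ := hmQ x y hxy
      have h1 := (hkey x hx i (fun s => by
        have h2 := hsame x y s fun r _ => hno r
        refine ⟨(hin x hx s).1.trans hi.1, ?_⟩
        rw [h2]
        exact hi.2.trans (hin y hy s).2)).1
      rw [← h1] at hi
      exact lt_irrefl _ hi.1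
    have h1 := Nat.find_spec hex
    have h2 : ∀ r < Nat.find hex, β x r = β y r := fun r hr => by
      have := Nat.find_min hex hr
      push Not at this
      exact this
    refine ⟨Nat.find hex, h2, ?_⟩
    have h3 := hsame x y _ h2
    set s := Nat.find hex
    simp only [hβ] at h1 ⊢
    rw [h3] at h1 ⊢
    by_cases h4 : ρ (st y s).1 (st y s).2 s < x
    · exact absurd (by simp [h4, h4.trans hxy]) h1
    · by_cases h5 : ρ (st y s).1 (st y s).2 s < y
      · exact ⟨by simpa using h4, by simpa using h5⟩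
      · exact absurd (by simp [h4, h5]) h1
  · have hloc : ∀ s, ∀ x ∈ K, ∃ ε > 0, ∀ y ∈ K, |y - x| < ε → st y s = st x s ∧ β y s = β x s := by
      intro s
      have hstep : ∀ s, ∀ x ∈ K, (∃ ε > 0, ∀ y ∈ K, |y - x| < ε → st y s = st x s) →
          ∃ ε > 0, ∀ y ∈ K, |y - x| < ε → st y s = st x s ∧ β y s = β x s := by
        rintro s x hx ⟨ε, hε, h⟩
        have hne : ρ (st x s).1 (st x s).2 s ≠ x := fun h => hρ1 _ _ s (hlr x hx s) (by rw [h]; exact hx)
        refine ⟨min ε |x - ρ (st x s).1 (st x s).2 s|, lt_min hε (abs_pos.2 (sub_ne_zero.2 hne.symm)),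
          fun y hy hyx => ?_⟩
        have h1 := h y hy (hyx.trans_le (min_le_left _ _))
        have h2 := hyx.trans_le (min_le_right _ _)
        refine ⟨h1, ?_⟩
        simp only [hβ, decide_eq_decide]
        rw [h1]
        rcases lt_or_gt_of_ne hne with h3 | h3
        · rw [abs_of_pos (sub_pos.2 h3)] at h2
          have := (abs_lt.1 h2).1
          exact ⟨fun _ => h3, fun _ => by linarith⟩
        · rw [abs_of_neg (sub_neg.2 h3)] at h2
          have := (abs_lt.1 h2).2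
          exact ⟨fun h4 => by linarith, fun h4 => by linarith⟩
      induction s with
      | zero => exact fun x hx => hstep 0 x hx ⟨1, one_pos, fun y _ _ => rfl⟩
      | succ s ih =>
        intro x hx
        refine hstep (s + 1) x hx ?_
        obtain ⟨ε, hε, h⟩ := ih x hx
        refine ⟨ε, hε, fun y hy hyx => ?_⟩
        obtain ⟨h1, h2⟩ := h y hy hyx
        simp only [hβ, decide_eq_decide] at h2
        rw [hsts, hsts]
        rw [h1] at h2 ⊢
        by_cases h3 : ρ (st x s).1 (st x s).2 s < y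
        · rw [if_pos h3, if_pos (h2.1 h3)]
        · rw [if_neg h3, if_neg (fun h4 => h3 (h2.2 h4))]
    intro s x hx
    obtain ⟨ε, hε, h⟩ := hloc s x hx
    exact ⟨ε, hε, fun y hy hyx => (h y hy hyx).2⟩
  · intro x hx hxM
    have : x ∈ range m := hm ▸ Or.inl hxM
    obtain ⟨i, hi⟩ := this
    obtain ⟨-, s0, h⟩ := hkey x hx i (fun s => hi ▸ hin x hx s)
    refine ⟨s0, fun s hs => ?_⟩
    by_cases he : Even s
    · rw [(h s hs).1 he, (h (s + 2) (by omega)).1 (by simpa [Nat.even_add] using he)]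
    · rw [(h s hs).2 he, (h (s + 2) (by omega)).2 (by simpa [Nat.even_add] using he)]

end Pool.Agent.R135.WM
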