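import Pool.Agent.R135.WM.Stm

namespace Pool.Agent.R135.WM

open Set Topology

/-- piece C2 -/
theorem c2 : StmC2 := by
  classical
  intro K M E β hK hM hEK hFS hsep hloc
  obtain ⟨F, hFc, hFU⟩ := hFS
  obtain ⟨mm, hmm⟩ : ∃ mm : ℕ → ℝ, ∀ x ∈ M, ∃ j, mm j = x := by
    rcases M.eq_empty_or_nonempty with h | h
    · exact ⟨fun _ => 0, fun x hx => by rw [h] at hx; exact absurd hx (notMem_empty x)⟩
    · obtain ⟨f, hf⟩ := hM.exists_eq_range h
      refine ⟨f, fun x hx => ?_⟩
      rw [hf] at hx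
      exact hx
  -- the cells
  obtain ⟨C, hC⟩ : ∃ C : ℕ → ℝ → Set ℝ, C = fun s x => {y | y ∈ K ∧ ∀ r < s, β y r = β x r} :=
    ⟨_, rfl⟩
  have memC : ∀ s x y, y ∈ C s x ↔ (y ∈ K ∧ ∀ r < s, β y r = β x r) := by
    intro s x y; rw [hC]; rfl
  have hinj : ∀ y ∈ K, ∀ x ∈ K, (∀ r, β y r = β x r) → y = x := by
    intro y hy x hx h
    rcases lt_trichotomy y x with hlt | heq | hgt
    · obtain ⟨s, _, h1, h2⟩ := hsep y hy x hx hlt
      rw [h s, h2] at h1
      exact absurd h1 (by decide)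
    · exact heq
    · obtain ⟨s, _, h1, h2⟩ := hsep x hx y hy hgt
      rw [← h s, h2] at h1
      exact absurd h1 (by decide)
  have hself : ∀ s, ∀ x ∈ K, x ∈ C s x := fun s x hx => (memC s x x).2 ⟨hx, fun _ _ => rfl⟩
  have hCsub : ∀ s t x, s ≤ t → C t x ⊆ C s x := by
    intro s t x hst y hy
    rw [memC] at hy ⊢
    exact ⟨hy.1, fun r hr => hy.2 r (lt_of_lt_of_le hr hst)⟩
  have hCcl : ∀ s x, IsClosed (C s x) := by
    intro s x
    rw [← isOpen_compl_iff, Metric.isOpen_iff]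
    intro y hy
    rw [mem_compl_iff, memC] at hy
    by_cases hyK : y ∈ K
    · have : ∃ r < s, β y r ≠ β x r := by
        by_contra h
        push Not at h
        exact hy ⟨hyK, h⟩
      obtain ⟨r, hr, hne⟩ := this
      obtain ⟨ε, hε, h⟩ := hloc r y hyK
      refine ⟨ε, hε, fun z hz hz' => hne ?_⟩
      rw [memC] at hz'
      rw [← h z hz'.1 (by rwa [Metric.mem_ball, Real.dist_eq] at hz)]
      exact hz'.2 r hr
    · obtain ⟨ε, hε, h⟩ := Metric.isOpen_iff.1 hK.isClosed.isOpen_compl y hyK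
      exact ⟨ε, hε, fun z hz hz' => h hz ((memC _ _ _).1 hz').1⟩
  -- escaping closed sets
  have hesc : ∀ D : Set ℝ, IsClosed D → ∀ x ∈ K, x ∉ D → ∃ s0, ∀ s ≥ s0, ¬ (D ∩ C s x).Nonempty := by
    intro D hD x hx hxD
    by_contra hcon
    push Not at hcon
    have hne : ∀ s, (D ∩ C s x).Nonempty := by
      intro s
      obtain ⟨s', hs', y, hyD, hyC⟩ := hcon s
      exact ⟨y, hyD, hCsub s s' x hs' hyC⟩
    have := IsCompact.nonempty_iInter_of_sequence_nonempty_isCompact_isClosed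
      (fun s => D ∩ C s x) (fun s y hy => ⟨hy.1, hCsub s (s + 1) x (Nat.le_succ s) hy.2⟩) hne
      (hK.of_isClosed_subset (hD.inter (hCcl 0 x)) (fun y hy => ((memC _ _ _).1 hy.2).1))
      (fun s => hD.inter (hCcl s x))
    obtain ⟨y, hy⟩ := this
    rw [mem_iInter] at hy
    have hyx : y = x := hinj y ((memC _ _ _).1 (hy 0).2).1 x hx
      (fun r => ((memC _ _ _).1 (hy (r + 1)).2).2 r (Nat.lt_succ_self r))
    exact hxD (hyx ▸ (hy 0).1)
  -- increasing closed sets
  obtain ⟨G, hG⟩ : ∃ G : ℕ → Set ℝ, G = fun m => ⋃ i ∈ Iic m, F i := ⟨_, rfl⟩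
  have memG : ∀ m y, y ∈ G m ↔ ∃ i ≤ m, y ∈ F i := by
    intro m y; rw [hG]; simp
  have hGcl : ∀ m, IsClosed (G m) := by
    intro m; rw [hG]
    exact (finite_Iic m).isClosed_biUnion (fun i _ => hFc i)
  have hGmono : ∀ m n, m ≤ n → G m ⊆ G n := by
    intro m n hmn y hy
    rw [memG] at hy ⊢
    obtain ⟨i, hi, h⟩ := hy
    exact ⟨i, hi.trans hmn, h⟩
  have hGE : ∀ y, y ∈ E ↔ ∃ m, y ∈ G m := by
    intro y
    rw [← hFU, mem_iUnion]
    constructor
    · rintro ⟨i, h⟩; exact ⟨i, (memG i y).2 ⟨i, le_refl _, h⟩⟩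
    · rintro ⟨m, h⟩
      obtain ⟨i, _, h⟩ := (memG m y).1 h
      exact ⟨i, h⟩
  -- μ
  obtain ⟨μ, hμ⟩ : ∃ μ : ℝ → ℕ → ℕ, μ = fun x s => sInf {m | s ≤ m ∨ (G m ∩ C s x).Nonempty} :=
    ⟨_, rfl⟩
  have μmem : ∀ x s, s ≤ μ x s ∨ (G (μ x s) ∩ C s x).Nonempty := by
    intro x s
    rw [hμ]
    exact Nat.sInf_mem (s := {m | s ≤ m ∨ (G m ∩ C s x).Nonempty}) ⟨s, Or.inl (le_refl s)⟩
  have μle : ∀ x s m, (s ≤ m ∨ (G m ∩ C s x).Nonempty) → μ x s ≤ m := by
    intro x s m h
    rw [hμ]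
    exact Nat.sInf_le h
  have μmono : ∀ x, Monotone (μ x) := by
    intro x s t hst
    apply μle
    rcases μmem x t with h | h
    · exact Or.inl (hst.trans h)
    · obtain ⟨y, hy1, hy2⟩ := h
      exact Or.inr ⟨y, hy1, hCsub s t x hst hy2⟩
  -- finiteness of the set of changes
  have hchg : ∀ x ∈ K, x ∈ E ↔ {s | μ x (s + 1) ≠ μ x s}.Finite := by
    intro x hx
    constructor
    · intro hxE
      obtain ⟨m0, hm0⟩ := (hGE x).1 hxE
      have hb : ∀ s, μ x s ≤ m0 := fun s => μle x s m0 (Or.inr ⟨x, hm0, hself s x hx⟩)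
      have hbdd : BddAbove (range (μ x)) := ⟨m0, by rintro _ ⟨s, rfl⟩; exact hb s⟩
      obtain ⟨s0, hs0⟩ := Nat.sSup_mem (range_nonempty (μ x)) hbdd
      have hmax : ∀ s, μ x s ≤ μ x s0 := fun s => hs0 ▸ le_csSup hbdd ⟨s, rfl⟩
      refine (finite_lt_nat s0).subset ?_
      intro s hs
      rw [mem_setOf_eq] at hs ⊢
      by_contra hcon
      push Not at hcon
      apply hs
      have h1 : μ x s = μ x s0 := le_antisymm (hmax s) (μmono x hcon)
      have h2 : μ x (s + 1) = μ x s0 := le_antisymm (hmax _) (μmono x (hcon.trans (Nat.le_succ s)))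
      rw [h1, h2]
    · intro hfin
      by_contra hxE
      obtain ⟨s1, hs1⟩ := hfin.bddAbove
      have hconst : ∀ s, s1 + 1 ≤ s → μ x s = μ x (s1 + 1) := by
        intro s hs
        induction s, hs using Nat.le_induction with
        | base => rfl
        | succ n hn ih =>
          rw [← ih]
          by_contra hne
          have := hs1 (show n ∈ {s | μ x (s + 1) ≠ μ x s} from hne)
          omega
      obtain ⟨m, hm⟩ : ∃ m, μ x (s1 + 1) = m := ⟨_, rfl⟩
      have hxG : x ∉ G m := fun h => hxE ((hGE x).2 ⟨m, h⟩)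
      obtain ⟨s0, hs0⟩ := hesc (G m) (hGcl m) x hx hxG
      obtain ⟨s, hs⟩ : ∃ s, s = max (max s0 (m + 1)) (s1 + 1) := ⟨_, rfl⟩
      have e1 : μ x s = m := (hconst s (by rw [hs]; exact le_max_right _ _)).trans hm
      rcases μmem x s with h | h
      · rw [e1] at h
        have : m + 1 ≤ s := by
          rw [hs]; exact (le_max_right _ _).trans (le_max_left _ _)
        omega
      · rw [e1] at h
        exact hs0 s (by rw [hs]; exact (le_max_left _ _).trans (le_max_left _ _)) h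
  -- the row
  obtain ⟨B, hB⟩ : ∃ B : ℝ → ℕ → Prop, B = fun x s => μ x (s + 1) ≠ μ x s ∨
      ∃ j ≤ s, mm j ∉ E ∧ mm j ∈ C (s + 1) x ∧ ¬ (G j ∩ C (s + 1) x).Nonempty := ⟨_, rfl⟩
  have hfinB : ∀ x ∈ K, x ∈ E → {s | B x s}.Finite := by
    intro x hx hxE
    obtain ⟨m0, hm0⟩ := (hGE x).1 hxE
    have hj : ∀ j, {s | mm j ∉ E ∧ mm j ∈ C (s + 1) x}.Finite := by
      intro j
      by_cases hjE : mm j ∈ E
      · convert finite_empty
        ext s
        simp [hjE]
      · have hne : x ∉ ({mm j} : Set ℝ) := by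
          intro h
          rw [mem_singleton_iff] at h
          exact hjE (h ▸ hxE)
        obtain ⟨s0, hs0⟩ := hesc {mm j} isClosed_singleton x hx hne
        refine (finite_lt_nat s0).subset ?_
        intro s hs
        rw [mem_setOf_eq] at hs ⊢
        by_contra hcon
        push Not at hcon
        exact hs0 (s + 1) (by omega) ⟨mm j, rfl, hs.2⟩
    have hun : (⋃ j ∈ {j | j < m0}, {s | mm j ∉ E ∧ mm j ∈ C (s + 1) x}).Finite :=
      (finite_lt_nat m0).biUnion (fun j _ => hj j)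
    refine (((hchg x hx).1 hxE).union hun).subset ?_
    intro s hs
    rw [mem_setOf_eq, hB] at hs
    rcases hs with h | ⟨j, hjs, h1, h2, h3⟩
    · exact Or.inl h
    · refine Or.inr ?_
      rw [mem_iUnion₂]
      refine ⟨j, ?_, h1, h2⟩
      rw [mem_setOf_eq]
      by_contra hcon
      push Not at hcon
      exact h3 ⟨x, hGmono m0 j hcon hm0, hself (s + 1) x hx⟩
  refine ⟨fun x s => decide (B x s), ?_, ?_, ?_⟩
  · intro x hx y hy s hxy
    have hCC : ∀ t ≤ s + 1, C t x = C t y := by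
      intro t ht
      ext z
      rw [memC, memC]
      constructor
      · rintro ⟨h1, h2⟩
        exact ⟨h1, fun r hr => (h2 r hr).trans (hxy r (by omega))⟩
      · rintro ⟨h1, h2⟩
        exact ⟨h1, fun r hr => (h2 r hr).trans (hxy r (by omega)).symm⟩
    have hBB : B x s = B y s := by
      rw [hB, hμ]
      simp only [hCC s (Nat.le_succ s), hCC (s + 1) (le_refl _)]
    simp only [hBB]
  · intro x hx
    constructor
    · intro hxE
      refine (hfinB x hx hxE).subset ?_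
      intro s hs
      rw [mem_setOf_eq, decide_eq_true_eq] at hs
      exact hs
    · intro hfin
      rw [hchg x hx]
      refine hfin.subset ?_
      intro s hs
      rw [mem_setOf_eq, decide_eq_true_eq, hB]
      exact Or.inl hs
  · intro x hx hxM
    by_cases hxE : x ∈ E
    · obtain ⟨s1, hs1⟩ := (hfinB x hx hxE).bddAbove
      refine ⟨s1 + 1, fun s hs => ?_⟩
      have h1 : ¬ B x (s + 1) := by
        intro h
        have := hs1 (show s + 1 ∈ {s | B x s} from h)
        omega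
      have h2 : ¬ B x s := by
        intro h
        have := hs1 (show s ∈ {s | B x s} from h)
        omega
      simp only [h1, h2]
    · obtain ⟨j, hj⟩ := hmm x hxM
      have hxG : x ∉ G j := fun h => hxE ((hGE x).2 ⟨j, h⟩)
      obtain ⟨s0, hs0⟩ := hesc (G j) (hGcl j) x hx hxG
      have key : ∀ s, max s0 j ≤ s → B x s := by
        intro s hs
        rw [hB]
        refine Or.inr ⟨j, (le_max_right _ _).trans hs, hj ▸ hxE, ?_, ?_⟩
        · rw [hj]; exact hself (s + 1) x hx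
        · exact hs0 (s + 1) (((le_max_left _ _).trans hs).trans (Nat.le_succ s))
      refine ⟨max s0 j, fun s hs => ?_⟩
      have h1 : B x (s + 1) := key (s + 1) (hs.trans (Nat.le_succ s))
      have h2 : B x s := key s hs
      simp only [h1, h2]

end Pool.Agent.R135.WM
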