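import Pool.Agent.R135.WM.Stm

/-! Project WM (MP_fd8bd4_lc), piece CASM (helper34). -/

namespace Pool.Agent.R135.WM

open Set Topology

namespace CASM

/-- the letter -/
def zz (p : ℕ) (β : ℝ → ℕ → Bool) (b : ℕ → ℝ → ℕ → Bool) (T : ℕ → Bool) (x : ℝ) (s : ℕ) : ℕ :=
  Nat.ofBits (n := p + 2) (fun i => if i.1 = p + 1 then β x s else if i.1 = p then T s else b i.1 x s)

theorem zz_lt (p : ℕ) (β : ℝ → ℕ → Bool) (b : ℕ → ℝ → ℕ → Bool) (T : ℕ → Bool) (x : ℝ) (s : ℕ) :
    zz p β b T x s < 2 ^ (p + 2) := Nat.ofBits_lt_two_pow _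

theorem zz_row (p : ℕ) (β : ℝ → ℕ → Bool) (b : ℕ → ℝ → ℕ → Bool) (T : ℕ → Bool) (x : ℝ) (s : ℕ)
    (i : ℕ) (hi : i < p) : (zz p β b T x s).testBit i = b i x s := by
  unfold zz
  rw [Nat.testBit_ofBits_lt _ i (by omega)]
  have h1 : i ≠ p + 1 := by omega
  have h2 : i ≠ p := by omega
  simp [h1, h2]

theorem zz_p (p : ℕ) (β : ℝ → ℕ → Bool) (b : ℕ → ℝ → ℕ → Bool) (T : ℕ → Bool) (x : ℝ) (s : ℕ) :
    (zz p β b T x s).testBit p = T s := by
  unfold zz
  rw [Nat.testBit_ofBits_lt _ p (by omega)]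
  simp

theorem zz_top (p : ℕ) (β : ℝ → ℕ → Bool) (b : ℕ → ℝ → ℕ → Bool) (T : ℕ → Bool) (x : ℝ) (s : ℕ) :
    (zz p β b T x s).testBit (p + 1) = β x s := by
  unfold zz
  rw [Nat.testBit_ofBits_lt _ (p + 1) (by omega)]
  simp

theorem zz_congr (p : ℕ) (β : ℝ → ℕ → Bool) (b : ℕ → ℝ → ℕ → Bool) (T T' : ℕ → Bool) (x y : ℝ)
    (s t : ℕ) (hT : T s = T' t) (hβ : β x s = β y t) (hb : ∀ i < p, b i x s = b i y t) :
    zz p β b T x s = zz p β b T' y t := by
  unfold zz
  congr 1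
  funext i
  by_cases h1 : i.1 = p + 1
  · simp [h1, hβ]
  · by_cases h2 : i.1 = p
    · simp [h2, hT]
    · have h3 : i.1 < p := by have := i.2; omega
      simp [h1, h2, hb i.1 h3]

end CASM

open CASM in
theorem casm : StmCASM := by
  intro hC1 hC2 p K M d hK hint hM hd hFS
  obtain ⟨β, hβ1, hβ2, hβ3⟩ := hC1 K M hK hint hM
  have hrow : ∀ i : ℕ, ∃ b : ℝ → ℕ → Bool,
      (∀ x ∈ K, ∀ y ∈ K, ∀ s, (∀ r ≤ s, β x r = β y r) → b x s = b y s) ∧
      (∀ x ∈ K, x ∈ {x | x ∈ K ∧ d x ≤ i} ↔ {s | b x s = true}.Finite) ∧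
      (∀ x ∈ K, x ∈ M → ∃ s0, ∀ s ≥ s0, b x (s + 1) = b x s) := fun i =>
    hC2 K M {x | x ∈ K ∧ d x ≤ i} β hK hM (fun x hx => hx.1) (hFS i) hβ1 hβ2
  choose b hb1 hb2 hb3 using hrow
  refine ⟨fun T x s => zz p β b T x s, ?_, ?_, ?_, ?_, ?_, ?_⟩
  · intro T x _ s
    exact zz_lt p β b T x s
  · intro T x hx y hy hxy
    obtain ⟨s, hs1, hs2, hs3⟩ := hβ1 x hx y hy hxy
    refine ⟨s, ?_, ?_⟩
    · intro r hr
      refine zz_congr p β b T T x y r r rfl (hs1 r hr) ?_
      intro i _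
      exact hb1 i x hx y hy r (fun r' hr' => hs1 r' (lt_of_le_of_lt hr' hr))
    · have hx1 : zz p β b T x s < 2 ^ (p + 1) := by
        apply Nat.lt_pow_two_of_testBit
        intro i hi
        rcases Nat.eq_or_lt_of_le hi with h | h
        · rw [← h, zz_top, hs2]
        · exact Nat.testBit_lt_two_pow (lt_of_lt_of_le (zz_lt p β b T x s)
            (Nat.pow_le_pow_right (by norm_num) (by omega)))
      have hy1 : 2 ^ (p + 1) ≤ zz p β b T y s := by
        apply Nat.ge_two_pow_of_testBit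
        rw [zz_top, hs3]
      exact lt_of_lt_of_le hx1 hy1
  · intro T s x hx
    have key : ∀ n : ℕ, ∃ ε > 0, ∀ y ∈ K, |y - x| < ε → ∀ r < n, β y r = β x r := by
      intro n
      induction n with
      | zero => exact ⟨1, one_pos, fun y _ _ r hr => absurd hr (Nat.not_lt_zero r)⟩
      | succ n ih =>
        obtain ⟨ε, hε, h⟩ := ih
        obtain ⟨ε', hε', h'⟩ := hβ2 n x hx
        refine ⟨min ε ε', lt_min hε hε', ?_⟩
        intro y hy hyx r hr
        rcases Nat.lt_succ_iff_lt_or_eq.mp hr with h1 | h1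
        · exact h y hy (lt_of_lt_of_le hyx (min_le_left _ _)) r h1
        · rw [h1]
          exact h' y hy (lt_of_lt_of_le hyx (min_le_right _ _))
    obtain ⟨ε, hε, h⟩ := key (s + 1)
    refine ⟨ε, hε, ?_⟩
    intro y hy hyx
    have h2 := h y hy hyx
    refine zz_congr p β b T T y x s s rfl (h2 s (Nat.lt_succ_self s)) ?_
    intro i _
    exact hb1 i y hy x hx s (fun r hr => h2 r (Nat.lt_succ_of_le hr))
  · intro T x hx
    have hdx := hd x hx
    unfold lev
    apply le_antisymm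
    · apply Nat.sInf_le
      rcases Nat.eq_or_lt_of_le hdx with h | h
      · exact Or.inl h
      · refine Or.inr ⟨h, ?_⟩
        have h3 := (hb2 (d x) x hx).mp ⟨hx, le_refl _⟩
        refine h3.subset ?_
        intro s hs
        have hs' : (zz p β b T x s).testBit (d x) = true := hs
        rw [zz_row p β b T x s (d x) h] at hs'
        exact hs'
    · have hmem := Nat.sInf_mem (s := {i | i = p ∨ (i < p ∧ {s | (zz p β b T x s).testBit i = true}.Finite)})
        ⟨p, Or.inl rfl⟩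
      rcases hmem with h | ⟨h, h'⟩
      · exact le_of_le_of_eq hdx h.symm
      · refine ((hb2 _ x hx).mpr (h'.subset ?_)).2
        intro s hs
        show (zz p β b T x s).testBit _ = true
        rw [zz_row p β b T x s _ h]
        exact hs
  · intro x hx hxM
    obtain ⟨s1, hs1⟩ := hβ3 x hx hxM
    have key : ∀ n : ℕ, ∃ s0, ∀ s ≥ s0, ∀ i < n, b i x (s + 1) = b i x s := by
      intro n
      induction n with
      | zero => exact ⟨0, fun s _ i hi => absurd hi (Nat.not_lt_zero i)⟩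
      | succ n ih =>
        obtain ⟨s0, h0⟩ := ih
        obtain ⟨s2, h2⟩ := hb3 n x hx hxM
        refine ⟨max s0 s2, ?_⟩
        intro s hs i hi
        rcases Nat.lt_succ_iff_lt_or_eq.mp hi with h1 | h1
        · exact h0 s (le_trans (le_max_left _ _) hs) i h1
        · rw [h1]
          exact h2 s (le_trans (le_max_right _ _) hs)
    obtain ⟨s0, h0⟩ := key p
    refine ⟨max s0 s1, ?_⟩
    intro s hs
    have hsa : s0 ≤ s := le_trans (le_max_left _ _) hs
    have hsb : s1 ≤ s := le_trans (le_max_right _ _) hs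
    refine zz_congr p β b (fun _ => false) (fun _ => false) x x (s + 2) s rfl (hs1 s hsb) ?_
    intro i hi
    have e1 := h0 s hsa i hi
    have e2 := h0 (s + 1) (le_trans hsa (Nat.le_succ s)) i hi
    exact e2.trans e1
  · intro T x _ s
    exact zz_p p β b T x s

end Pool.Agent.R135.WM
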