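import Pool.Agent.R135.WM.Stm

/-! piece COL: collapse the constancy intervals of a continuous function -/

set_option autoImplicit false

namespace Pool.Agent.R135.WM

open Set Topology

namespace COLaux

/-- running oscillation from `p` -/
noncomputable def M (k : ℝ → ℝ) (p x : ℝ) : ℝ :=
  sSup ((fun t => |k t - k p|) '' Icc p (max p x))

variable {k : ℝ → ℝ}

theorem M_cont (hk : Continuous k) (p : ℝ) : Continuous (M k p) := by
  have h1 : M k p = fun x => sSup ((fun τ => |k (p + τ * (max p x - p)) - k p|) '' Icc (0 : ℝ) 1) := by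
    funext x
    unfold M
    congr 1
    rw [← segment_eq_Icc (le_max_left p x), segment_eq_image', image_image]
    rfl
  rw [h1]
  refine IsCompact.continuous_sSup (f := fun x τ => |k (p + τ * (max p x - p)) - k p|)
    isCompact_Icc ?_
  show Continuous fun q : ℝ × ℝ => |k (p + q.2 * (max p q.1 - p)) - k p|
  fun_prop

theorem M_bdd (hk : Continuous k) (p x : ℝ) :
    BddAbove ((fun t => |k t - k p|) '' Icc p (max p x)) :=
  (isCompact_Icc.image (by fun_prop)).bddAbove

theorem M_ne (p x : ℝ) : ((fun t => |k t - k p|) '' Icc p (max p x)).Nonempty :=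
  ⟨_, p, ⟨le_rfl, le_max_left _ _⟩, rfl⟩

theorem M_mono (hk : Continuous k) (p : ℝ) : Monotone (M k p) := by
  intro x y hxy
  refine csSup_le_csSup (M_bdd hk p y) (M_ne p x) (image_mono (Icc_subset_Icc le_rfl ?_))
  exact max_le_max le_rfl hxy

theorem M_nonneg (hk : Continuous k) (p x : ℝ) : 0 ≤ M k p x := by
  refine le_csSup_of_le (M_bdd hk p x) ⟨p, ⟨le_rfl, le_max_left _ _⟩, rfl⟩ (abs_nonneg _)

theorem M_zero (p x : ℝ) (h : x ≤ p) : M k p x = 0 := by
  unfold M
  rw [max_eq_left h, Icc_self, image_singleton, csSup_singleton, sub_self, abs_zero]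

theorem M_le (hk : Continuous k) (p x t : ℝ) (h1 : p ≤ t) (h2 : t ≤ x) :
    |k t - k p| ≤ M k p x :=
  le_csSup (M_bdd hk p x) ⟨t, ⟨h1, h2.trans (le_max_right _ _)⟩, rfl⟩

/-- if `k` is constant on `[x,y]` the oscillations agree -/
theorem M_eq (hk : Continuous k) (p x y : ℝ) (hxy : x ≤ y) (h : ∀ z ∈ Icc x y, k z = k x) :
    M k p x = M k p y := by
  refine le_antisymm (M_mono hk p hxy) ?_
  refine csSup_le (M_ne p y) ?_
  rintro _ ⟨t, ⟨ht1, ht2⟩, rfl⟩
  show |k t - k p| ≤ _
  rcases le_total t x with htx | htx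
  · exact M_le hk p x t ht1 htx
  · rcases le_total p x with hpx | hpx
    · have hty : t ≤ y := by
        rwa [max_eq_right (hpx.trans hxy)] at ht2
      rw [h t ⟨htx, hty⟩]
      exact M_le hk p x x hpx le_rfl
    · rcases le_total p y with hpy | hpy
      · rw [max_eq_right hpy] at ht2
        rw [h t ⟨htx, ht2⟩, h p ⟨hpx, hpy⟩, sub_self, abs_zero]
        exact M_nonneg hk p x
      · rw [max_eq_left hpy] at ht2
        rw [le_antisymm ht2 ht1, sub_self, abs_zero]
        exact M_nonneg hk p x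

noncomputable def pp (i : ℕ) : ℝ := (((Denumerable.eqv ℚ).symm i : ℚ) : ℝ)

noncomputable def w (k : ℝ → ℝ) (x : ℝ) : ℝ := ∑' i : ℕ, (1 / 2 : ℝ) ^ i * min (M k (pp i) x) 1

theorem term_bound (hk : Continuous k) (i : ℕ) (x : ℝ) :
    ‖(1 / 2 : ℝ) ^ i * min (M k (pp i) x) 1‖ ≤ (1 / 2 : ℝ) ^ i := by
  have h0 : 0 ≤ min (M k (pp i) x) 1 := le_min (M_nonneg hk _ _) zero_le_one
  have h1 : (0 : ℝ) ≤ (1 / 2 : ℝ) ^ i := by positivity
  rw [Real.norm_of_nonneg (mul_nonneg h1 h0)]
  exact mul_le_of_le_one_right h1 (min_le_right _ _)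

theorem geo : Summable (fun i : ℕ => (1 / 2 : ℝ) ^ i) :=
  summable_geometric_of_lt_one (by norm_num) (by norm_num)

theorem w_sum (hk : Continuous k) (x : ℝ) :
    Summable (fun i : ℕ => (1 / 2 : ℝ) ^ i * min (M k (pp i) x) 1) :=
  Summable.of_norm_bounded geo (fun i => term_bound hk i x)

theorem w_cont (hk : Continuous k) : Continuous (w k) := by
  refine continuous_tsum (fun i => ?_) geo (fun i x => term_bound hk i x)
  exact continuous_const.mul ((M_cont hk _).min continuous_const)

theorem term_mono (hk : Continuous k) (i : ℕ) {x y : ℝ} (h : x ≤ y) :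
    (1 / 2 : ℝ) ^ i * min (M k (pp i) x) 1 ≤ (1 / 2 : ℝ) ^ i * min (M k (pp i) y) 1 :=
  mul_le_mul_of_nonneg_left (min_le_min_right _ (M_mono hk _ h)) (by positivity)

theorem w_mono (hk : Continuous k) : Monotone (w k) := fun _ _ h =>
  Summable.tsum_le_tsum (fun i => term_mono hk i h) (w_sum hk _) (w_sum hk _)

theorem w_eq (hk : Continuous k) {x y : ℝ} (hxy : x ≤ y) (h : ∀ z ∈ Icc x y, k z = k x) :
    w k x = w k y := by
  unfold w
  congr 1
  funext i
  rw [M_eq hk (pp i) x y hxy h]

/-- if `w` agrees at `x` and `y` then `k` is constant in between -/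
theorem const_of_w (hk : Continuous k) {x y : ℝ} (hxy : x ≤ y) (h : w k x = w k y) :
    ∀ z ∈ Icc x y, k z = k y := by
  have hterm : ∀ i, (1 / 2 : ℝ) ^ i * min (M k (pp i) x) 1 =
      (1 / 2 : ℝ) ^ i * min (M k (pp i) y) 1 := by
    intro i
    by_contra hne
    have hlt := lt_of_le_of_ne (term_mono hk i hxy) hne
    have := Summable.tsum_lt_tsum (fun j => term_mono hk j hxy) hlt (w_sum hk x) (w_sum hk y)
    exact absurd h (ne_of_lt this)
  have hrat : ∀ q : ℚ, x < q → (q : ℝ) < y → k q = k y := by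
    intro q h1 h2
    have h3 := hterm (Denumerable.eqv ℚ q)
    have h4 : pp (Denumerable.eqv ℚ q) = q := by simp [pp]
    rw [h4, M_zero (q : ℝ) x h1.le] at h3
    have h5 : (0 : ℝ) < (1 / 2 : ℝ) ^ (Denumerable.eqv ℚ q) := by positivity
    have h6 : min (M k q y) 1 = 0 := by
      have := mul_left_cancel₀ h5.ne' h3
      rw [← this]
      simp
    have h7 : M k q y = 0 := by
      rcases min_choice (M k q y) 1 with h | h
      · rwa [h] at h6
      · rw [h] at h6; norm_num at h6
    have h8 := M_le hk q y y h2.le le_rfl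
    rw [h7] at h8
    have h9 := abs_nonpos_iff.1 h8
    linarith
  rcases eq_or_lt_of_le hxy with he | hlt
  · intro z hz
    have : z = y := le_antisymm hz.2 (he ▸ hz.1)
    rw [this]
  · have hclosed : IsClosed {z | k z = k y} := isClosed_eq hk continuous_const
    have hsub : Icc x y ⊆ closure {z | k z = k y} := by
      rw [← closure_Ioo hlt.ne]
      refine closure_minimal ?_ isClosed_closure
      intro z hz
      rw [Metric.mem_closure_iff]
      intro ε hε
      obtain ⟨q, hq1, hq2⟩ := exists_rat_btwn (show max x (z - ε) < z from max_lt hz.1 (by linarith))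
      refine ⟨q, hrat q ((le_max_left _ _).trans_lt hq1) (hq2.trans hz.2), ?_⟩
      rw [Real.dist_eq, abs_of_pos (by linarith)]
      have := (le_max_right x (z - ε)).trans_lt hq1
      linarith
    rw [hclosed.closure_eq] at hsub
    exact hsub

end COLaux

open COLaux in
theorem col : StmCOL := by
  classical
  intro k a b hk hab hne
  have hwab : w k a < w k b := by
    refine lt_of_le_of_ne (w_mono hk hab.le) fun h => hne ?_
    exact const_of_w hk hab.le h a ⟨le_rfl, hab.le⟩
  set D := w k b - w k a with hD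
  have hDpos : 0 < D := by rw [hD]; linarith
  let W : ℝ → ℝ := fun x => (w k x - w k a) / D
  have hWc : Continuous W := ((w_cont hk).sub continuous_const).div_const _
  have hWm : Monotone W := fun x y h => by
    show (w k x - w k a) / D ≤ (w k y - w k a) / D
    have := w_mono hk h
    gcongr
  have hWa : W a = 0 := by show (w k a - w k a) / D = 0; simp
  have hWb : W b = 1 := by show (w k b - w k a) / D = 1; exact div_self hDpos.ne'
  have hWw : ∀ x y, W x = W y → w k x = w k y := by
    intro x y h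
    have h1 : (w k x - w k a) / D = (w k y - w k a) / D := h
    rw [div_left_inj' hDpos.ne'] at h1
    linarith
  have hWk : ∀ x y, W x = W y → k x = k y := by
    intro x y h
    rcases le_total x y with h1 | h1
    · exact const_of_w hk h1 (hWw x y h) x ⟨le_rfl, h1⟩
    · exact (const_of_w hk h1 (hWw y x h.symm) y ⟨le_rfl, h1⟩).symm
  have hsurj : ∀ y ∈ Icc (0 : ℝ) 1, ∃ x ∈ Icc a b, W x = y := by
    intro y hy
    have := intermediate_value_Icc hab.le hWc.continuousOn
    rw [hWa, hWb] at this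
    exact this hy
  choose! g hg1 hg2 using hsurj
  have hmem : ∀ x ∈ Icc a b, W x ∈ Icc (0 : ℝ) 1 := by
    intro x hx
    exact ⟨hWa ▸ hWm hx.1, hWb ▸ hWm hx.2⟩
  have hkb : ∀ x ∈ Icc a b, k (g (W x)) = k x := fun x hx => hWk _ _ (hg2 _ (hmem x hx))
  refine ⟨W, fun y => k (g y), hWc.continuousOn, hWm.monotoneOn _, hWa, hWb, ?_, hkb, ?_, ?_⟩
  · rw [continuousOn_iff_isClosed]
    intro t ht
    refine ⟨W '' (Icc a b ∩ k ⁻¹' t), ?_, ?_⟩
    · exact ((isCompact_Icc.inter_right (ht.preimage hk)).image hWc).isClosed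
    · ext y
      constructor
      · rintro ⟨h1, h2⟩
        exact ⟨⟨g y, ⟨hg1 y h2, h1⟩, hg2 y h2⟩, h2⟩
      · rintro ⟨⟨x, ⟨h1, h2⟩, rfl⟩, h3⟩
        refine ⟨?_, h3⟩
        show k (g (W x)) ∈ t
        rw [hkb x h1]
        exact h2
  · intro u v hu huv hv
    by_contra hcon
    push Not at hcon
    obtain ⟨s, hs1, hs2⟩ := exists_between huv
    obtain ⟨t, ht1, ht2⟩ := exists_between hs2
    have hs0 : s ∈ Icc (0 : ℝ) 1 := ⟨by linarith, by linarith⟩
    have ht0 : t ∈ Icc (0 : ℝ) 1 := ⟨by linarith, by linarith⟩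
    have hlt : g s < g t := by
      by_contra hge
      push Not at hge
      have := hWm hge
      rw [hg2 s hs0, hg2 t ht0] at this
      linarith
    have hconst : ∀ z ∈ Icc (g s) (g t), k z = k (g s) := by
      intro z hz
      have hzab : z ∈ Icc a b := ⟨(hg1 s hs0).1.trans hz.1, hz.2.trans (hg1 t ht0).2⟩
      have h1 : s ≤ W z := by
        have := hWm hz.1
        rwa [hg2 s hs0] at this
      have h2 : W z ≤ t := by
        have := hWm hz.2
        rwa [hg2 t ht0] at this
      rcases eq_or_lt_of_le h1 with h3 | h3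
      · rw [← hkb z hzab, ← h3]
      · have h4 := hcon s (W z) ⟨hs1, by linarith⟩ ⟨by linarith, by linarith⟩ h3
        rw [← hkb z hzab]
        exact h4.symm
    have h5 := w_eq hk hlt.le hconst
    have h6 : W (g s) = W (g t) := by
      show (w k (g s) - w k a) / D = (w k (g t) - w k a) / D
      rw [h5]
    rw [hg2 s hs0, hg2 t ht0] at h6
    linarith
  · have : Fib W a b ⊆ range (fun q : ℚ => W q) := by
      rintro y ⟨s, t, hs, ht, hst, h1, h2⟩
      obtain ⟨q, hq1, hq2⟩ := exists_rat_btwn hst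
      refine ⟨q, le_antisymm ?_ ?_⟩
      · rw [← h2]; exact hWm hq2.le
      · rw [← h1]; exact hWm hq1.le
    exact (countable_range _).mono this

end Pool.Agent.R135.WM
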