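import Pool.Agent.R135.WM.Stm

/-! Piece FIN of project WM (MP_fd8bd4_lc). -/

namespace Pool.Agent.R135.WM

open Set Topology

theorem FS.preimage_cont {S : Set ℝ} (h : FS S) {f : ℝ → ℝ} (hf : Continuous f) : FS (f ⁻¹' S) := by
  obtain ⟨E, hE, rfl⟩ := h
  exact ⟨fun m => f ⁻¹' E m, fun m => (hE m).preimage hf, by rw [preimage_iUnion]⟩

theorem fin : StmFIN := by
  intro hstd hblow hmain hnoc hneq
  choose c Q κ hS using fun n : ℕ => hstd (2 * n)
  choose π hπ using fun n : ℕ => hblow (Q n) (hS n).ctb (hS n).qsub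
  have key : ∀ n m : ℕ, m < n → ¬ WRed (X (c n) (π n)) (X (c m) (π m)) := by
    rintro n m hmn ⟨f, hf, he⟩
    have h3 := (hnoc _ _ _ _ _ (hS m) (hπ m)).2.2
    obtain ⟨t, ht⟩ := hneq _ _ _ _ _ (hS n) (hπ n) (fun t => c m (π m (f t)))
      (fun i => (h3 i).preimage_cont hf) (fun t => by
        have h4 : t ∈ X (c n) (π n) ↔ t ∈ f ⁻¹' X (c m) (π m) := by rw [← he]
        exact h4.symm)
    have h5 := (hS m).top (π m (f t))
    have h6 : 2 * n ≤ 2 * m + 1 := le_trans ht h5
    omega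
  refine ⟨fun n => X (c n) (π n), fun n => ?_, fun n m hnm => ?_⟩
  · obtain ⟨h1, h2, h3⟩ := hnoc _ _ _ _ _ (hS n) (hπ n)
    refine ⟨h2, h1, ?_⟩
    rintro B - hB ⟨f, hf, rfl⟩
    refine hmain _ _ _ _ _ (hS n) (hπ n) f hf ?_ ?_
    · by_contra hne
      push Not at hne
      apply hB.1
      have : f ⁻¹' X (c n) (π n) = ∅ := by
        ext t; simpa using hne t
      rw [this]; exact isOpen_empty
    · by_contra hne
      push Not at hne
      apply hB.1
      have : f ⁻¹' X (c n) (π n) = univ := by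
        ext t; simpa using hne t
      rw [this]; exact isOpen_univ
  · rintro ⟨h1, h2⟩
    rcases lt_or_gt_of_ne hnm with h | h
    · exact key m n h h2
    · exact key n m h h1

end Pool.Agent.R135.WM
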