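import Pool.Agent.R135.WM.Stm

namespace Pool.Agent.R135.WM

open Set Topology

theorem gap_seq {u v : ℝ} (h : u < v) : ∃ a : ℤ → ℝ, StrictMono a ∧ (∀ m, u < a m ∧ a m < v) ∧
    ∀ y, u < y → y < v → ∃ m : ℤ, a m ≤ y ∧ y < a (m + 1) := by
  have hpi := Real.pi_pos
  have hd : 0 < v - u := by linarith
  refine ⟨fun m => u + (v - u) * (1 / 2 + Real.arctan m / Real.pi), ?_, ?_, ?_⟩
  · intro m n hmn
    have h1 : Real.arctan (m : ℝ) < Real.arctan (n : ℝ) :=
      Real.arctan_strictMono (by exact_mod_cast hmn)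
    have h2 : Real.arctan (m : ℝ) / Real.pi < Real.arctan (n : ℝ) / Real.pi :=
      div_lt_div_of_pos_right h1 hpi
    simp only
    have := mul_lt_mul_of_pos_left (add_lt_add_right h2 (1 / 2)) hd
    linarith
  · intro m
    have h1 := Real.arctan_lt_pi_div_two (m : ℝ)
    have h2 := Real.neg_pi_div_two_lt_arctan (m : ℝ)
    have h3 : Real.arctan (m : ℝ) / Real.pi < 1 / 2 := by
      rw [div_lt_iff₀ hpi]; linarith
    have h4 : -(1 / 2) < Real.arctan (m : ℝ) / Real.pi := by
      rw [lt_div_iff₀ hpi]; linarith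
    simp only
    constructor
    · have : 0 < (v - u) * (1 / 2 + Real.arctan m / Real.pi) := mul_pos hd (by linarith)
      linarith
    · have : (v - u) * (1 / 2 + Real.arctan m / Real.pi) < (v - u) * 1 :=
        mul_lt_mul_of_pos_left (by linarith) hd
      linarith
  · intro y hy1 hy2
    set w := (y - u) / (v - u) with hw
    have hw0 : 0 < w := div_pos (by linarith) hd
    have hw1 : w < 1 := by rw [hw, div_lt_one hd]; linarith
    have hyw : y = u + (v - u) * w := by rw [hw]; field_simp; ring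
    set θ := Real.pi * (w - 1 / 2) with hθ
    have hθ1 : θ < Real.pi / 2 := by rw [hθ]; nlinarith
    have hθ2 : -(Real.pi / 2) < θ := by rw [hθ]; nlinarith
    have hat : Real.arctan (Real.tan θ) = θ := Real.arctan_tan hθ2 hθ1
    refine ⟨⌊Real.tan θ⌋, ?_, ?_⟩
    · have h1 : ((⌊Real.tan θ⌋ : ℤ) : ℝ) ≤ Real.tan θ := Int.floor_le _
      have h2 := Real.arctan_strictMono.monotone h1
      rw [hat] at h2
      have h3 : Real.arctan ((⌊Real.tan θ⌋ : ℤ) : ℝ) / Real.pi ≤ w - 1 / 2 := by
        rw [div_le_iff₀ hpi]; linarith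
      simp only
      have := mul_le_mul_of_nonneg_left h3 hd.le
      rw [hyw]
      nlinarith
    · have h1 : Real.tan θ < ((⌊Real.tan θ⌋ + 1 : ℤ) : ℝ) := by
        push_cast; exact Int.lt_floor_add_one _
      have h2 := Real.arctan_strictMono h1
      rw [hat] at h2
      have h3 : w - 1 / 2 < Real.arctan ((⌊Real.tan θ⌋ + 1 : ℤ) : ℝ) / Real.pi := by
        rw [lt_div_iff₀ hpi]; linarith
      simp only
      have := mul_lt_mul_of_pos_left h3 hd
      rw [hyw]
      nlinarith

theorem gap_dense {K : Set ℝ} (hK : interior K = ∅) {a b : ℝ} (h : a < b) :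
    ∃ r, a < r ∧ r < b ∧ r ∉ K := by
  by_contra hc
  push Not at hc
  have h1 : Ioo a b ⊆ K := fun r hr => hc r hr.1 hr.2
  have h2 : Ioo a b ⊆ interior K := interior_maximal h1 isOpen_Ioo
  rw [hK] at h2
  exact h2 (show (a + b) / 2 ∈ Ioo a b from ⟨by linarith, by linarith⟩)

theorem gap : StmGAP := by
  intro R K u v u' v' hKc hKi huv huv' hemb
  obtain ⟨a, ha1, ha2, ha3⟩ := gap_seq huv
  obtain ⟨s, hs1, hs2, hs3⟩ := gap_seq huv'
  choose r hr1 hr2 hr3 using fun m : ℤ => gap_dense hKi (ha1 (lt_add_one m))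
  have hrmono : StrictMono r := by
    apply strictMono_int_of_lt_succ
    intro m
    exact (hr2 m).trans (hr1 (m + 1))
  have hemb' : ∀ m : ℤ, ∃ ψ, Emb (K ∩ Icc (r m) (r (m + 1))) (s m) (s (m + 1)) ψ ∧
      ∀ x ∈ K ∩ Icc (r m) (r (m + 1)), R x (ψ x) := fun m =>
    hemb _ inter_subset_left (hKc.inter_right isClosed_Icc) _ _ (hs2 m).1.le
      (hs1 (lt_add_one m)) (hs2 (m + 1)).2.le
  choose ψ hψ hψR using hemb'
  have hcell : ∀ x ∈ K, ∀ m, x ∈ Icc (r m) (r (m + 1)) → r m < x ∧ x < r (m + 1) := by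
    intro x hx m hm
    constructor
    · exact lt_of_le_of_ne hm.1 (fun h => hr3 m (h ▸ hx))
    · exact lt_of_le_of_ne hm.2 (fun h => hr3 (m + 1) (h ▸ hx))
  set C : ℤ → Set ℝ := fun m => ψ m '' (K ∩ Icc (r m) (r (m + 1))) with hC
  have hCc : ∀ m, IsCompact (C m) := fun m =>
    (hKc.inter_right isClosed_Icc).image_of_continuousOn (hψ m).2.1
  have hCs : ∀ m, C m ⊆ Ioo (s m) (s (m + 1)) := fun m => (hψ m).2.2.image_subset
  refine ⟨{g | ∃ m : ℤ, g.1 ∈ K ∩ Icc (r m) (r (m + 1)) ∧ g.2 = ψ m g.1}, ?_, ?_, ?_, ?_, ?_⟩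
  · ext x
    constructor
    · rintro ⟨g, ⟨m, hg, _⟩, rfl⟩
      refine ⟨hg.1, ?_, ?_⟩
      · have := (ha2 m).1
        have := hr1 m
        have := hg.2.1
        linarith
      · have := (ha2 (m + 1 + 1)).2
        have := hr2 (m + 1)
        have := hg.2.2
        linarith
    · rintro ⟨hxK, hx1, hx2⟩
      obtain ⟨m, hm1, hm2⟩ := ha3 x hx1 hx2
      rcases le_or_gt (r m) x with h | h
      · refine ⟨(x, ψ m x), ⟨m, ⟨hxK, h, ?_⟩, rfl⟩, rfl⟩
        exact (hm2.trans (hr1 (m + 1))).le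
      · refine ⟨(x, ψ (m - 1) x), ⟨m - 1, ⟨hxK, ?_, ?_⟩, rfl⟩, rfl⟩
        · have h1 := hr2 (m - 1)
          rw [sub_add_cancel] at h1
          linarith
        · show x ≤ r (m - 1 + 1)
          rw [sub_add_cancel]
          exact h.le
  · rintro g ⟨m, hg, hg2⟩
    rw [hg2]
    have h1 := (hψ m).2.2 hg
    exact ⟨(hs2 m).1.trans h1.1, h1.2.trans (hs2 (m + 1)).2⟩
  · rintro g ⟨m, hg, hg2⟩ h ⟨n, hh, hh2⟩
    rw [hg2, hh2]
    have g1 := (hψ m).2.2 hg
    have g2 := (hψ n).2.2 hh
    have c1 := hcell g.1 hg.1 m hg.2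
    have c2 := hcell h.1 hh.1 n hh.2
    rcases lt_trichotomy m n with hmn | hmn | hmn
    · have e1 : r (m + 1) ≤ r n := hrmono.monotone (by omega)
      have e2 : s (m + 1) ≤ s n := hs1.monotone (by omega)
      constructor
      · intro _
        exact g1.2.trans (lt_of_le_of_lt e2 g2.1)
      · intro _
        exact c1.2.trans (lt_of_le_of_lt e1 c2.1)
    · subst hmn
      exact ((hψ m).1.lt_iff_lt hg hh).symm
    · have e1 : r (n + 1) ≤ r m := hrmono.monotone (by omega)
      have e2 : s (n + 1) ≤ s m := hs1.monotone (by omega)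
      constructor
      · intro h3
        exact absurd h3 (not_lt.2 (c2.2.le.trans (e1.trans c1.1.le)))
      · intro h3
        exact absurd h3 (not_lt.2 (g2.2.le.trans (e2.trans g1.1.le)))
  · have hsnd : Prod.snd '' {g : ℝ × ℝ | ∃ m : ℤ, g.1 ∈ K ∩ Icc (r m) (r (m + 1)) ∧
        g.2 = ψ m g.1} = ⋃ m, C m := by
      ext y
      simp only [mem_image, mem_setOf_eq, mem_iUnion]
      constructor
      · rintro ⟨g, ⟨m, hg, hg2⟩, rfl⟩
        exact ⟨m, g.1, hg, hg2.symm⟩
      · rintro ⟨m, x, hx, rfl⟩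
        exact ⟨(x, ψ m x), ⟨m, hx, rfl⟩, rfl⟩
    rw [hsnd, ← isOpen_compl_iff, isOpen_iff_mem_nhds]
    intro y hy
    simp only [mem_compl_iff, mem_union, mem_iUnion, mem_insert_iff, mem_singleton_iff,
      not_or, not_exists] at hy
    obtain ⟨hy1, hy2, hy3⟩ := hy
    have hout : ∀ z, (z < u' ∨ v' < z) → z ∈ ((⋃ m, C m) ∪ {u', v'})ᶜ := by
      intro z hz
      simp only [mem_compl_iff, mem_union, mem_iUnion, mem_insert_iff, mem_singleton_iff,
        not_or, not_exists]
      refine ⟨?_, ?_, ?_⟩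
      · intro m hm
        have h1 := hCs m hm
        have h2 := (hs2 m).1
        have h3 := (hs2 (m + 1)).2
        rcases hz with hz | hz
        · linarith [h1.1]
        · linarith [h1.2]
      · rcases hz with hz | hz
        · exact hz.ne
        · exact (huv'.trans hz).ne'
      · rcases hz with hz | hz
        · exact (hz.trans huv').ne
        · exact hz.ne'
    rcases lt_trichotomy y u' with h | h | h
    · exact Filter.mem_of_superset (Iio_mem_nhds h) (fun z hz => hout z (Or.inl hz))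
    · exact absurd h hy2
    · rcases lt_trichotomy y v' with h' | h' | h'
      · obtain ⟨m, hm1, hm2⟩ := hs3 y h h'
        have hU : IsOpen (Ioo (s (m - 1)) (s (m + 1)) ∩ (C (m - 1) ∪ C m)ᶜ) :=
          isOpen_Ioo.inter ((hCc (m - 1)).union (hCc m)).isClosed.isOpen_compl
        have hyU : y ∈ Ioo (s (m - 1)) (s (m + 1)) ∩ (C (m - 1) ∪ C m)ᶜ := by
          refine ⟨⟨lt_of_lt_of_le (hs1 (by omega)) hm1, hm2⟩, ?_⟩
          rintro (h3 | h3)
          · exact hy1 _ h3
          · exact hy1 _ h3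
        refine Filter.mem_of_superset (hU.mem_nhds hyU) ?_
        rintro z ⟨⟨hz1, hz2⟩, hz3⟩
        simp only [mem_compl_iff, mem_union, mem_iUnion, mem_insert_iff, mem_singleton_iff,
          not_or, not_exists] at hz3 ⊢
        refine ⟨?_, ?_, ?_⟩
        · intro n hn
          have h4 := hCs n hn
          have h5 : n < m + 1 := by
            by_contra hc
            have : s (m + 1) ≤ s n := hs1.monotone (by omega)
            linarith [h4.1]
          have h6 : m - 1 < n + 1 := by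
            by_contra hc
            have : s (n + 1) ≤ s (m - 1) := hs1.monotone (by omega)
            linarith [h4.2]
          have h7 : n = m - 1 ∨ n = m := by omega
          rcases h7 with rfl | rfl
          · exact hz3.1 hn
          · exact hz3.2 hn
        · exact ((hs2 _).1.trans hz1).ne'
        · exact (hz2.trans (hs2 _).2).ne
      · exact absurd h' hy3
      · exact Filter.mem_of_superset (Ioi_mem_nhds h') (fun z hz => hout z (Or.inr hz))
  · rintro g ⟨m, hg, hg2⟩
    rw [hg2]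
    exact hψR m _ hg

end Pool.Agent.R135.WM
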