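import Pool.Agent.R135.WM.Stm

/-! WM-HB: back embedding (helper964) -/

set_option autoImplicit false

namespace Pool.Agent.R135.WM

open Set Topology

theorem hb : StmHB := by
  intro p c Q κ hS kb Q' hkb hmaps hNC hQ' K0 hK0 hK01 hcase u v hu huv hv
  rcases hcase with ⟨j, hj⟩ | ⟨q, rfl, hq⟩
  · have hint : interior K0 = ∅ := by
      by_contra hne
      obtain ⟨x, hx⟩ := nonempty_iff_ne_empty.2 hne
      obtain ⟨ε, hε, hball⟩ := Metric.mem_nhds_iff.1 (mem_interior_iff_mem_nhds.1 hx)
      have hsub : ∀ z, |z - x| < ε → z ∈ K0 := by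
        intro z hz
        apply hball
        rw [Metric.mem_ball, Real.dist_eq]
        exact hz
      have ha : x - ε / 2 ∈ K0 := hsub _ (by
        rw [show x - ε / 2 - x = -(ε / 2) by ring, abs_neg, abs_of_pos (by linarith)]
        linarith)
      have hb : x + ε / 2 ∈ K0 := hsub _ (by
        rw [show x + ε / 2 - x = ε / 2 by ring, abs_of_pos (by linarith)]
        linarith)
      obtain ⟨s, t, hs, ht, hst, hne'⟩ := hNC (x - ε / 2) (x + ε / 2) (hK01 ha).1 (by linarith)
        (hK01 hb).2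
      have hsubst : uIcc s t ⊆ K0 := by
        rw [uIcc_of_le hst.le]
        intro z hz
        apply hsub
        rw [abs_lt]
        have h1 := hs.1
        have h2 := ht.2
        have h3 := hz.1
        have h4 := hz.2
        constructor <;> linarith
      have h1 : uIcc (kb s) (kb t) ⊆ κ j := by
        refine (intermediate_value_uIcc (hkb.mono (hsubst.trans hK01))).trans ?_
        rintro _ ⟨z, hz, rfl⟩
        exact hj z (hsubst hz)
      have h2 : Ioo (min (kb s) (kb t)) (max (kb s) (kb t)) ⊆ interior (κ j) :=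
        interior_maximal (Ioo_subset_Icc_self.trans h1) isOpen_Ioo
      rw [hS.int j] at h2
      have h3 : (Ioo (min (kb s) (kb t)) (max (kb s) (kb t))).Nonempty :=
        nonempty_Ioo.2 (min_lt_max.2 hne')
      exact (h3.mono h2).ne_empty rfl
    have hd : ∀ x ∈ K0, (fun y => c (kb y)) x ≤ p := fun x hx => (hS.lev _).2 ⟨j, hj x hx⟩
    have hFS : ∀ i, FS {x | x ∈ K0 ∧ (fun y => c (kb y)) x ≤ i} := by
      intro i
      obtain ⟨E, hE, hEU⟩ := hS.sig j i
      refine ⟨fun m => K0 ∩ kb ⁻¹' (E m), fun m => ?_, ?_⟩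
      · exact (hkb.mono hK01).preimage_isClosed_of_isClosed hK0.isClosed (hE m)
      · ext x
        constructor
        · intro hx
          rw [mem_iUnion] at hx
          obtain ⟨m, hx1, hx2⟩ := hx
          have h1 : kb x ∈ ⋃ m, E m := mem_iUnion.2 ⟨m, hx2⟩
          rw [hEU] at h1
          exact ⟨hx1, h1.2⟩
        · intro hx
          have h1 : kb x ∈ {x | x ∈ κ j ∧ c x ≤ i} := ⟨hj x hx.1, hx.2⟩
          rw [← hEU, mem_iUnion] at h1
          obtain ⟨m, hm⟩ := h1
          exact mem_iUnion.2 ⟨m, hx.1, hm⟩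
    obtain ⟨ψ, hψ, hψ1, hψ2⟩ := hS.UB K0 (fun y => c (kb y)) Q' hK0 hint hQ' hd hFS u v hu huv hv
    exact ⟨ψ, hψ, fun y hy => ⟨hψ1 y hy, hψ2 y hy⟩⟩
  · obtain ⟨q', hq', hq1, hq2⟩ := hS.qtop u v hu huv hv
    refine ⟨fun _ => q', ⟨?_, continuousOn_const, fun _ _ => hq1⟩, ?_⟩
    · intro a ha b hb hab
      rw [mem_singleton_iff] at ha hb
      rw [ha, hb] at hab
      exact absurd hab (lt_irrefl _)
    · intro y hy
      rw [mem_singleton_iff] at hy
      subst hy
      exact ⟨by rw [hq2, hq], fun _ => hq'⟩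

end Pool.Agent.R135.WM
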