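import Pool.Agent.R135.WM.Stm

/-! HF: forth embedding (piece of MP_fd8bd4_lc). -/

set_option autoImplicit false

namespace Pool.Agent.R135.WM

open Set Topology

namespace HFaux

theorem FS_inter {S K : Set ℝ} (h : FS S) (hK : IsClosed K) : FS (S ∩ K) := by
  obtain ⟨E, hE, hS⟩ := h
  refine ⟨fun m => E m ∩ K, fun m => (hE m).inter hK, ?_⟩
  rw [← hS, iUnion_inter]

theorem FS_preimage {S : Set ℝ} (h : FS S) {f : ℝ → ℝ} (hf : Continuous f) : FS (f ⁻¹' S) := by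
  obtain ⟨E, hE, hS⟩ := h
  refine ⟨fun m => f ⁻¹' E m, fun m => (hE m).preimage hf, ?_⟩
  rw [← hS, preimage_iUnion]

end HFaux

open HFaux

theorem hf : StmHF := by
  intro hHIT p c Q κ hS kb Q' hkc hkm hNC hQ' j K0 hK0 hK0c u v hu huv hv
  obtain ⟨s, t, hs, ht, hst, hne⟩ := hNC u v hu huv hv
  have hs01 : s ∈ Icc (0 : ℝ) 1 := ⟨hu.trans hs.1.le, hs.2.le.trans hv⟩
  have ht01 : t ∈ Icc (0 : ℝ) 1 := ⟨hu.trans ht.1.le, ht.2.le.trans hv⟩
  have hsub : Icc s t ⊆ Icc (0 : ℝ) 1 := Icc_subset_Icc hs01.1 ht01.2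
  have hint : interior K0 = ∅ := by
    have h := interior_mono hK0
    rw [hS.int j] at h
    exact subset_empty_iff.mp h
  have hlev : ∀ x ∈ K0, c x ≤ p := fun x hx => (hS.lev x).mpr ⟨j, hK0 hx⟩
  have hFS : ∀ i, FS {x | x ∈ K0 ∧ c x ≤ i} := by
    intro i
    have h := FS_inter (hS.sig j i) hK0c.isClosed
    have e : {x | x ∈ κ j ∧ c x ≤ i} ∩ K0 = {x | x ∈ K0 ∧ c x ≤ i} := by
      ext x
      constructor
      · rintro ⟨⟨_, h2⟩, h3⟩; exact ⟨h3, h2⟩
      · rintro ⟨h1, h2⟩; exact ⟨⟨hK0 h1, h2⟩, h1⟩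
    rwa [e] at h
  have hQi : (kb '' (Q' ∩ Icc 0 1)).Countable := (hQ'.mono inter_subset_left).image kb
  rcases lt_or_gt_of_ne hne with hlt | hlt
  · obtain ⟨g, D, hD, hg, hgm, hgc⟩ := hHIT kb s t (hkc.mono hsub) hst hlt
    obtain ⟨ψ, ⟨hψm, hψc, hψi⟩, hψ1, hψ2⟩ := hS.UF K0 c (D ∪ kb '' (Q' ∩ Icc 0 1)) hK0c hint
      (hD.union hQi) hlev hFS (kb s) (kb t) (hkm hs01).1 hlt (hkm ht01).2
    refine ⟨fun x => g (ψ x), ⟨?_, ?_, ?_⟩, ?_⟩
    · intro x hx y hy hxy
      exact hgm (hψi hx) (hψi hy) (hψm hx hy hxy)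
    · intro x hx
      have h1 : ContinuousAt g (ψ x) := hgc _ (hψi hx) fun h => hψ2 x hx (Or.inl h)
      exact h1.comp_continuousWithinAt (hψc x hx)
    · intro x hx
      have h1 := (hg _ (hψi hx)).1
      exact ⟨hs.1.trans h1.1, h1.2.trans ht.2⟩
    · intro x hx
      have h1 := hg _ (hψi hx)
      refine ⟨?_, ?_⟩
      · change c x = c (kb (g (ψ x)))
        rw [h1.2, hψ1 x hx]
      · intro h
        apply hψ2 x hx
        exact Or.inr ⟨g (ψ x), ⟨h, hsub ⟨h1.1.1.le, h1.1.2.le⟩⟩, h1.2⟩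
  · have hmap : MapsTo (fun x => s + t - x) (Icc s t) (Icc s t) := by
      intro x hx
      exact ⟨by linarith [hx.2], by linarith [hx.1]⟩
    have hk1 : ContinuousOn (fun x => kb (s + t - x)) (Icc s t) :=
      (hkc.mono hsub).comp (by fun_prop) hmap
    obtain ⟨g, D, hD, hg, hgm, hgc⟩ := hHIT (fun x => kb (s + t - x)) s t hk1 hst
      (by simpa using hlt)
    have e1 : s + t - s = t := by ring
    have e2 : s + t - t = s := by ring
    simp only [e1, e2] at hg hgm hgc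
    have hc1 : IsCompact ((fun x : ℝ => -x) ⁻¹' K0) := by
      have := (Homeomorph.neg ℝ).isCompact_preimage.mpr hK0c
      exact this
    have hi1 : interior ((fun x : ℝ => -x) ⁻¹' K0) = ∅ := by
      have := (Homeomorph.neg ℝ).preimage_interior K0
      rw [hint, preimage_empty] at this
      exact this.symm
    obtain ⟨ψ, ⟨hψm, hψc, hψi⟩, hψ1, hψ2⟩ := hS.UF ((fun x : ℝ => -x) ⁻¹' K0) (fun x => c (-x))
      (D ∪ kb '' (Q' ∩ Icc 0 1)) hc1 hi1 (hD.union hQi) (fun x hx => hlev _ hx)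
      (fun i => FS_preimage (hFS i) continuous_neg) (kb t) (kb s) (hkm ht01).1 hlt (hkm hs01).2
    have hmem : ∀ x ∈ K0, -x ∈ (fun x : ℝ => -x) ⁻¹' K0 := fun x hx => by
      change - -x ∈ K0
      rwa [neg_neg]
    refine ⟨fun x => s + t - g (ψ (-x)), ⟨?_, ?_, ?_⟩, ?_⟩
    · intro x hx y hy hxy
      have h1 := hgm (hψi (hmem y hy)) (hψi (hmem x hx))
        (hψm (hmem y hy) (hmem x hx) (neg_lt_neg hxy))
      change s + t - g (ψ (-x)) < s + t - g (ψ (-y))
      linarith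
    · intro x hx
      have h1 : ContinuousAt g (ψ (-x)) :=
        hgc _ (hψi (hmem x hx)) fun h => hψ2 _ (hmem x hx) (Or.inl h)
      have h2 : ContinuousWithinAt (fun x : ℝ => ψ (-x)) K0 x :=
        ContinuousWithinAt.comp (t := (fun x : ℝ => -x) ⁻¹' K0) (hψc _ (hmem x hx))
          continuous_neg.continuousWithinAt hmem
      have h3 : ContinuousWithinAt (fun x : ℝ => g (ψ (-x))) K0 x :=
        ContinuousAt.comp_continuousWithinAt (g := g) (f := fun x : ℝ => ψ (-x)) h1 h2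
      exact continuousWithinAt_const.sub h3
    · intro x hx
      have h1 := (hg _ (hψi (hmem x hx))).1
      exact ⟨by linarith [h1.2, hs.1], by linarith [h1.1, ht.2]⟩
    · intro x hx
      have h1 := hg _ (hψi (hmem x hx))
      refine ⟨?_, ?_⟩
      · change c x = c (kb (s + t - g (ψ (-x))))
        rw [h1.2, hψ1 _ (hmem x hx), neg_neg]
      · intro h
        apply hψ2 _ (hmem x hx)
        refine Or.inr ⟨s + t - g (ψ (-x)), ⟨h, hsub ⟨?_, ?_⟩⟩, h1.2⟩
        · linarith [h1.1.2]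
        · linarith [h1.1.1]

end Pool.Agent.R135.WM
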