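import Pool.Agent.R135.WM.Stm

/-! WM-HIT: first hitting map (helper964) -/

set_option autoImplicit false

namespace Pool.Agent.R135.WM

open Set Topology

theorem hit : StmHIT := by
  intro k s t hk hst hks
  have hcl : ∀ y : ℝ, IsCompact {x | x ∈ Icc s t ∧ k x = y} := by
    intro y
    have h1 : {x | x ∈ Icc s t ∧ k x = y} = Icc s t ∩ k ⁻¹' {y} := by
      ext x
      simp
    rw [h1]
    exact isCompact_Icc.of_isClosed_subset
      (hk.preimage_isClosed_of_isClosed isClosed_Icc isClosed_singleton) inter_subset_left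
  have hne : ∀ y ∈ Ioo (k s) (k t), {x | x ∈ Icc s t ∧ k x = y}.Nonempty := by
    intro y hy
    obtain ⟨x, hx, hxy⟩ := intermediate_value_Icc hst.le hk (Ioo_subset_Icc_self hy)
    exact ⟨x, hx, hxy⟩
  have hmem : ∀ y ∈ Ioo (k s) (k t), sInf {x | x ∈ Icc s t ∧ k x = y} ∈
      {x | x ∈ Icc s t ∧ k x = y} := fun y hy => (hcl y).sInf_mem (hne y hy)
  have hmono : StrictMonoOn (fun y => sInf {x | x ∈ Icc s t ∧ k x = y}) (Ioo (k s) (k t)) := by
    intro y₁ hy₁ y₂ hy₂ hlt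
    have h2 := hmem y₂ hy₂
    have h1 := hmem y₁ hy₁
    set x₂ := sInf {x | x ∈ Icc s t ∧ k x = y₂} with hx₂
    have hsub : Icc s x₂ ⊆ Icc s t := Icc_subset_Icc_right h2.1.2
    have hy : y₁ ∈ Icc (k s) (k x₂) := by
      rw [h2.2]
      exact ⟨hy₁.1.le, hlt.le⟩
    obtain ⟨x, hx, hxy⟩ := intermediate_value_Icc h2.1.1 (hk.mono hsub) hy
    have h3 : sInf {x | x ∈ Icc s t ∧ k x = y₁} ≤ x :=
      csInf_le (hcl y₁).bddBelow ⟨hsub hx, hxy⟩
    refine lt_of_le_of_ne (h3.trans hx.2) ?_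
    intro h
    have h4 : k (sInf {x | x ∈ Icc s t ∧ k x = y₁}) = y₁ := h1.2
    have h5 : sInf {x | x ∈ Icc s t ∧ k x = y₁} = x₂ := h
    rw [h5, h2.2] at h4
    exact hlt.ne h4.symm
  refine ⟨fun y => sInf {x | x ∈ Icc s t ∧ k x = y},
    {y | y ∈ Ioo (k s) (k t) ∧ ¬ ContinuousWithinAt (fun y => sInf {x | x ∈ Icc s t ∧ k x = y})
      (Ioo (k s) (k t)) y}, hmono.monotoneOn.countable_not_continuousWithinAt, ?_, hmono, ?_⟩
  · intro y hy
    have h := hmem y hy
    refine ⟨⟨lt_of_le_of_ne h.1.1 ?_, lt_of_le_of_ne h.1.2 ?_⟩, h.2⟩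
    · intro he
      have h4 : k s = y := by
        rw [he]
        exact h.2
      exact hy.1.ne h4
    · intro he
      have h4 : k t = y := by
        rw [← he]
        exact h.2
      exact hy.2.ne h4.symm
  · intro y hy hyD
    have h : ContinuousWithinAt (fun y => sInf {x | x ∈ Icc s t ∧ k x = y})
        (Ioo (k s) (k t)) y := by
      by_contra hc
      exact hyD ⟨hy, hc⟩
    exact h.continuousAt (Ioo_mem_nhds hy.1 hy.2)

end Pool.Agent.R135.WM
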