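import Pool.Agent.R135.WM.Stm

/-! Project WM, piece LIFT: lift a monotone map through a monotone map. -/

set_option autoImplicit false

namespace Pool.Agent.R135.WM

open Set Topology

namespace Lift

lemma fib_ends (W : ℝ → ℝ) (a b : ℝ) (hab : a ≤ b) (hWc : ContinuousOn W (Icc a b))
    (h0 : W a = 0) (h1 : W b = 1) (y : ℝ) (hy : y ∈ Icc (0 : ℝ) 1) :
    ∃ l r, l ∈ Icc a b ∧ r ∈ Icc a b ∧ W l = y ∧ W r = y ∧
      ∀ x ∈ Icc a b, W x = y → l ≤ x ∧ x ≤ r := by
  have hcl : IsClosed (Icc a b ∩ W ⁻¹' {y}) :=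
    hWc.preimage_isClosed_of_isClosed isClosed_Icc isClosed_singleton
  have hcp : IsCompact (Icc a b ∩ W ⁻¹' {y}) :=
    isCompact_Icc.of_isClosed_subset hcl inter_subset_left
  have hne : (Icc a b ∩ W ⁻¹' {y}).Nonempty := by
    have h := intermediate_value_Icc hab hWc
    rw [h0, h1] at h
    obtain ⟨x, hx, hxy⟩ := h hy
    exact ⟨x, hx, hxy⟩
  have m1 := hcp.sInf_mem hne
  have m2 := hcp.sSup_mem hne
  exact ⟨_, _, m1.1, m2.1, m1.2, m2.2, fun x hx hxy =>
    ⟨csInf_le hcp.bddBelow ⟨hx, hxy⟩, le_csSup hcp.bddAbove ⟨hx, hxy⟩⟩⟩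

end Lift

open Lift in
theorem lift : StmLIFT := by
  intro W φ a b hab hWc hWm hWa hWb hφc hφm hφr hfib
  have hφ01 : ∀ t, φ t ∈ Icc (0 : ℝ) 1 := fun t => hφr ▸ mem_range_self t
  obtain ⟨u0, hu0⟩ : (0 : ℝ) ∈ range φ := by rw [hφr]; exact ⟨le_rfl, zero_le_one⟩
  obtain ⟨u1, hu1⟩ : (1 : ℝ) ∈ range φ := by rw [hφr]; exact ⟨zero_le_one, le_rfl⟩
  obtain ⟨t0, ht0, ht0'⟩ : ∃ t0, φ t0 = 0 ∧ ∀ t, φ t = 0 → t ≤ t0 := by
    have hne : ({t | φ t = 0} : Set ℝ).Nonempty := ⟨u0, hu0⟩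
    have hbd : BddAbove {t | φ t = 0} := by
      refine ⟨u1, fun t ht => ?_⟩
      by_contra hcon
      have h1 := hφm (not_le.1 hcon).le
      have h2 : φ t = 0 := ht
      rw [hu1, h2] at h1
      linarith
    have hcl : IsClosed {t | φ t = 0} := isClosed_eq hφc continuous_const
    exact ⟨sSup {t | φ t = 0}, hcl.csSup_mem hne hbd, fun t ht => le_csSup hbd ht⟩
  obtain ⟨t1, ht1, ht1'⟩ : ∃ t1, φ t1 = 1 ∧ ∀ t, φ t = 1 → t1 ≤ t := by
    have hne : ({t | φ t = 1} : Set ℝ).Nonempty := ⟨u1, hu1⟩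
    have hbd : BddBelow {t | φ t = 1} := by
      refine ⟨u0, fun t ht => ?_⟩
      by_contra hcon
      have h1 := hφm (not_le.1 hcon).le
      have h2 : φ t = 1 := ht
      rw [hu0, h2] at h1
      linarith
    have hcl : IsClosed {t | φ t = 1} := isClosed_eq hφc continuous_const
    exact ⟨sInf {t | φ t = 1}, hcl.csInf_mem hne hbd, fun t ht => csInf_le hbd ht⟩
  have ht01 : t0 < t1 := by
    by_contra hcon
    have h1 := hφm (not_lt.1 hcon)
    rw [ht0, ht1] at h1
    linarith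
  obtain ⟨_, a', _, ha', _, hWa', hmaxa⟩ :=
    fib_ends W a b hab.le hWc hWa hWb 0 ⟨le_rfl, zero_le_one⟩
  obtain ⟨b', _, hb', _, hWb', _, hminb⟩ :=
    fib_ends W a b hab.le hWc hWa hWb 1 ⟨zero_le_one, le_rfl⟩
  have hab' : a' < b' := by
    by_contra hcon
    have h1 := hWm hb' ha' (not_lt.1 hcon)
    rw [hWa', hWb'] at h1
    linarith
  have hsub : Icc a' b' ⊆ Icc a b := Icc_subset_Icc ha'.1 hb'.2
  have hW' := fib_ends W a' b' hab'.le (hWc.mono hsub) hWa' hWb'
  have hφ' := fib_ends φ t0 t1 ht01.le hφc.continuousOn ht0 ht1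
  choose! l r hl hr hWl hWr hlr using hW'
  choose! S T hS hT hφS hφT hST using hφ'
  -- the nondegenerate fibres
  have hdeg : ∀ y ∈ Icc (0 : ℝ) 1, l y < r y → S y < T y := by
    intro y hy hlt
    have hy0 : y ≠ 0 := by
      rintro rfl
      have h1 := (hmaxa (l 0) (hsub (hl 0 hy)) (hWl 0 hy)).2
      have h2 := (hmaxa (r 0) (hsub (hr 0 hy)) (hWr 0 hy)).2
      have h3 := (hl 0 hy).1
      linarith
    have hy1 : y ≠ 1 := by
      rintro rfl
      have h1 := (hminb (l 1) (hsub (hl 1 hy)) (hWl 1 hy)).1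
      have h2 := (hminb (r 1) (hsub (hr 1 hy)) (hWr 1 hy)).1
      have h3 := (hr 1 hy).2
      linarith
    have hy' : y ∈ Ioo (0 : ℝ) 1 := ⟨lt_of_le_of_ne hy.1 hy0.symm, lt_of_le_of_ne hy.2 hy1⟩
    obtain ⟨s, t, hst, hs, ht⟩ := hfib y hy'
      ⟨l y, r y, hsub (hl y hy), hsub (hr y hy), hlt, hWl y hy, hWr y hy⟩
    have key : ∀ z, φ z = y → z ∈ Icc t0 t1 := by
      intro z hz
      constructor
      · by_contra hcon
        have h1 := hφm (not_le.1 hcon).le
        rw [hz, ht0] at h1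
        linarith [hy'.1]
      · by_contra hcon
        have h1 := hφm (not_le.1 hcon).le
        rw [hz, ht1] at h1
        linarith [hy'.2]
    have h1 := (hST y hy s (key s hs) hs).1
    have h2 := (hST y hy t (key t ht) ht).2
    linarith
  have hlr' : ∀ y ∈ Icc (0 : ℝ) 1, l y ≤ r y := fun y hy => (hlr y hy (l y) (hl y hy) (hWl y hy)).2
  set h0 : ℝ → ℝ := fun t => l (φ t) + (r (φ t) - l (φ t)) * ((t - S (φ t)) / (T (φ t) - S (φ t)))
    with hh0
  have hmem : ∀ t ∈ Icc t0 t1, l (φ t) ≤ h0 t ∧ h0 t ≤ r (φ t) := by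
    intro t ht
    obtain ⟨h1, h2⟩ := hST (φ t) (hφ01 t) t ht rfl
    have h3 := hlr' (φ t) (hφ01 t)
    have h4 : 0 ≤ (t - S (φ t)) / (T (φ t) - S (φ t)) :=
      div_nonneg (by linarith) (by linarith)
    have h5 : (t - S (φ t)) / (T (φ t) - S (φ t)) ≤ 1 :=
      div_le_one_of_le₀ (by linarith) (by linarith)
    constructor
    · have : 0 ≤ (r (φ t) - l (φ t)) * ((t - S (φ t)) / (T (φ t) - S (φ t))) :=
        mul_nonneg (by linarith) h4
      simp only [hh0]; linarith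
    · have : (r (φ t) - l (φ t)) * ((t - S (φ t)) / (T (φ t) - S (φ t))) ≤
          (r (φ t) - l (φ t)) * 1 := mul_le_mul_of_nonneg_left h5 (by linarith)
      simp only [hh0]; linarith
  have hmem' : ∀ t ∈ Icc t0 t1, h0 t ∈ Icc a' b' := fun t ht =>
    ⟨(hl _ (hφ01 t)).1.trans (hmem t ht).1, (hmem t ht).2.trans (hr _ (hφ01 t)).2⟩
  have hWh : ∀ t ∈ Icc t0 t1, W (h0 t) = φ t := by
    intro t ht
    have h1 := hWm (hsub (hl _ (hφ01 t))) (hsub (hmem' t ht)) (hmem t ht).1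
    have h2 := hWm (hsub (hmem' t ht)) (hsub (hr _ (hφ01 t))) (hmem t ht).2
    rw [hWl _ (hφ01 t)] at h1
    rw [hWr _ (hφ01 t)] at h2
    exact le_antisymm h2 h1
  have hmono : ∀ t ∈ Icc t0 t1, ∀ t' ∈ Icc t0 t1, t ≤ t' → h0 t ≤ h0 t' := by
    intro t ht t' ht' htt
    rcases (hφm htt).eq_or_lt with h | h
    · have h3 := hlr' (φ t) (hφ01 t)
      obtain ⟨h1, h2⟩ := hST (φ t) (hφ01 t) t ht rfl
      have h4 : (t - S (φ t)) / (T (φ t) - S (φ t)) ≤ (t' - S (φ t)) / (T (φ t) - S (φ t)) :=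
        div_le_div_of_nonneg_right (by linarith) (by linarith)
      have h5 := mul_le_mul_of_nonneg_left h4 (sub_nonneg.2 h3)
      simp only [hh0]
      rw [← h]
      linarith
    · by_contra hcon
      have h1 := hWm (hsub (hmem' t' ht')) (hsub (hmem' t ht)) (not_le.1 hcon).le
      rw [hWh t ht, hWh t' ht'] at h1
      linarith
  have hsurj : ∀ x ∈ Icc a' b', ∃ t ∈ Icc t0 t1, h0 t = x := by
    intro x hx
    have hy : W x ∈ Icc (0 : ℝ) 1 := by
      have h1 := hWm (hsub ⟨le_rfl, hab'.le⟩) (hsub hx) hx.1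
      have h2 := hWm (hsub hx) (hsub ⟨hab'.le, le_rfl⟩) hx.2
      rw [hWa'] at h1
      rw [hWb'] at h2
      exact ⟨h1, h2⟩
    obtain ⟨h1, h2⟩ := hlr (W x) hy x hx rfl
    rcases (hlr' (W x) hy).eq_or_lt with h | h
    · refine ⟨S (W x), hS _ hy, ?_⟩
      have h3 := hmem (S (W x)) (hS _ hy)
      rw [hφS _ hy] at h3
      linarith [h3.1, h3.2]
    · have h3 := hdeg (W x) hy h
      have h4 : 0 ≤ (x - l (W x)) / (r (W x) - l (W x)) := div_nonneg (by linarith) (by linarith)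
      have h5 : (x - l (W x)) / (r (W x) - l (W x)) ≤ 1 :=
        div_le_one_of_le₀ (by linarith) (by linarith)
      obtain ⟨t, ht⟩ : ∃ t, t = S (W x) + (T (W x) - S (W x)) *
        ((x - l (W x)) / (r (W x) - l (W x))) := ⟨_, rfl⟩
      have h6 : S (W x) ≤ t := by
        rw [ht]
        have : 0 ≤ (T (W x) - S (W x)) * ((x - l (W x)) / (r (W x) - l (W x))) :=
          mul_nonneg (by linarith) h4
        linarith
      have h7 : t ≤ T (W x) := by
        rw [ht]
        have : (T (W x) - S (W x)) * ((x - l (W x)) / (r (W x) - l (W x))) ≤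
          (T (W x) - S (W x)) * 1 := mul_le_mul_of_nonneg_left h5 (by linarith)
        linarith
      have h8 : φ t = W x := by
        have g1 := hφm h6
        have g2 := hφm h7
        rw [hφS _ hy] at g1
        rw [hφT _ hy] at g2
        exact le_antisymm g2 g1
      refine ⟨t, ⟨(hS _ hy).1.trans h6, h7.trans (hT _ hy).2⟩, ?_⟩
      simp only [hh0]
      rw [h8, ht]
      have n1 : r (W x) - l (W x) ≠ 0 := by linarith
      have n2 : T (W x) - S (W x) ≠ 0 := by linarith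
      field_simp
      ring
  -- the clamp
  have hcl : ∀ t, max t0 (min t1 t) ∈ Icc t0 t1 := fun t =>
    ⟨le_max_left _ _, max_le ht01.le (min_le_left _ _)⟩
  have hclφ : ∀ t, φ (max t0 (min t1 t)) = φ t := by
    intro t
    rcases le_total t t0 with h | h
    · have e : max t0 (min t1 t) = t0 := max_eq_left ((min_le_right _ _).trans h)
      rw [e, ht0]
      have h1 := hφm h
      rw [ht0] at h1
      exact le_antisymm (hφ01 t).1 h1
    · rcases le_total t t1 with h' | h'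
      · rw [min_eq_right h', max_eq_right h]
      · rw [min_eq_left h', max_eq_right ht01.le, ht1]
        have h1 := hφm h'
        rw [ht1] at h1
        exact le_antisymm h1 (hφ01 t).2
  set G : ℝ → Icc a' b' := fun t => ⟨h0 (max t0 (min t1 t)), hmem' _ (hcl t)⟩ with hG
  have hGm : Monotone G := by
    intro t t' htt
    exact hmono _ (hcl t) _ (hcl t') (max_le_max le_rfl (min_le_min le_rfl htt))
  have hGs : Function.Surjective G := by
    rintro ⟨x, hx⟩
    obtain ⟨t, ht, htx⟩ := hsurj x hx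
    refine ⟨t, Subtype.ext ?_⟩
    show h0 (max t0 (min t1 t)) = x
    rw [min_eq_right ht.2, max_eq_right ht.1, htx]
  have hGc : Continuous G := hGm.continuous_of_surjective hGs
  refine ⟨fun t => (G t : ℝ), continuous_subtype_val.comp hGc, fun t => ⟨hsub (G t).2, ?_⟩⟩
  show W (h0 (max t0 (min t1 t))) = φ t
  rw [hWh _ (hcl t), hclφ]

end Pool.Agent.R135.WM
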