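import Pool.Agent.R135.WM.Stm

/-!
Piece LIM: an order isomorphism of dense subsets of `[0,1]` extends.
-/

open Set Filter Topology

namespace Pool.Agent.R135.WM

theorem lim : StmLIM := by
  classical
  intro G h00 h11 hmem hord hd1 hd2
  set A : ℝ → Set ℝ := fun x => {y | ∃ g ∈ G, g.1 ≤ x ∧ g.2 = y} with hA
  set θ : ℝ → ℝ := fun x => if x < 0 then x else if 1 < x then x else sSup (A x) with hθ
  have hbdd : ∀ x, BddAbove (A x) := fun x => ⟨1, by
    rintro y ⟨g, hg, -, rfl⟩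
    exact (hmem g hg).2.2⟩
  have hθv : ∀ x ∈ Icc (0 : ℝ) 1, θ x = sSup (A x) := by
    intro x hx
    have h1 : ¬ x < 0 := not_lt.2 hx.1
    have h2 : ¬ 1 < x := not_lt.2 hx.2
    simp [hθ, h1, h2]
  have ha : ∀ x ∈ Icc (0 : ℝ) 1, ∀ g ∈ G, g.1 ≤ x → g.2 ≤ θ x := by
    intro x hx g hg hgx
    rw [hθv x hx]
    exact le_csSup (hbdd x) ⟨g, hg, hgx, rfl⟩
  have hb : ∀ x ∈ Icc (0 : ℝ) 1, ∀ h ∈ G, x ≤ h.1 → θ x ≤ h.2 := by
    intro x hx h hh hxh
    rw [hθv x hx]
    refine csSup_le ⟨0, (0, 0), h00, hx.1, rfl⟩ ?_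
    rintro y ⟨g, hg, hgx, rfl⟩
    by_contra hcon
    push Not at hcon
    have := (hord h hh g hg).2 hcon
    linarith
  have hc : ∀ g ∈ G, θ g.1 = g.2 := fun g hg =>
    le_antisymm (hb _ (hmem g hg).1 g hg le_rfl) (ha _ (hmem g hg).1 g hg le_rfl)
  have h01 : ∀ x ∈ Icc (0 : ℝ) 1, 0 ≤ θ x ∧ θ x ≤ 1 := fun x hx =>
    ⟨ha x hx (0, 0) h00 hx.1, hb x hx (1, 1) h11 hx.2⟩
  have hstrict : StrictMonoOn θ (Icc 0 1) := by
    intro x hx y hy hxy
    obtain ⟨g1, hg1, hg1x⟩ := hd1 x y hx.1 hxy hy.2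
    obtain ⟨g2, hg2, hg2x⟩ := hd1 g1.1 y (hx.1.trans hg1x.1.le) hg1x.2 hy.2
    have e1 := hb x hx g1 hg1 hg1x.1.le
    have e2 := (hord g1 hg1 g2 hg2).1 hg2x.1
    have e3 := ha y hy g2 hg2 hg2x.2.le
    linarith
  have hneg : ∀ x, x < 0 → θ x = x := fun x hx => by simp [hθ, hx]
  have hbig : ∀ x, 1 < x → θ x = x := fun x hx => by
    have : ¬ x < 0 := by linarith
    simp [hθ, this, hx]
  have hmono : Monotone θ := by
    intro x y hxy
    rcases lt_or_ge x 0 with hx | hx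
    · rw [hneg x hx]
      rcases lt_or_ge y 0 with hy | hy
      · rw [hneg y hy]; exact hxy
      · rcases le_or_gt y 1 with hy1 | hy1
        · exact hx.le.trans (h01 y ⟨hy, hy1⟩).1
        · rw [hbig y hy1]; exact hxy
    · rcases le_or_gt x 1 with hx1 | hx1
      · rcases le_or_gt y 1 with hy1 | hy1
        · exact hstrict.monotoneOn ⟨hx, hx1⟩ ⟨hx.trans hxy, hy1⟩ hxy
        · rw [hbig y hy1]; exact (h01 x ⟨hx, hx1⟩).2.trans hy1.le
      · rw [hbig x hx1, hbig y (by linarith)]; exact hxy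
  have hdense : DenseRange θ := by
    refine dense_of_exists_between fun a b hab => ?_
    rcases lt_or_ge a 0 with ha0 | ha0
    · have h1 : a < min b 0 := lt_min hab ha0
      refine ⟨(a + min b 0) / 2, ⟨(a + min b 0) / 2, hneg _ ?_⟩, by linarith, ?_⟩
      · have := min_le_right b 0
        linarith
      · have := min_le_left b 0
        linarith
    · rcases le_or_gt b 1 with hb1 | hb1
      · obtain ⟨g, hg, hgx⟩ := hd2 a b ha0 hab hb1
        exact ⟨g.2, ⟨g.1, hc g hg⟩, hgx.1, hgx.2⟩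
      · have h1 : max a 1 < b := max_lt hab hb1
        refine ⟨(max a 1 + b) / 2, ⟨(max a 1 + b) / 2, hbig _ ?_⟩, ?_, by linarith⟩
        · have := le_max_right a 1
          linarith
        · have := le_max_left a 1
          linarith
  exact ⟨θ, hstrict, (hmono.continuous_of_denseRange hdense).continuousOn, hc (0, 0) h00,
    hc (1, 1) h11, hc⟩

end Pool.Agent.R135.WM
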