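import Pool.Agent.R135.WM.Stm

set_option autoImplicit false

namespace Pool.Agent.R135.WM

open Set Topology

/-- the sets of the second family -/
def MAIN_F (p : ℕ) (c : ℝ → ℕ) (κ : ℕ → Set ℝ) (kb : ℝ → ℝ) (Q' : Set ℝ) (e : ℕ → ℝ) :
    (ℕ × ℕ) ⊕ ℕ → Set ℝ
  | Sum.inl jm => Icc (1 / ((jm.2 : ℝ) + 2)) (1 - 1 / ((jm.2 : ℝ) + 2)) ∩ kb ⁻¹' (κ jm.1)
  | Sum.inr i => {y | y = e i ∧ y ∈ Q' ∧ y ∈ Ioo (0 : ℝ) 1 ∧ c (kb y) = p + 1}

lemma MAIN_exm (y : ℝ) (hy : y ∈ Ioo (0 : ℝ) 1) :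
    ∃ m : ℕ, y ∈ Icc (1 / ((m : ℝ) + 2)) (1 - 1 / ((m : ℝ) + 2)) := by
  obtain ⟨hy0, hy1⟩ := hy
  obtain ⟨m, hm⟩ := exists_nat_gt (max (1 / y) (1 / (1 - y)))
  have h1 : 1 / y < m := lt_of_le_of_lt (le_max_left _ _) hm
  have h2 : 1 / (1 - y) < m := lt_of_le_of_lt (le_max_right _ _) hm
  have hy1' : 0 < 1 - y := by linarith
  refine ⟨m, ?_, ?_⟩
  · rw [div_le_iff₀ (by positivity)]
    rw [div_lt_iff₀ hy0] at h1
    nlinarith
  · have : 1 / ((m : ℝ) + 2) ≤ 1 - y := by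
      rw [div_le_iff₀ (by positivity)]
      rw [div_lt_iff₀ hy1'] at h2
      nlinarith
    linarith

lemma MAIN_icc (m : ℕ) : Icc (1 / ((m : ℝ) + 2)) (1 - 1 / ((m : ℝ) + 2)) ⊆ Ioo (0 : ℝ) 1 := by
  have h : 0 < 1 / ((m : ℝ) + 2) := by positivity
  rintro y ⟨h1, h2⟩
  exact ⟨by linarith, by linarith⟩

theorem main : StmMAIN := by
  intro hBF hCOL hHIT hHF hHB hLIFT p c Q κ π hS hB f hf hX1 hX2
  obtain ⟨t1, ht1⟩ := hX1
  obtain ⟨t2, ht2⟩ := hX2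
  have hπ : ∀ t, π t ∈ Icc (0 : ℝ) 1 := fun t => hB.rng ▸ mem_range_self t
  set k : ℝ → ℝ := fun t => π (f t) with hk
  have hkc : Continuous k := hB.cont.comp hf
  have hk01 : ∀ t, k t ∈ Icc (0 : ℝ) 1 := fun t => hπ _
  have hne : k t1 ≠ k t2 := by
    intro h
    apply ht2
    show Even (c (π (f t2)))
    have : Even (c (k t1)) := ht1
    rw [h] at this
    exact this
  -- two points of level p+1
  have h12 : min (k t1) (k t2) < max (k t1) (k t2) := min_lt_max.2 hne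
  have hmin0 : 0 ≤ min (k t1) (k t2) := le_min (hk01 _).1 (hk01 _).1
  have hmax1 : max (k t1) (k t2) ≤ 1 := max_le (hk01 _).2 (hk01 _).2
  obtain ⟨q1, -, hq1, hcq1⟩ := hS.qtop _ _ hmin0 h12 hmax1
  obtain ⟨q2, -, hq2, hcq2⟩ := hS.qtop q1 _ (hmin0.trans hq1.1.le) hq1.2 hmax1
  have hivt : ∀ q, min (k t1) (k t2) < q → q < max (k t1) (k t2) → ∃ s, k s = q := by
    intro q h1 h2
    have := intermediate_value_uIcc (a := t1) (b := t2) (f := k) hkc.continuousOn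
    have hq : q ∈ uIcc (k t1) (k t2) := ⟨h1.le, h2.le⟩
    obtain ⟨s, -, hs⟩ := this hq
    exact ⟨s, hs⟩
  obtain ⟨s1, hs1⟩ := hivt q1 hq1.1 hq1.2
  obtain ⟨s2, hs2⟩ := hivt q2 (hq1.1.trans hq2.1) hq2.2
  have hab : ∃ a b : ℝ, a < b ∧ k a ≠ k b ∧ c (k a) = p + 1 ∧ c (k b) = p + 1 := by
    have hs : s1 ≠ s2 := by
      rintro rfl
      rw [hs1] at hs2
      exact (ne_of_lt hq2.1) hs2
    have hqne : q1 ≠ q2 := ne_of_lt hq2.1
    rcases lt_or_gt_of_ne hs with h | h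
    · exact ⟨s1, s2, h, by rw [hs1, hs2]; exact hqne, by rw [hs1, hcq1], by rw [hs2, hcq2]⟩
    · exact ⟨s2, s1, h, by rw [hs1, hs2]; exact hqne.symm, by rw [hs2, hcq2], by rw [hs1, hcq1]⟩
  obtain ⟨a, b, hab, hkab, hca, hcb⟩ := hab
  obtain ⟨W, kb, hWc, hWm, hWa, hWb, hkbc, hkbW, hNC, hFib⟩ := hCOL k a b hkc hab hkab
  have hWsurj : ∀ y ∈ Icc (0 : ℝ) 1, ∃ x ∈ Icc a b, W x = y := by
    intro y hy
    have := intermediate_value_Icc hab.le hWc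
    rw [hWa, hWb] at this
    obtain ⟨x, hx, hxy⟩ := this hy
    exact ⟨x, hx, hxy⟩
  have hkbm : MapsTo kb (Icc 0 1) (Icc 0 1) := by
    intro y hy
    obtain ⟨x, hx, rfl⟩ := hWsurj y hy
    rw [hkbW x hx]
    exact hk01 _
  have hkb0 : c (kb 0) = p + 1 := by
    rw [← hWa, hkbW a (left_mem_Icc.2 hab.le), hca]
  have hkb1 : c (kb 1) = p + 1 := by
    rw [← hWb, hkbW b (right_mem_Icc.2 hab.le), hcb]
  obtain ⟨e, he⟩ := Set.countable_iff_exists_subset_range.1 hFib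
  set Q' : Set ℝ := Fib W a b with hQ'
  set F := MAIN_F p c κ kb Q' e with hF
  -- membership
  have hmemL : ∀ y ∈ Icc (0 : ℝ) 1, c (kb y) ≤ p → ∃ i, y ∈ F i := by
    intro y hy hc
    obtain ⟨j, hj⟩ := (hS.lev _).1 hc
    have hy' : y ∈ Ioo (0 : ℝ) 1 := by
      refine ⟨lt_of_le_of_ne hy.1 ?_, lt_of_le_of_ne hy.2 ?_⟩
      · rintro rfl
        omega
      · rintro rfl
        omega
    obtain ⟨m, hm⟩ := MAIN_exm y hy'
    exact ⟨Sum.inl (j, m), hm, hj⟩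
  have hmemR : ∀ y ∈ Ioo (0 : ℝ) 1, y ∈ Q' → ∃ i, y ∈ F i := by
    intro y hy hyQ
    by_cases hc : c (kb y) ≤ p
    · exact hmemL y ⟨hy.1.le, hy.2.le⟩ hc
    · obtain ⟨i, hi⟩ := he hyQ
      exact ⟨Sum.inr i, hi.symm, hyQ, hy, le_antisymm (hS.top _) (by omega)⟩
  let E := Denumerable.eqv ((ℕ × ℕ) ⊕ ℕ)
  set κ' : ℕ → Set ℝ := fun n => F (E.symm n) with hκ'
  have hFκ : ∀ i y, y ∈ F i → y ∈ κ' (E i) := by
    intro i y hy
    show y ∈ F (E.symm (E i))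
    rw [E.symm_apply_apply]
    exact hy
  -- intervals: images
  have himg : ∀ s t : ℝ, 0 ≤ s → s < t → t ≤ 1 → ∀ z ∈ uIcc (kb s) (kb t),
      ∃ y ∈ Icc s t, kb y = z := by
    intro s t hs hst ht z hz
    have hc : ContinuousOn kb (uIcc s t) := by
      rw [uIcc_of_le hst.le]
      exact hkbc.mono (Icc_subset_Icc hs ht)
    obtain ⟨y, hy, hyz⟩ := intermediate_value_uIcc hc hz
    rw [uIcc_of_le hst.le] at hy
    exact ⟨y, hy, hyz⟩
  set Rr : ℝ → ℝ → Prop := fun x y => c x = c (kb y) ∧ (y ∈ Q' → x ∈ Q) with hRr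
  have hF2 : ∀ i, IsCompact (F i) ∧ F i ⊆ Ioo 0 1 ∧ interior (F i) = ∅ := by
    rintro (⟨j, m⟩ | i)
    · have hsub : F (Sum.inl (j, m)) ⊆ Ioo 0 1 := fun y hy => MAIN_icc m hy.1
      refine ⟨?_, hsub, ?_⟩
      · have hcl : IsClosed (F (Sum.inl (j, m))) :=
          (hkbc.mono ((MAIN_icc m).trans Ioo_subset_Icc_self)).preimage_isClosed_of_isClosed
            isClosed_Icc (hS.cpt j).isClosed
        exact isCompact_Icc.of_isClosed_subset hcl (fun y hy => hy.1)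
      · by_contra hne'
        obtain ⟨x, hx⟩ := nonempty_iff_ne_empty.2 hne'
        obtain ⟨l, u, hlu, hsubF⟩ := mem_nhds_iff_exists_Ioo_subset.1 (mem_interior_iff_mem_nhds.1 hx)
        have hlu' : l < u := hlu.1.trans hlu.2
        have h01 := (Ioo_subset_Ioo_iff hlu').1 (hsubF.trans hsub)
        obtain ⟨s, t, hs, ht, hst, hkst⟩ := hNC l u h01.1 hlu' h01.2
        have h3 : uIcc (kb s) (kb t) ⊆ κ j := by
          intro z hz
          obtain ⟨y, hy, rfl⟩ := himg s t (h01.1.trans hs.1.le) hst (ht.2.le.trans h01.2) z hz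
          exact (hsubF ⟨hs.1.trans_le hy.1, hy.2.trans_lt ht.2⟩).2
        have h4 : interior (uIcc (kb s) (kb t)) ⊆ interior (κ j) := interior_mono h3
        rw [hS.int j, uIcc, interior_Icc] at h4
        have h5 : min (kb s) (kb t) < max (kb s) (kb t) := min_lt_max.2 hkst
        obtain ⟨z, hz⟩ := exists_between h5
        exact h4 hz
    · have hsub : F (Sum.inr i) ⊆ {e i} := fun y hy => hy.1
      have hfin : (F (Sum.inr i)).Finite := (finite_singleton _).subset hsub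
      refine ⟨hfin.isCompact, fun y hy => hy.2.2.1, ?_⟩
      rw [interior_eq_empty_iff_dense_compl]
      exact hfin.countable.dense_compl ℝ
  obtain ⟨θ, hθm, hθc, hθ0, hθ1, hθF, hθB⟩ := hBF Rr κ κ'
    (fun j => ⟨hS.cpt j, hS.sub j, hS.int j⟩) (fun n => hF2 _)
    (by
      intro u v hu huv hv
      obtain ⟨j, hj, z, hz⟩ := hS.den u v hu huv hv
      exact ⟨j, z, hz, hj hz⟩)
    (by
      intro u v hu huv hv
      obtain ⟨s, t, hs, ht, hst, hkst⟩ := hNC u v hu huv hv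
      have hs01 : s ∈ Icc (0 : ℝ) 1 := ⟨hu.trans hs.1.le, hs.2.le.trans hv⟩
      have ht01 : t ∈ Icc (0 : ℝ) 1 := ⟨hu.trans ht.1.le, ht.2.le.trans hv⟩
      obtain ⟨j, hj, z, hz⟩ := hS.den (min (kb s) (kb t)) (max (kb s) (kb t))
        (le_min (hkbm hs01).1 (hkbm ht01).1) (min_lt_max.2 hkst)
        (max_le (hkbm hs01).2 (hkbm ht01).2)
      have hz' := hj hz
      obtain ⟨y, hy, hyz⟩ := himg s t hs01.1 hst ht01.2 z ⟨hz'.1.le, hz'.2.le⟩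
      have hy1 : y ∈ Ioo u v := ⟨hs.1.trans_le hy.1, hy.2.trans_lt ht.2⟩
      obtain ⟨m, hm⟩ := MAIN_exm y ⟨hu.trans_lt hy1.1, hy1.2.trans_le hv⟩
      refine ⟨E (Sum.inl (j, m)), y, hFκ _ _ ⟨hm, ?_⟩, hy1⟩
      show kb y ∈ κ j
      rw [hyz]
      exact hz)
    (by
      intro j K0 hK0 hK0c u v hu huv hv
      obtain ⟨ψ, hψ, h⟩ := hHF hHIT p c Q κ hS kb Q' hkbc hkbm hNC hFib j K0 hK0 hK0c u v hu huv hv
      exact ⟨ψ, hψ, fun x hx => ⟨(h x hx).1, fun hx' => absurd hx' (h x hx).2⟩⟩)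
    (by
      intro n K0 hK0 hK0c u v hu huv hv
      have hK01 : K0 ⊆ Icc 0 1 := (hK0.trans (hF2 _).2.1).trans Ioo_subset_Icc_self
      have hcase : (∃ j, ∀ y ∈ K0, kb y ∈ κ j) ∨ (∃ q, K0 = {q} ∧ c (kb q) = p + 1) := by
        have hK0' : K0 ⊆ F (E.symm n) := hK0
        rcases hn : E.symm n with ⟨j, m⟩ | i
        · rw [hn] at hK0'
          exact Or.inl ⟨j, fun y hy => (hK0' hy).2⟩
        · rw [hn] at hK0'
          rcases K0.eq_empty_or_nonempty with h0 | ⟨y, hy⟩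
          · exact Or.inl ⟨0, fun y hy => by rw [h0] at hy; exact absurd hy (notMem_empty _)⟩
          · refine Or.inr ⟨y, ?_, (hK0' hy).2.2.2⟩
            refine Subset.antisymm (fun z hz => ?_) (singleton_subset_iff.2 hy)
            rw [mem_singleton_iff, (hK0' hz).1, (hK0' hy).1]
      obtain ⟨ψ, hψ, h⟩ := hHB p c Q κ hS kb Q' hkbc hkbm hNC hFib K0 hK0c hK01 hcase u v hu huv hv
      exact ⟨ψ, hψ, fun y hy => h y hy⟩)
  have h01 : (0 : ℝ) ∈ Icc (0 : ℝ) 1 := ⟨le_rfl, zero_le_one⟩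
  have h11 : (1 : ℝ) ∈ Icc (0 : ℝ) 1 := ⟨zero_le_one, le_rfl⟩
  have hθmem : ∀ x ∈ Icc (0 : ℝ) 1, θ x ∈ Icc (0 : ℝ) 1 := by
    intro x hx
    refine ⟨?_, ?_⟩
    · rw [← hθ0]
      exact hθm.monotoneOn h01 hx hx.1
    · rw [← hθ1]
      exact hθm.monotoneOn hx h11 hx.2
  have hθs : ∀ y ∈ Icc (0 : ℝ) 1, ∃ x ∈ Icc (0 : ℝ) 1, θ x = y := by
    intro y hy
    have := intermediate_value_Icc zero_le_one hθc
    rw [hθ0, hθ1] at this
    obtain ⟨x, hx, hxy⟩ := this hy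
    exact ⟨x, hx, hxy⟩
  have hlevel : ∀ x ∈ Icc (0 : ℝ) 1, c (kb (θ x)) = c x := by
    intro x hx
    by_cases hc : c x ≤ p
    · obtain ⟨j, hj⟩ := (hS.lev _).1 hc
      exact (hθF j x hj).1.symm
    · by_cases hc' : c (kb (θ x)) ≤ p
      · obtain ⟨i, hi⟩ := hmemL (θ x) (hθmem x hx) hc'
        exact (hθB _ x hx (hFκ i _ hi)).1.symm
      · have h1 := hS.top x
        have h2 := hS.top (kb (θ x))
        omega
  have hφc : Continuous (fun t => θ (π t)) := hθc.comp_continuous hB.cont hπ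
  have hφm : Monotone (fun t => θ (π t)) := fun s t hst =>
    hθm.monotoneOn (hπ s) (hπ t) (hB.mono hst)
  have hφr : range (fun t => θ (π t)) = Icc 0 1 := by
    refine Subset.antisymm ?_ ?_
    · rintro _ ⟨t, rfl⟩
      exact hθmem _ (hπ t)
    · intro y hy
      obtain ⟨x, hx, rfl⟩ := hθs y hy
      rw [← hB.rng] at hx
      obtain ⟨t, rfl⟩ := hx
      exact ⟨t, rfl⟩
  obtain ⟨h, hhc, hh⟩ := hLIFT W (fun t => θ (π t)) a b hab hWc hWm hWa hWb hφc hφm hφr (by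
    intro y hy hyF
    obtain ⟨x, hx, rfl⟩ := hθs y ⟨hy.1.le, hy.2.le⟩
    obtain ⟨i, hi⟩ := hmemR _ hy hyF
    have hxQ : x ∈ Q := (hθB _ x hx (hFκ i _ hi)).2 hyF
    obtain ⟨s, t, hst, hs, ht⟩ := hB.blow x hxQ
    exact ⟨s, t, hst, by show θ (π s) = _; rw [hs], by show θ (π t) = _; rw [ht]⟩)
  refine ⟨h, hhc, ?_⟩
  ext t
  show Even (c (π t)) ↔ Even (c (k (h t)))
  rw [← hkbW (h t) (hh t).1, (hh t).2, hlevel (π t) (hπ t)]

end Pool.Agent.R135.WM
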