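import Pool.Agent.R135.WM.Stm

/-!
# WM-NEQ (MP_fd8bd4_lc): transfer of RANK to the line
-/

set_option autoImplicit false
set_option maxHeartbeats 400000

namespace Pool.Agent.R135.WM

open Set Topology

namespace NEQ

/-- The word of a family of rows. -/
def wd {p : ℕ} (b : Fin p → ℕ → Bool) : ℕ → ℕ := fun s => Nat.ofBits (fun i : Fin p => b i s)

theorem wd_Wd {p : ℕ} (b : Fin p → ℕ → Bool) : Wd p (wd b) := by
  intro s
  refine lt_of_lt_of_le (Nat.ofBits_lt_two_pow _) ?_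
  exact Nat.pow_le_pow_right (by norm_num) (by omega)

theorem wd_bit {p : ℕ} (b : Fin p → ℕ → Bool) (s i : ℕ) (h : i < p) :
    (wd b s).testBit i = b ⟨i, h⟩ s := Nat.testBit_ofBits_lt _ i h

theorem wd_inj {p : ℕ} {b b' : Fin p → ℕ → Bool} (h : wd b = wd b') : b = b' := by
  funext i s
  have h1 := wd_bit b s i.1 i.2
  have h2 := wd_bit b' s i.1 i.2
  rw [h] at h1
  exact h1.symm.trans h2

theorem lev_wd {p : ℕ} (b : Fin p → ℕ → Bool) : lev p (wd b) = levR b := by
  unfold lev levR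
  congr 1
  ext i
  constructor
  · rintro (h | ⟨h, h1⟩)
    · exact Or.inl h
    · right
      refine ⟨h, ?_⟩
      convert h1 using 2
      ext s
      change b ⟨i, h⟩ s = true ↔ (wd b s).testBit i = true
      rw [wd_bit b s i h]
  · rintro (h | ⟨h, h1⟩)
    · exact Or.inl h
    · right
      refine ⟨h, ?_⟩
      convert h1 using 2
      ext s
      change (wd b s).testBit i = true ↔ b ⟨i, h⟩ s = true
      rw [wd_bit b s i h]

theorem levR_le {p : ℕ} (b : Fin p → ℕ → Bool) : levR b ≤ p := Nat.sInf_le (Or.inl rfl)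

theorem V_inj (hV : StmVAL) {p : ℕ} {L L' : ℕ → ℕ} (h : Wd p L) (h' : Wd p L')
    (he : V p L = V p L') : L = L' := by
  classical
  by_contra hne
  have hex : ∃ s, L s ≠ L' s := by
    by_contra h1
    push Not at h1
    exact hne (funext h1)
  have h2 := Nat.find_spec hex
  have h3 : ∀ r < Nat.find hex, L r = L' r := fun r hr => by
    by_contra h4
    exact Nat.find_min hex hr h4
  rcases lt_or_gt_of_ne h2 with h4 | h4
  · exact absurd he ((hV p).1 L L' h h' _ h3 h4).ne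
  · exact absurd he.symm ((hV p).1 L' L h' h _ (fun r hr => (h3 r hr).symm) h4).ne

theorem cont (hV : StmVAL) (p : ℕ) : Continuous (fun b : Fin p → ℕ → Bool => V p (wd b)) := by
  rw [continuous_iff_continuousAt]
  intro b
  rw [Metric.continuousAt_iff']
  intro ε hε
  obtain ⟨s, hs⟩ := (hV p).2.2 ε hε
  have h : ∀ (r : ℕ) (i : Fin p), ∀ᶠ b' in 𝓝 b, b' i r = b i r := by
    intro r i
    have hc : Continuous (fun b' : Fin p → ℕ → Bool => b' i r) := by fun_prop
    refine hc.continuousAt.tendsto.eventually (p := fun y => y = b i r) ?_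
    rw [nhds_discrete]
    exact Filter.eventually_pure.2 rfl
  have h1 : ∀ᶠ b' in 𝓝 b, ∀ r ∈ Finset.range s, ∀ i : Fin p, b' i r = b i r := by
    rw [Filter.eventually_all_finset]
    intro r _
    rw [Filter.eventually_all]
    exact h r
  filter_upwards [h1] with b' hb'
  rw [Real.dist_eq]
  refine hs _ _ (wd_Wd b') (wd_Wd b) fun r hr => ?_
  unfold wd
  congr 1
  funext i
  exact hb' r (Finset.mem_range.2 hr) i

end NEQ

open NEQ in
theorem neq : StmNEQ := by
  classical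
  intro hV hBCP hRANK p c Q κ π hS hB e he hpar
  set v : (Fin p → ℕ → Bool) → ℝ := fun b => V p (wd b) with hv
  have hvc : Continuous v := NEQ.cont hV p
  have hvi : ∀ b b', v b = v b' → b = b' := fun b b' h => wd_inj (V_inj hV (wd_Wd b) (wd_Wd b') h)
  set K : Set ℝ := range v with hK
  have hKc : IsCompact K := isCompact_range hvc
  have hKB : K ⊆ Blk p := by
    rintro _ ⟨b, rfl⟩
    exact ⟨wd b, wd_Wd b, rfl⟩
  have hKi : interior K = ∅ := by
    rw [Set.eq_empty_iff_forall_notMem]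
    intro x hx
    have h1 := interior_mono hKB hx
    rw [(hBCP p).2.1] at h1
    exact h1
  set d : ℝ → ℕ := fun x => if h : ∃ b, v b = x then levR h.choose else p with hd
  have hdv : ∀ b, d (v b) = levR b := by
    intro b
    have h1 : ∃ b', v b' = v b := ⟨b, rfl⟩
    have h2 : d (v b) = levR h1.choose := dif_pos h1
    rw [h2, hvi _ _ h1.choose_spec]
  have hdp : ∀ x ∈ K, d x ≤ p := by
    rintro _ ⟨b, rfl⟩
    rw [hdv]
    exact levR_le b
  have hdF : ∀ i, FS {x | x ∈ K ∧ d x ≤ i} := by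
    intro i
    obtain ⟨E, hE1, hE2⟩ := (hBCP p).2.2 i
    refine ⟨fun m => E m ∩ K, fun m => (hE1 m).inter hKc.isClosed, ?_⟩
    rw [← Set.iUnion_inter, hE2]
    ext x
    constructor
    · rintro ⟨⟨L, hL, rfl, hl⟩, hx⟩
      refine ⟨hx, ?_⟩
      obtain ⟨b, hb⟩ := hx
      have h1 : wd b = L := V_inj hV (wd_Wd b) hL hb
      rw [← hb, hdv, ← lev_wd, h1]
      exact hl
    · rintro ⟨hx, h1⟩
      obtain ⟨b, rfl⟩ := hx
      refine ⟨⟨wd b, wd_Wd b, rfl, ?_⟩, ⟨b, rfl⟩⟩
      rw [hdv] at h1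
      rw [lev_wd]
      exact h1
  obtain ⟨ψ, ⟨-, hψc, hψm⟩, hψ2, hψ3⟩ := hS.UF K d Q hKc hKi hS.ctb hdp hdF 0 1 le_rfl one_pos le_rfl
  have hmem : ∀ b, v b ∈ K := fun b => ⟨b, rfl⟩
  have hψI : ∀ b, ψ (v b) ∈ Ioo (0 : ℝ) 1 := fun b => hψm (hmem b)
  have hex : ∀ b, ∃ t, π t = ψ (v b) := by
    intro b
    have h1 : ψ (v b) ∈ range π := by
      rw [hB.rng]
      exact ⟨(hψI b).1.le, (hψI b).2.le⟩
    exact h1
  choose J hJ using hex
  have hψv : Continuous (fun b => ψ (v b)) := hψc.comp_continuous hvc hmem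
  obtain ⟨t0, ht0⟩ : (0 : ℝ) ∈ range π := by
    rw [hB.rng]
    exact ⟨le_rfl, zero_le_one⟩
  obtain ⟨t1, ht1⟩ : (1 : ℝ) ∈ range π := by
    rw [hB.rng]
    exact ⟨zero_le_one, le_rfl⟩
  have hJI : ∀ b, J b ∈ Icc t0 t1 := by
    intro b
    constructor
    · by_contra h1
      have h2 := hB.mono (not_le.1 h1).le
      rw [hJ, ht0] at h2
      linarith [(hψI b).1]
    · by_contra h1
      have h2 := hB.mono (not_le.1 h1).le
      rw [hJ, ht1] at h2
      linarith [(hψI b).2]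
  have hcl : ∀ F : Set ℝ, IsClosed F → IsClosed {b | J b ∈ F} := by
    intro F hF
    have e1 : {b | J b ∈ F} = (fun b => ψ (v b)) ⁻¹' (π '' (Icc t0 t1 ∩ F)) := by
      ext b
      constructor
      · intro hb
        exact ⟨J b, ⟨hJI b, hb⟩, hJ b⟩
      · rintro ⟨t, ⟨-, ht⟩, h1⟩
        have h2 := hB.sng _ (hψI b) (hψ3 _ (hmem b)) t (J b) h1 (hJ b)
        change J b ∈ F
        rw [← h2]
        exact ht
    rw [e1]
    exact ((isCompact_Icc.inter_right hF).image hB.cont).isClosed.preimage hψv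
  obtain ⟨b, hb⟩ := hRANK p (fun b => e (J b)) (fun i => by
    obtain ⟨E, hE1, hE2⟩ := he i
    refine ⟨fun m => {b | J b ∈ E m}, fun m => hcl _ (hE1 m), ?_⟩
    ext b
    have h1 : J b ∈ (⋃ m, E m) ↔ J b ∈ {t | e t ≤ i} := by rw [hE2]
    rw [Set.mem_iUnion] at h1
    rw [Set.mem_iUnion]
    exact h1) (fun b => by
    have h1 := hpar (J b)
    rw [hJ, hψ2 _ (hmem b), hdv] at h1
    exact h1)
  exact ⟨J b, hb⟩

end Pool.Agent.R135.WM
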