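import Mathlib

/-! Project WM (MP_fd8bd4_lc): exact statements of the pieces.  See notes.md. -/

namespace Pool.Agent.R135.WM

open Set Topology

/-- `F_σ` sets. -/
def FS {X : Type*} [TopologicalSpace X] (S : Set X) : Prop :=
  ∃ E : ℕ → Set X, (∀ m, IsClosed (E m)) ∧ (⋃ m, E m) = S

/-- `ψ` is a strictly increasing continuous map of `K` into `(u,v)`. -/
def Emb (K : Set ℝ) (u v : ℝ) (ψ : ℝ → ℝ) : Prop :=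
  StrictMonoOn ψ K ∧ ContinuousOn ψ K ∧ MapsTo ψ K (Ioo u v)

/-- The standard level structure on `[0,1]`: levels `0,…,p` live on the compact nowhere dense
sets `κ j`, level `p+1` is everything else; `Q` is the countable set of points to be blown up. -/
structure Std (p : ℕ) (c : ℝ → ℕ) (Q : Set ℝ) (κ : ℕ → Set ℝ) : Prop where
  cpt : ∀ j, IsCompact (κ j)
  sub : ∀ j, κ j ⊆ Ioo 0 1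
  int : ∀ j, interior (κ j) = ∅
  den : ∀ u v : ℝ, 0 ≤ u → u < v → v ≤ 1 → ∃ j, κ j ⊆ Ioo u v ∧ (κ j).Nonempty
  lev : ∀ x, c x ≤ p ↔ ∃ j, x ∈ κ j
  top : ∀ x, c x ≤ p + 1
  sig : ∀ j i, FS {x | x ∈ κ j ∧ c x ≤ i}
  ctb : Q.Countable
  qsub : Q ⊆ Ioo 0 1
  qtop : ∀ u v : ℝ, 0 ≤ u → u < v → v ≤ 1 → ∃ q ∈ Q, q ∈ Ioo u v ∧ c q = p + 1
  UB : ∀ (K : Set ℝ) (d : ℝ → ℕ) (M : Set ℝ), IsCompact K → interior K = ∅ → M.Countable →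
    (∀ x ∈ K, d x ≤ p) → (∀ i, FS {x | x ∈ K ∧ d x ≤ i}) →
    ∀ u v : ℝ, 0 ≤ u → u < v → v ≤ 1 →
      ∃ ψ : ℝ → ℝ, Emb K u v ψ ∧ (∀ x ∈ K, c (ψ x) = d x) ∧ ∀ x ∈ K, x ∈ M → ψ x ∈ Q
  UF : ∀ (K : Set ℝ) (d : ℝ → ℕ) (D : Set ℝ), IsCompact K → interior K = ∅ → D.Countable →
    (∀ x ∈ K, d x ≤ p) → (∀ i, FS {x | x ∈ K ∧ d x ≤ i}) →
    ∀ u v : ℝ, 0 ≤ u → u < v → v ≤ 1 →
      ∃ ψ : ℝ → ℝ, Emb K u v ψ ∧ (∀ x ∈ K, c (ψ x) = d x) ∧ ∀ x ∈ K, ψ x ∉ D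

/-- `π` is the monotone map blowing up exactly the points of `Q`. -/
structure Blow (Q : Set ℝ) (π : ℝ → ℝ) : Prop where
  cont : Continuous π
  mono : Monotone π
  rng : range π = Icc 0 1
  blow : ∀ q ∈ Q, ∃ s t, s < t ∧ π s = q ∧ π t = q
  sng : ∀ y ∈ Ioo (0 : ℝ) 1, y ∉ Q → ∀ s t, π s = y → π t = y → s = t

/-! ### Coding -/

/-- Words with letters `< 2^(p+2)`; bit `p+1` is the position bit, bit `p` a free parameter,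
bits `0..p-1` the rows. -/
def Wd (p : ℕ) (L : ℕ → ℕ) : Prop := ∀ s, L s < 2 ^ (p + 2)

noncomputable def V (p : ℕ) (L : ℕ → ℕ) : ℝ := ∑' s, (L s : ℝ) / (2 ^ (p + 3)) ^ (s + 1)

noncomputable def lev (p : ℕ) (L : ℕ → ℕ) : ℕ :=
  sInf {i | i = p ∨ (i < p ∧ {s | (L s).testBit i = true}.Finite)}

def Per (L : ℕ → ℕ) : Prop := ∃ s0, ∀ s ≥ s0, L (s + 2) = L s

def Blk (p : ℕ) : Set ℝ := {x | ∃ L, Wd p L ∧ x = V p L}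

/-- piece VAL -/
def StmVAL : Prop := ∀ p : ℕ,
  (∀ L L' : ℕ → ℕ, Wd p L → Wd p L' → ∀ s, (∀ r < s, L r = L' r) → L s < L' s → V p L < V p L') ∧
  (∀ L : ℕ → ℕ, Wd p L → 0 ≤ V p L ∧ V p L ≤ 1) ∧
  (∀ ε > 0, ∃ s : ℕ, ∀ L L' : ℕ → ℕ, Wd p L → Wd p L' → (∀ r < s, L r = L' r) →
    |V p L - V p L'| < ε)

/-- piece BCP: the block is compact with empty interior, its sublevel sets are F_σ -/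
def StmBCP : Prop := ∀ p : ℕ, IsCompact (Blk p) ∧ interior (Blk p) = ∅ ∧
  ∀ i, FS {x | ∃ L, Wd p L ∧ x = V p L ∧ lev p L ≤ i}

/-- piece C1: position bits -/
def StmC1 : Prop := ∀ (K M : Set ℝ), IsCompact K → interior K = ∅ → M.Countable →
  ∃ β : ℝ → ℕ → Bool,
    (∀ x ∈ K, ∀ y ∈ K, x < y → ∃ s, (∀ r < s, β x r = β y r) ∧ β x s = false ∧ β y s = true) ∧
    (∀ s, ∀ x ∈ K, ∃ ε > 0, ∀ y ∈ K, |y - x| < ε → β y s = β x s) ∧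
    (∀ x ∈ K, x ∈ M → ∃ s0, ∀ s ≥ s0, β x (s + 2) = β x s)

/-- piece C2: one row -/
def StmC2 : Prop := ∀ (K M E : Set ℝ) (β : ℝ → ℕ → Bool), IsCompact K → M.Countable →
  E ⊆ K → FS E →
  (∀ x ∈ K, ∀ y ∈ K, x < y → ∃ s, (∀ r < s, β x r = β y r) ∧ β x s = false ∧ β y s = true) →
  (∀ s, ∀ x ∈ K, ∃ ε > 0, ∀ y ∈ K, |y - x| < ε → β y s = β x s) →
  ∃ b : ℝ → ℕ → Bool,
    (∀ x ∈ K, ∀ y ∈ K, ∀ s, (∀ r ≤ s, β x r = β y r) → b x s = b y s) ∧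
    (∀ x ∈ K, x ∈ E ↔ {s | b x s = true}.Finite) ∧
    (∀ x ∈ K, x ∈ M → ∃ s0, ∀ s ≥ s0, b x (s + 1) = b x s)

/-- piece CODE -/
def StmCODE : Prop := ∀ (p : ℕ) (K M : Set ℝ) (d : ℝ → ℕ) , IsCompact K → interior K = ∅ →
  M.Countable → (∀ x ∈ K, d x ≤ p) → (∀ i, FS {x | x ∈ K ∧ d x ≤ i}) →
  ∃ z : (ℕ → Bool) → ℝ → ℕ → ℕ,
    (∀ T, ∀ x ∈ K, Wd p (z T x)) ∧
    (∀ T, ∀ x ∈ K, ∀ y ∈ K, x < y → ∃ s, (∀ r < s, z T x r = z T y r) ∧ z T x s < z T y s) ∧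
    (∀ T, ∀ s, ∀ x ∈ K, ∃ ε > 0, ∀ y ∈ K, |y - x| < ε → z T y s = z T x s) ∧
    (∀ T, ∀ x ∈ K, lev p (z T x) = d x) ∧
    (∀ x ∈ K, x ∈ M → Per (z (fun _ => false) x)) ∧
    (∀ T, ∀ x ∈ K, ∀ s, (z T x s).testBit p = T s)

/-- piece CASM: CODE from C1, C2 -/
def StmCASM : Prop := StmC1 → StmC2 → StmCODE

/-- piece BLK: disjoint dense scaled copies of a nowhere dense compact set -/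
def StmBLK : Prop := ∀ B : Set ℝ, IsCompact B → B ⊆ Icc 0 1 → interior B = ∅ → B.Nonempty →
  ∃ (a δ : ℕ → ℝ), (∀ j, 0 < δ j) ∧
    (∀ j, (fun x => a j + δ j * x) '' B ⊆ Ioo 0 1) ∧
    (∀ i j, i ≠ j → Disjoint ((fun x => a i + δ i * x) '' B) ((fun x => a j + δ j * x) '' B)) ∧
    (∀ u v : ℝ, 0 ≤ u → u < v → v ≤ 1 → ∃ j, (fun x => a j + δ j * x) '' B ⊆ Ioo u v) ∧
    (∃ N : Set ℝ, N.Countable ∧ N ⊆ Ioo 0 1 ∧ (∀ x ∈ N, ∀ j, x ∉ (fun x => a j + δ j * x) '' B) ∧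
      ∀ u v : ℝ, 0 ≤ u → u < v → v ≤ 1 → ∃ x ∈ N, x ∈ Ioo u v)

/-- piece STD -/
def StmSTD : Prop := StmVAL → StmBCP → StmCODE → StmBLK → ∀ p, ∃ c Q κ, Std p c Q κ

/-- piece BLOW -/
def StmBLOW : Prop := ∀ Q : Set ℝ, Q.Countable → Q ⊆ Ioo 0 1 → ∃ π, Blow Q π

/-! ### Back and forth -/

/-- partial isomorphism with matching relation `R` -/
structure PI (R : ℝ → ℝ → Prop) (G : Set (ℝ × ℝ)) : Prop where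
  zero : ((0 : ℝ), (0 : ℝ)) ∈ G
  one : ((1 : ℝ), (1 : ℝ)) ∈ G
  box : ∀ g ∈ G, g.1 ∈ Icc (0 : ℝ) 1 ∧ g.2 ∈ Icc (0 : ℝ) 1
  ord : ∀ g ∈ G, ∀ h ∈ G, g.1 < h.1 ↔ g.2 < h.2
  cl1 : IsClosed (Prod.fst '' G)
  cl2 : IsClosed (Prod.snd '' G)
  rel : ∀ g ∈ G, g = (0, 0) ∨ g = (1, 1) ∨ R g.1 g.2

/-- piece GAP -/
def StmGAP : Prop := ∀ (R : ℝ → ℝ → Prop) (K : Set ℝ) (u v u' v' : ℝ), IsCompact K →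
  interior K = ∅ → u < v → u' < v' →
  (∀ K0 ⊆ K, IsCompact K0 → ∀ a b : ℝ, u' ≤ a → a < b → b ≤ v' →
    ∃ ψ, Emb K0 a b ψ ∧ ∀ x ∈ K0, R x (ψ x)) →
  ∃ H : Set (ℝ × ℝ), Prod.fst '' H = K ∩ Ioo u v ∧ (∀ g ∈ H, g.2 ∈ Ioo u' v') ∧
    (∀ g ∈ H, ∀ h ∈ H, g.1 < h.1 ↔ g.2 < h.2) ∧ IsClosed (Prod.snd '' H ∪ {u', v'}) ∧
    ∀ g ∈ H, R g.1 g.2

/-- piece STEP -/
def StmSTEP : Prop := StmGAP → ∀ (R : ℝ → ℝ → Prop) (G : Set (ℝ × ℝ)) (K : Set ℝ), PI R G →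
  IsCompact K → K ⊆ Ioo 0 1 → interior K = ∅ →
  (∀ K0 ⊆ K, IsCompact K0 → ∀ a b : ℝ, 0 ≤ a → a < b → b ≤ 1 →
    ∃ ψ, Emb K0 a b ψ ∧ ∀ x ∈ K0, R x (ψ x)) →
  ∃ G' : Set (ℝ × ℝ), G ⊆ G' ∧ PI R G' ∧ K ⊆ Prod.fst '' G'

/-- piece LIM -/
def StmLIM : Prop := ∀ G : Set (ℝ × ℝ), ((0 : ℝ), (0 : ℝ)) ∈ G → ((1 : ℝ), (1 : ℝ)) ∈ G →
  (∀ g ∈ G, g.1 ∈ Icc (0 : ℝ) 1 ∧ g.2 ∈ Icc (0 : ℝ) 1) →
  (∀ g ∈ G, ∀ h ∈ G, g.1 < h.1 ↔ g.2 < h.2) →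
  (∀ a b : ℝ, 0 ≤ a → a < b → b ≤ 1 → ∃ g ∈ G, g.1 ∈ Ioo a b) →
  (∀ a b : ℝ, 0 ≤ a → a < b → b ≤ 1 → ∃ g ∈ G, g.2 ∈ Ioo a b) →
  ∃ θ : ℝ → ℝ, StrictMonoOn θ (Icc 0 1) ∧ ContinuousOn θ (Icc 0 1) ∧ θ 0 = 0 ∧ θ 1 = 1 ∧
    ∀ g ∈ G, θ g.1 = g.2

def BFconcl : Prop := ∀ (R : ℝ → ℝ → Prop) (κ κ' : ℕ → Set ℝ),
  (∀ j, IsCompact (κ j) ∧ κ j ⊆ Ioo 0 1 ∧ interior (κ j) = ∅) →
  (∀ j, IsCompact (κ' j) ∧ κ' j ⊆ Ioo 0 1 ∧ interior (κ' j) = ∅) →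
  (∀ a b : ℝ, 0 ≤ a → a < b → b ≤ 1 → ∃ j, (κ j ∩ Ioo a b).Nonempty) →
  (∀ a b : ℝ, 0 ≤ a → a < b → b ≤ 1 → ∃ j, (κ' j ∩ Ioo a b).Nonempty) →
  (∀ j, ∀ K0 ⊆ κ j, IsCompact K0 → ∀ a b : ℝ, 0 ≤ a → a < b → b ≤ 1 →
    ∃ ψ, Emb K0 a b ψ ∧ ∀ x ∈ K0, R x (ψ x)) →
  (∀ j, ∀ K0 ⊆ κ' j, IsCompact K0 → ∀ a b : ℝ, 0 ≤ a → a < b → b ≤ 1 →
    ∃ ψ, Emb K0 a b ψ ∧ ∀ y ∈ K0, R (ψ y) y) →
  ∃ θ : ℝ → ℝ, StrictMonoOn θ (Icc 0 1) ∧ ContinuousOn θ (Icc 0 1) ∧ θ 0 = 0 ∧ θ 1 = 1 ∧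
    (∀ j, ∀ x ∈ κ j, R x (θ x)) ∧ ∀ j, ∀ x ∈ Icc (0 : ℝ) 1, θ x ∈ κ' j → R x (θ x)

/-- piece BF: assembly of the back-and-forth -/
def StmBF : Prop := StmGAP → StmSTEP → StmLIM → BFconcl

/-! ### From a continuous map to the collapsed line -/

/-- `kb` is nonconstant on every interval of `[0,1]` -/
def NC (kb : ℝ → ℝ) : Prop := ∀ u v : ℝ, 0 ≤ u → u < v → v ≤ 1 →
  ∃ s t, s ∈ Ioo u v ∧ t ∈ Ioo u v ∧ s < t ∧ kb s ≠ kb t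

/-- the points of `[0,1]` with nondegenerate `W`-fibre in `[a,b]` -/
def Fib (W : ℝ → ℝ) (a b : ℝ) : Set ℝ :=
  {y | ∃ s t, s ∈ Icc a b ∧ t ∈ Icc a b ∧ s < t ∧ W s = y ∧ W t = y}

/-- piece COL -/
def StmCOL : Prop := ∀ (k : ℝ → ℝ) (a b : ℝ), Continuous k → a < b → k a ≠ k b →
  ∃ W kb : ℝ → ℝ, ContinuousOn W (Icc a b) ∧ MonotoneOn W (Icc a b) ∧ W a = 0 ∧ W b = 1 ∧
    ContinuousOn kb (Icc 0 1) ∧ (∀ x ∈ Icc a b, kb (W x) = k x) ∧ NC kb ∧ (Fib W a b).Countable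

/-- piece HIT: first hitting map -/
def StmHIT : Prop := ∀ (k : ℝ → ℝ) (s t : ℝ), ContinuousOn k (Icc s t) → s < t → k s < k t →
  ∃ (g : ℝ → ℝ) (D : Set ℝ), D.Countable ∧ (∀ y ∈ Ioo (k s) (k t), g y ∈ Ioo s t ∧ k (g y) = y) ∧
    StrictMonoOn g (Ioo (k s) (k t)) ∧ ∀ y ∈ Ioo (k s) (k t), y ∉ D → ContinuousAt g y

/-- piece HF: forth embedding -/
def StmHF : Prop := StmHIT → ∀ (p : ℕ) (c : ℝ → ℕ) (Q : Set ℝ) (κ : ℕ → Set ℝ), Std p c Q κ →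
  ∀ (kb : ℝ → ℝ) (Q' : Set ℝ), ContinuousOn kb (Icc 0 1) → MapsTo kb (Icc 0 1) (Icc 0 1) → NC kb →
  Q'.Countable → ∀ j, ∀ K0 ⊆ κ j, IsCompact K0 → ∀ u v : ℝ, 0 ≤ u → u < v → v ≤ 1 →
    ∃ ψ, Emb K0 u v ψ ∧ ∀ x ∈ K0, c x = c (kb (ψ x)) ∧ ψ x ∉ Q'

/-- piece HB: back embedding -/
def StmHB : Prop := ∀ (p : ℕ) (c : ℝ → ℕ) (Q : Set ℝ) (κ : ℕ → Set ℝ), Std p c Q κ →
  ∀ (kb : ℝ → ℝ) (Q' : Set ℝ), ContinuousOn kb (Icc 0 1) → MapsTo kb (Icc 0 1) (Icc 0 1) → NC kb →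
  Q'.Countable → ∀ K0 : Set ℝ, IsCompact K0 → K0 ⊆ Icc 0 1 →
   ((∃ j, ∀ y ∈ K0, kb y ∈ κ j) ∨ (∃ q, K0 = {q} ∧ c (kb q) = p + 1)) →
   ∀ u v : ℝ, 0 ≤ u → u < v → v ≤ 1 →
    ∃ ψ, Emb K0 u v ψ ∧ ∀ y ∈ K0, c (ψ y) = c (kb y) ∧ (y ∈ Q' → ψ y ∈ Q)

/-- piece LIFT -/
def StmLIFT : Prop := ∀ (W φ : ℝ → ℝ) (a b : ℝ), a < b → ContinuousOn W (Icc a b) →
  MonotoneOn W (Icc a b) → W a = 0 → W b = 1 → Continuous φ → Monotone φ → range φ = Icc 0 1 →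
  (∀ y ∈ Ioo (0 : ℝ) 1, y ∈ Fib W a b → ∃ s t, s < t ∧ φ s = y ∧ φ t = y) →
  ∃ h : ℝ → ℝ, Continuous h ∧ ∀ t, h t ∈ Icc a b ∧ W (h t) = φ t

/-! ### Wadge reducibility -/

def WRed (A B : Set ℝ) : Prop := ∃ f : ℝ → ℝ, Continuous f ∧ A = f ⁻¹' B

def NOC (A : Set ℝ) : Prop := ¬ IsOpen A ∧ ¬ IsClosed A

def Minimal (A : Set ℝ) : Prop := MeasurableSet A ∧ NOC A ∧
  ∀ B : Set ℝ, MeasurableSet B → NOC B → WRed B A → WRed A B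

/-- the candidate -/
def X (c : ℝ → ℕ) (π : ℝ → ℝ) : Set ℝ := {t | Even (c (π t))}

/-- piece MAIN (assembly): every nontrivial set below `X` is above `X` -/
def StmMAIN : Prop := BFconcl → StmCOL → StmHIT → StmHF → StmHB → StmLIFT →
  ∀ (p : ℕ) (c : ℝ → ℕ) (Q : Set ℝ) (κ : ℕ → Set ℝ) (π : ℝ → ℝ), Std p c Q κ → Blow Q π →
  ∀ f : ℝ → ℝ, Continuous f → (∃ t, f t ∈ X c π) → (∃ t, f t ∉ X c π) →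
    WRed (X c π) (f ⁻¹' X c π)

/-- piece NOC -/
def StmNOC : Prop := ∀ (p : ℕ) (c : ℝ → ℕ) (Q : Set ℝ) (κ : ℕ → Set ℝ) (π : ℝ → ℝ),
  Std p c Q κ → Blow Q π → NOC (X c π) ∧ MeasurableSet (X c π) ∧
    ∀ i, FS {t | c (π t) ≤ i}

/-! ### Inequivalence -/

noncomputable def levR {p : ℕ} (b : Fin p → ℕ → Bool) : ℕ :=
  sInf {i | i = p ∨ ∃ h : i < p, {s | b ⟨i, h⟩ s = true}.Finite}

/-- piece RANK -/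
def StmRANK : Prop := ∀ (p : ℕ) (e : (Fin p → ℕ → Bool) → ℕ), (∀ i, FS {b | e b ≤ i}) →
  (∀ b, Even (e b) ↔ Even (levR b)) → ∃ b, p ≤ e b

/-- piece NEQ -/
def StmNEQ : Prop := StmVAL → StmBCP → StmRANK → ∀ (p : ℕ) (c : ℝ → ℕ) (Q : Set ℝ) (κ : ℕ → Set ℝ)
  (π : ℝ → ℝ), Std p c Q κ → Blow Q π → ∀ e : ℝ → ℕ, (∀ i, FS {t | e t ≤ i}) →
  (∀ t, Even (e t) ↔ Even (c (π t))) → ∃ t, p ≤ e t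

def Final : Prop := ∃ Y : ℕ → Set ℝ, (∀ n, Minimal (Y n)) ∧
  ∀ n m, n ≠ m → ¬ (WRed (Y n) (Y m) ∧ WRed (Y m) (Y n))

/-- piece FIN -/
def StmFIN : Prop := (∀ p, ∃ c Q κ, Std p c Q κ) → StmBLOW →
  (∀ (p : ℕ) (c : ℝ → ℕ) (Q : Set ℝ) (κ : ℕ → Set ℝ) (π : ℝ → ℝ), Std p c Q κ → Blow Q π →
    ∀ f : ℝ → ℝ, Continuous f → (∃ t, f t ∈ X c π) → (∃ t, f t ∉ X c π) →
    WRed (X c π) (f ⁻¹' X c π)) → StmNOC →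
  (∀ (p : ℕ) (c : ℝ → ℕ) (Q : Set ℝ) (κ : ℕ → Set ℝ) (π : ℝ → ℝ), Std p c Q κ → Blow Q π →
    ∀ e : ℝ → ℕ, (∀ i, FS {t | e t ≤ i}) →
    (∀ t, Even (e t) ↔ Even (c (π t))) → ∃ t, p ≤ e t) → Final

end Pool.Agent.R135.WM
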