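import Mathlib
import Pool.Agent.R135.WM.Stm

set_option autoImplicit false

namespace Pool.Agent.R135.WM

open Set Topology

namespace NOCpf

lemma FS_of_closed {X : Type*} [TopologicalSpace X] {S : Set X} (h : IsClosed S) : FS S :=
  ⟨fun _ => S, fun _ => h, iUnion_const S⟩

lemma FS_iUnion {X : Type*} [TopologicalSpace X] {S : ℕ → Set X} (h : ∀ j, FS (S j)) :
    FS (⋃ j, S j) := by
  choose E hE hU using h
  refine ⟨fun n => E (Nat.unpair n).1 (Nat.unpair n).2, fun n => hE _ _, ?_⟩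
  ext x
  simp only [mem_iUnion]
  constructor
  · rintro ⟨n, hn⟩
    refine ⟨(Nat.unpair n).1, ?_⟩
    rw [← hU]
    exact mem_iUnion.mpr ⟨_, hn⟩
  · rintro ⟨j, hj⟩
    rw [← hU] at hj
    obtain ⟨m, hm⟩ := mem_iUnion.mp hj
    exact ⟨Nat.pair j m, by simpa using hm⟩

lemma FS_preimage {X Y : Type*} [TopologicalSpace X] [TopologicalSpace Y] {f : X → Y}
    (hf : Continuous f) {S : Set Y} (h : FS S) : FS (f ⁻¹' S) := by
  obtain ⟨E, hE, hU⟩ := h
  refine ⟨fun n => f ⁻¹' E n, fun n => (hE n).preimage hf, ?_⟩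
  rw [← hU, preimage_iUnion]

lemma FS_meas {S : Set ℝ} (h : FS S) : MeasurableSet S := by
  obtain ⟨E, hE, hU⟩ := h
  rw [← hU]
  exact MeasurableSet.iUnion fun n => (hE n).measurableSet

lemma top_pt {Q : Set ℝ} {π : ℝ → ℝ} (h : Blow Q π) {x : ℝ} (hx : x ∈ Ioo (0 : ℝ) 1) :
    ∃ t, π t = x ∧ ∀ s, t < s → x < π s := by
  have hx' : x ∈ range π := by
    rw [h.rng]
    exact ⟨hx.1.le, hx.2.le⟩
  obtain ⟨s, hs⟩ := hx'
  have h1 : (1 : ℝ) ∈ range π := by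
    rw [h.rng]
    exact ⟨zero_le_one, le_rfl⟩
  obtain ⟨r, hr⟩ := h1
  set S : Set ℝ := {t | π t = x} with hS
  have hSc : IsClosed S := isClosed_eq h.cont continuous_const
  have hSb : BddAbove S := by
    refine ⟨r, fun t ht => ?_⟩
    by_contra hlt
    push Not at hlt
    have := h.mono hlt.le
    rw [hr, show π t = x from ht] at this
    exact absurd hx.2 (not_lt.mpr this)
  have hmem : sSup S ∈ S := hSc.csSup_mem ⟨s, hs⟩ hSb
  refine ⟨sSup S, hmem, fun u hu => ?_⟩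
  have h2 : x ≤ π u := by
    have := h.mono hu.le
    rwa [show π (sSup S) = x from hmem] at this
  refine lt_of_le_of_ne h2 fun he => ?_
  exact absurd (le_csSup hSb (show u ∈ S from he.symm)) (not_le.mpr hu)

lemma hit {Q : Set ℝ} {π : ℝ → ℝ} (h : Blow Q π) (P : ℝ → Prop)
    (hP : ∀ u v : ℝ, 0 ≤ u → u < v → v ≤ 1 → ∃ y ∈ Ioo u v, P y) {S : Set ℝ} (hS : IsOpen S)
    {x t : ℝ} (hx : π t = x) (ht : ∀ s, t < s → x < π s) (htS : t ∈ S) :
    ∃ s ∈ S, P (π s) := by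
  obtain ⟨ε, hε, hball⟩ := Metric.isOpen_iff.mp hS t htS
  have hlt : t < t + ε / 2 := by linarith
  have hxr : ∀ s, π s ∈ Icc (0 : ℝ) 1 := by
    intro s
    rw [← h.rng]
    exact ⟨s, rfl⟩
  obtain ⟨y, hy, hPy⟩ := hP x (π (t + ε / 2)) (hx ▸ (hxr t).1) (ht _ hlt) (hxr _).2
  have hiv := intermediate_value_Icc hlt.le h.cont.continuousOn
  obtain ⟨s, hs, hsy⟩ := hiv ⟨by rw [hx]; exact hy.1.le, hy.2.le⟩
  refine ⟨s, hball ?_, hsy ▸ hPy⟩
  rw [Metric.mem_ball, Real.dist_eq, abs_lt]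
  constructor <;> linarith [hs.1, hs.2]

lemma level_dense {p : ℕ} {c : ℝ → ℕ} {Q : Set ℝ} {κ : ℕ → Set ℝ} (h : Std p c Q κ) {i : ℕ}
    (hi : i ≤ p) (u v : ℝ) (hu : 0 ≤ u) (huv : u < v) (hv : v ≤ 1) :
    ∃ y ∈ Ioo u v, c y = i := by
  have hFS : ∀ k, FS {x : ℝ | x ∈ ({0} : Set ℝ) ∧ (fun _ : ℝ => i) x ≤ k} := by
    intro k
    apply FS_of_closed
    by_cases hk : i ≤ k
    · have : {x : ℝ | x ∈ ({0} : Set ℝ) ∧ i ≤ k} = {0} := by
        ext x
        simp [hk]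
      show IsClosed {x : ℝ | x ∈ ({0} : Set ℝ) ∧ i ≤ k}
      rw [this]
      exact isClosed_singleton
    · have : {x : ℝ | x ∈ ({0} : Set ℝ) ∧ i ≤ k} = ∅ := by
        ext x
        simp [hk]
      show IsClosed {x : ℝ | x ∈ ({0} : Set ℝ) ∧ i ≤ k}
      rw [this]
      exact isClosed_empty
  obtain ⟨ψ, hψ, hc, -⟩ := h.UB {0} (fun _ => i) ∅ isCompact_singleton (interior_singleton 0)
    countable_empty (fun _ _ => hi) hFS u v hu huv hv
  exact ⟨ψ 0, hψ.2.2 rfl, hc 0 rfl⟩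

lemma even_dense {p : ℕ} {c : ℝ → ℕ} {Q : Set ℝ} {κ : ℕ → Set ℝ} (h : Std p c Q κ)
    (u v : ℝ) (hu : 0 ≤ u) (huv : u < v) (hv : v ≤ 1) : ∃ y ∈ Ioo u v, Even (c y) := by
  obtain ⟨y, hy, hc⟩ := level_dense h (Nat.zero_le p) u v hu huv hv
  exact ⟨y, hy, by rw [hc]; exact Even.zero⟩

lemma odd_dense {p : ℕ} {c : ℝ → ℕ} {Q : Set ℝ} {κ : ℕ → Set ℝ} (h : Std p c Q κ)
    (u v : ℝ) (hu : 0 ≤ u) (huv : u < v) (hv : v ≤ 1) : ∃ y ∈ Ioo u v, ¬ Even (c y) := by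
  rcases Nat.eq_zero_or_pos p with hp | hp
  · obtain ⟨q, -, hq, hc⟩ := h.qtop u v hu huv hv
    refine ⟨q, hq, ?_⟩
    rw [hc, hp]
    decide
  · obtain ⟨y, hy, hc⟩ := level_dense h hp u v hu huv hv
    refine ⟨y, hy, ?_⟩
    rw [hc]
    decide

lemma FS_lev {p : ℕ} {c : ℝ → ℕ} {Q : Set ℝ} {κ : ℕ → Set ℝ} (h : Std p c Q κ) (i : ℕ) :
    FS {x | c x ≤ i} := by
  by_cases hi : i ≤ p
  · have : {x | c x ≤ i} = ⋃ j, {x | x ∈ κ j ∧ c x ≤ i} := by
      ext x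
      simp only [mem_iUnion]
      constructor
      · intro hx
        have hx' : c x ≤ i := hx
        obtain ⟨j, hj⟩ := (h.lev x).mp (hx'.trans hi)
        exact ⟨j, hj, hx'⟩
      · rintro ⟨j, -, hx⟩
        exact hx
    rw [this]
    exact FS_iUnion fun j => h.sig j i
  · have : {x | c x ≤ i} = univ := by
      ext x
      simp only [mem_univ, iff_true]
      exact (h.top x).trans (by omega)
    rw [this]
    exact FS_of_closed isClosed_univ

end NOCpf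

open NOCpf in
/-- piece NOC -/
theorem noc : StmNOC := by
  intro p c Q κ π hS hB
  have hF : ∀ i, FS {t | c (π t) ≤ i} := fun i => FS_preimage hB.cont (FS_lev hS i)
  refine ⟨⟨fun ho => ?_, fun hc => ?_⟩, ?_, hF⟩
  · obtain ⟨x, hx, hxe⟩ := even_dense hS 0 1 le_rfl one_pos le_rfl
    obtain ⟨t, ht, htt⟩ := top_pt hB hx
    have htX : t ∈ X c π := by
      show Even (c (π t))
      rw [ht]
      exact hxe
    obtain ⟨s, hs, hsP⟩ := hit hB (fun y => ¬ Even (c y)) (odd_dense hS) ho ht htt htX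
    exact hsP hs
  · obtain ⟨x, hx, hxe⟩ := odd_dense hS 0 1 le_rfl one_pos le_rfl
    obtain ⟨t, ht, htt⟩ := top_pt hB hx
    have htX : t ∈ (X c π)ᶜ := by
      show ¬ Even (c (π t))
      rw [ht]
      exact hxe
    obtain ⟨s, hs, hsP⟩ := hit hB (fun y => Even (c y)) (even_dense hS) hc.isOpen_compl ht htt htX
    exact hs hsP
  · have hm : Measurable fun t => c (π t) := by
      refine measurable_of_Iic fun i => ?_
      exact FS_meas (hF i)
    have : X c π = (fun t => c (π t)) ⁻¹' {n | Even n} := rfl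
    rw [this]
    exact hm (MeasurableSet.of_discrete)

end Pool.Agent.R135.WM
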