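import Pool.Agent.R135.WM.Stm

/-! Piece RANK of the project WM (helper857). -/

set_option autoImplicit false

namespace Pool.Agent.R135.WM

open Set Topology Filter

namespace Rank

theorem meagre_inter {X : Type*} [TopologicalSpace X] {E U : Set X} (hE : IsClosed E)
    (h : interior E ∩ U = ∅) : IsMeagre (E ∩ U) := by
  have h1 : IsNowhereDense (frontier E) :=
    (isClosed_frontier.isNowhereDense_iff).2 (interior_frontier hE)
  refine h1.isMeagre.mono ?_
  rintro x ⟨hx, hU⟩
  rw [hE.frontier_eq]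
  exact ⟨hx, fun hi => by
    have : x ∈ interior E ∩ U := ⟨hi, hU⟩
    rw [h] at this; exact this⟩

theorem exists_generic {X : Type*} [TopologicalSpace X] [BaireSpace X] {U M : Set X}
    (hU : IsOpen U) (hne : U.Nonempty) (hM : IsMeagre M) : ∃ b ∈ U, b ∉ M := by
  by_contra hc
  push Not at hc
  exact not_isMeagre_of_isOpen hU hne (hM.mono hc)

def Row (p : ℕ) (i : Fin p) (n : ℕ) : Set (Fin p → ℕ → Bool) := {b | ∀ s ≥ n, b i s = false}

theorem row_closed (p : ℕ) (i : Fin p) (n : ℕ) : IsClosed (Row p i n) := by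
  have : Row p i n = ⋂ s, ⋂ (_ : s ≥ n), {b | b i s = false} := by
    ext b; simp [Row]
  rw [this]
  refine isClosed_iInter fun s => isClosed_iInter fun _ => ?_
  exact isClosed_eq ((continuous_apply s).comp (continuous_apply i)) continuous_const

theorem row_int (p : ℕ) (i : Fin p) (n : ℕ) : interior (Row p i n) = ∅ := by
  by_contra hne
  obtain ⟨b, hb⟩ := Set.nonempty_iff_ne_empty.2 hne
  let f : ℕ → (Fin p → ℕ → Bool) := fun k => Function.update b i (Function.update (b i) (n + k) true)
  have hf : Tendsto f atTop (𝓝 b) := by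
    rw [tendsto_pi_nhds]
    intro i'
    rw [tendsto_pi_nhds]
    intro s
    refine tendsto_const_nhds.congr' ?_
    filter_upwards [eventually_gt_atTop s] with k hk
    by_cases hi : i' = i
    · subst hi
      simp only [f, Function.update_self]
      rw [Function.update_of_ne]
      omega
    · simp only [f]
      rw [Function.update_of_ne hi]
  have h1 : ∀ᶠ k in atTop, f k ∈ interior (Row p i n) :=
    hf (isOpen_interior.mem_nhds hb)
  obtain ⟨k, hk⟩ := h1.exists
  have h2 := interior_subset hk (n + k) (by omega)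
  simp [f] at h2

theorem row_meagre (p : ℕ) : IsMeagre (⋃ i, ⋃ n, Row p i n) := by
  refine isMeagre_iUnion fun i => isMeagre_iUnion fun n => ?_
  exact (((row_closed p i n).isNowhereDense_iff).2 (row_int p i n)).isMeagre

theorem levR_generic {p : ℕ} {b : Fin p → ℕ → Bool} (hb : b ∉ ⋃ i, ⋃ n, Row p i n) :
    levR b = p := by
  have hset : {i | i = p ∨ ∃ h : i < p, {s | b ⟨i, h⟩ s = true}.Finite} = {p} := by
    ext i
    constructor
    · rintro (rfl | ⟨h, hf⟩)
      · rfl
      · exfalso
        obtain ⟨n, hn⟩ := hf.bddAbove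
        apply hb
        refine mem_iUnion.2 ⟨⟨i, h⟩, mem_iUnion.2 ⟨n + 1, fun s hs => ?_⟩⟩
        by_contra hc
        have : s ∈ {s | b ⟨i, h⟩ s = true} := by simpa using hc
        have := hn this
        omega
    · rintro rfl; exact Or.inl rfl
  unfold levR
  rw [hset]
  exact csInf_singleton p

def emb {p : ℕ} (r : ℕ → Bool) (c : Fin p → ℕ → Bool) : Fin (p + 1) → ℕ → Bool :=
  fun i => if h : (i : ℕ) < p then c ⟨i, h⟩ else r

theorem emb_cont {p : ℕ} (r : ℕ → Bool) : Continuous (emb (p := p) r) := by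
  refine continuous_pi fun i => ?_
  unfold emb
  by_cases h : (i : ℕ) < p
  · simp only [h, dite_true]
    exact continuous_apply _
  · simp only [h, dite_false]
    exact continuous_const

theorem levR_emb {p : ℕ} (r : ℕ → Bool) (hr : {s | r s = true}.Finite) (c : Fin p → ℕ → Bool) :
    levR (emb r c) = levR c := by
  unfold levR
  set A := {i | i = p + 1 ∨ ∃ h : i < p + 1, {s | emb r c ⟨i, h⟩ s = true}.Finite} with hA
  set B := {i | i = p ∨ ∃ h : i < p, {s | c ⟨i, h⟩ s = true}.Finite} with hB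
  have hpA : p ∈ A := Or.inr ⟨Nat.lt_succ_self p, by simpa [emb] using hr⟩
  have hBA : B ⊆ A := by
    rintro i (rfl | ⟨h, hf⟩)
    · exact hpA
    · refine Or.inr ⟨Nat.lt_succ_of_lt h, ?_⟩
      simpa [emb, h] using hf
  have hBne : B.Nonempty := ⟨p, Or.inl rfl⟩
  have hAne : A.Nonempty := ⟨p, hpA⟩
  apply le_antisymm
  · exact Nat.sInf_le (hBA (Nat.sInf_mem hBne))
  · have h1 : sInf A ≤ p := Nat.sInf_le hpA
    have h2 := Nat.sInf_mem hAne
    apply Nat.sInf_le
    rcases h2 with h2 | ⟨h, hf⟩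
    · omega
    · rcases Nat.lt_or_ge (sInf A) p with h3 | h3
      · refine Or.inr ⟨h3, ?_⟩
        simpa [emb, h3] using hf
      · exact Or.inl (le_antisymm h1 h3)

theorem key : ∀ (p : ℕ) (U : Set (Fin p → ℕ → Bool)) (e : (Fin p → ℕ → Bool) → ℕ),
    IsOpen U → U.Nonempty → (∀ i, FS {b | e b ≤ i}) →
    (∀ b, Even (e b) ↔ Even (levR b)) → ∃ b ∈ U, p ≤ e b := by
  intro p
  induction p with
  | zero =>
    intro U e _ hne _ _
    obtain ⟨b, hb⟩ := hne
    exact ⟨b, hb, Nat.zero_le _⟩
  | succ p ih =>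
    intro U e hU hne hFS hpar
    classical
    choose E hEc hEu using hFS
    have hmem : ∀ b j, e b ≤ j ↔ ∃ m, b ∈ E j m := by
      intro b j
      have : b ∈ {b | e b ≤ j} ↔ b ∈ ⋃ m, E j m := by rw [hEu j]
      simpa using this
    let P : ℕ → Prop := fun j => ∃ U' : Set (Fin (p + 1) → ℕ → Bool), IsOpen U' ∧ U'.Nonempty ∧
      U' ⊆ U ∧ ∀ b ∈ U', e b ≤ j
    have hstep : ∀ j, ¬ P j → ∀ V ⊆ U, IsOpen V → ∀ m, interior (E j m) ∩ V = ∅ := by
      intro j hj V hV hVo m
      by_contra hc
      obtain ⟨b, hb⟩ := Set.nonempty_iff_ne_empty.2 hc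
      exact hj ⟨interior (E j m) ∩ V, isOpen_interior.inter hVo, ⟨b, hb⟩,
        fun x hx => hV hx.2, fun x hx => (hmem x j).2 ⟨m, interior_subset hx.1⟩⟩
    have hex : ∃ j, P j := by
      by_contra hc
      push Not at hc
      have hM : IsMeagre (⋃ j, ⋃ m, E j m ∩ U) := by
        refine isMeagre_iUnion fun j => isMeagre_iUnion fun m => ?_
        exact meagre_inter (hEc j m) (hstep j (hc j) U Subset.rfl hU m)
      obtain ⟨b, hbU, hb⟩ := exists_generic hU hne hM
      obtain ⟨m, hm⟩ := (hmem b (e b)).1 le_rfl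
      exact hb (mem_iUnion.2 ⟨e b, mem_iUnion.2 ⟨m, hm, hbU⟩⟩)
    obtain ⟨U', hU'o, hU'ne, hU'U, hU'e⟩ := Nat.find_spec hex
    set j0 := Nat.find hex with hj0
    have hmin : ∀ j < j0, ¬ P j := fun j hj => Nat.find_min hex hj
    -- generic point
    have hM1 : IsMeagre (⋃ j : {j // j < j0}, ⋃ m, E j.1 m ∩ U') := by
      refine isMeagre_iUnion fun j => isMeagre_iUnion fun m => ?_
      exact meagre_inter (hEc j.1 m) (hstep j.1 (hmin j.1 j.2) U' hU'U hU'o m)
    have hM2 := row_meagre (p + 1)
    obtain ⟨b, hbU', hb⟩ := exists_generic hU'o hU'ne (hM1.union hM2)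
    have hb1 : e b = j0 := by
      apply le_antisymm (hU'e b hbU')
      by_contra hc
      push Not at hc
      obtain ⟨m, hm⟩ := (hmem b (e b)).1 le_rfl
      exact hb (Or.inl (mem_iUnion.2 ⟨⟨e b, hc⟩, mem_iUnion.2 ⟨m, hm, hbU'⟩⟩))
    have hb2 : levR b = p + 1 := levR_generic fun h => hb (Or.inr h)
    have hb3 : Even j0 ↔ Even (p + 1) := by rw [← hb1, ← hb2]; exact hpar b
    -- slice
    obtain ⟨b0, hb0⟩ := hU'ne
    let r : ℕ → ℕ → Bool := fun N s => if s < N then b0 (Fin.last p) s else false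
    let c0 : Fin p → ℕ → Bool := fun i => b0 i.castSucc
    have hlim : Tendsto (fun N => emb (r N) c0) atTop (𝓝 b0) := by
      rw [tendsto_pi_nhds]
      intro i
      rw [tendsto_pi_nhds]
      intro s
      refine tendsto_const_nhds.congr' ?_
      filter_upwards [eventually_gt_atTop s] with N hN
      by_cases h : (i : ℕ) < p
      · simp only [emb, h, dite_true, c0]
        rfl
      · have hi : i = Fin.last p := by
          apply Fin.ext
          simp only [Fin.val_last]
          omega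
        subst hi
        simp [emb, r, hN]
    have hev : ∀ᶠ N in atTop, emb (r N) c0 ∈ U' := hlim (hU'o.mem_nhds hb0)
    obtain ⟨N, hN⟩ := hev.exists
    have hrfin : {s | r N s = true}.Finite := by
      refine (Set.finite_lt_nat N).subset fun s hs => ?_
      by_contra hc
      have hc' : ¬ s < N := hc
      have : r N s = false := by
        simp only [r]
        rw [if_neg hc']
      rw [mem_setOf_eq, this] at hs
      exact absurd hs (by decide)
    obtain ⟨c, hcU, hc⟩ := ih (emb (r N) ⁻¹' U') (fun c => e (emb (r N) c))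
      (hU'o.preimage (emb_cont _)) ⟨c0, hN⟩
      (fun i => ⟨fun m => emb (r N) ⁻¹' (E i m), fun m => (hEc i m).preimage (emb_cont _), by
        ext c
        simp only [mem_iUnion, mem_preimage, mem_setOf_eq]
        exact (hmem _ _).symm⟩)
      (fun c => by rw [hpar, levR_emb _ hrfin])
    have h1 : p ≤ j0 := hc.trans (hU'e _ hcU)
    refine ⟨b, hU'U hbU', ?_⟩
    rw [hb1]
    rcases Nat.lt_or_ge p j0 with h2 | h2
    · exact h2
    · exfalso
      have h3 : j0 = p := le_antisymm h2 h1
      rw [h3] at hb3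
      rw [Nat.even_add_one] at hb3
      by_cases hp : Even p
      · exact (hb3.1 hp) hp
      · exact hp (hb3.2 hp)

end Rank

theorem rank : StmRANK := by
  intro p e hFS hpar
  obtain ⟨b, _, hb⟩ := Rank.key p univ e isOpen_univ ⟨fun _ _ => false, mem_univ _⟩ hFS hpar
  exact ⟨b, hb⟩

end Pool.Agent.R135.WM
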