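import Pool.Agent.R135.WM.Stm

/-! Project WM, piece STD: the standard level structure exists. -/

namespace Pool.Agent.R135.WM

open Set Topology

theorem V_inj (hV : StmVAL) (p : ℕ) {L L' : ℕ → ℕ} (h : Wd p L) (h' : Wd p L')
    (he : V p L = V p L') : L = L' := by
  classical
  by_contra hne
  have hex : ∃ s, L s ≠ L' s := by
    by_contra hc
    push Not at hc
    exact hne (funext hc)
  have h1 := Nat.find_spec hex
  have h2 : ∀ r < Nat.find hex, L r = L' r := fun r hr => not_not.1 (Nat.find_min hex hr)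
  rcases lt_or_gt_of_ne h1 with h3 | h3
  · exact absurd he (ne_of_lt ((hV p).1 L L' h h' _ h2 h3))
  · exact absurd he.symm (ne_of_lt ((hV p).1 L' L h' h _ (fun r hr => (h2 r hr).symm) h3))

theorem unc : Uncountable (ℕ → Bool) := by
  rw [← Cardinal.aleph0_lt_mk_iff]
  have h := Cardinal.cantor Cardinal.aleph0
  simpa using h

theorem per_countable : {L : ℕ → ℕ | Per L}.Countable := by
  let f : ℕ × List ℕ → (ℕ → ℕ) := fun q n =>
    if n < q.1 then q.2.getD n 0 else q.2.getD (q.1 + (n - q.1) % 2) 0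
  refine (countable_range f).mono ?_
  rintro L ⟨s0, hs⟩
  have h1 : ∀ k, L (s0 + k) = L (s0 + k % 2) := by
    intro k
    induction k using Nat.strong_induction_on with
    | _ k ih =>
      rcases Nat.lt_or_ge k 2 with hk | hk
      · rw [Nat.mod_eq_of_lt hk]
      · have h2 := hs (s0 + (k - 2)) (by omega)
        have e : s0 + (k - 2) + 2 = s0 + k := by omega
        rw [e] at h2
        rw [h2, ih (k - 2) (by omega)]
        congr 2
        omega
  refine ⟨(s0, (List.range (s0 + 2)).map L), ?_⟩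
  funext n
  have hget : ∀ m, m < s0 + 2 → ((List.range (s0 + 2)).map L).getD m 0 = L m := by
    intro m hm
    rw [List.getD_eq_getElem _ _ (by simpa using hm)]
    simp
  by_cases hn : n < s0
  · simp only [f, hn, if_true]
    exact hget n (by omega)
  · simp only [f, hn, if_false]
    rw [hget _ (by omega)]
    have := h1 (n - s0)
    rw [← this]
    congr 1
    omega

section
variable (a δ : ℕ → ℝ) (p : ℕ)

/-- `x` has level `i` -/
def RL (x : ℝ) (i : ℕ) : Prop := ∃ j L, Wd p L ∧ x = a j + δ j * V p L ∧ lev p L = i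

open Classical in
/-- the level function -/
noncomputable def cc (x : ℝ) : ℕ := if h : ∃ i, RL a δ p x i then h.choose else p + 1

/-- the `j`-th copy -/
def kk (j : ℕ) : Set ℝ := (fun x => a j + δ j * x) '' Blk p

theorem mem_kk {x : ℝ} {j : ℕ} : x ∈ kk a δ p j ↔ ∃ L, Wd p L ∧ x = a j + δ j * V p L := by
  constructor
  · rintro ⟨y, ⟨L, hL, rfl⟩, rfl⟩
    exact ⟨L, hL, rfl⟩
  · rintro ⟨L, hL, rfl⟩
    exact ⟨V p L, ⟨L, hL, rfl⟩, rfl⟩

theorem word_unique (hV : StmVAL) (hδ : ∀ j, 0 < δ j)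
    (hd : ∀ i j, i ≠ j → Disjoint (kk a δ p i) (kk a δ p j)) {i j : ℕ} {L L' : ℕ → ℕ}
    (hL : Wd p L) (hL' : Wd p L') (he : a i + δ i * V p L = a j + δ j * V p L') :
    i = j ∧ L = L' := by
  have hij : i = j := by
    by_contra hne
    exact Set.disjoint_left.1 (hd i j hne) ((mem_kk a δ p).2 ⟨L, hL, rfl⟩)
      ((mem_kk a δ p).2 ⟨L', hL', he⟩)
  subst hij
  refine ⟨rfl, V_inj hV p hL hL' ?_⟩
  have h1 : δ i * V p L = δ i * V p L' := by linarith
  exact mul_left_cancel₀ (ne_of_gt (hδ i)) h1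

theorem cc_eq (hV : StmVAL) (hδ : ∀ j, 0 < δ j)
    (hd : ∀ i j, i ≠ j → Disjoint (kk a δ p i) (kk a δ p j)) (j : ℕ) {L : ℕ → ℕ}
    (hL : Wd p L) : cc a δ p (a j + δ j * V p L) = lev p L := by
  have h : ∃ i, RL a δ p (a j + δ j * V p L) i := ⟨_, j, L, hL, rfl, rfl⟩
  unfold cc
  rw [dif_pos h]
  obtain ⟨j', L', hL', he, hl⟩ := h.choose_spec
  rw [← hl, (word_unique a δ p hV hδ hd hL hL' he).2]

theorem lev_le (L : ℕ → ℕ) : lev p L ≤ p := Nat.sInf_le (Or.inl rfl)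

theorem cc_top {x : ℝ} (h : ∀ j, x ∉ kk a δ p j) : cc a δ p x = p + 1 := by
  unfold cc
  rw [dif_neg]
  rintro ⟨i, j, L, hL, he, -⟩
  exact h j ((mem_kk a δ p).2 ⟨L, hL, he⟩)

/-- the affine homeomorphism -/
noncomputable def aff (hδ : ∀ j, 0 < δ j) (j : ℕ) : ℝ ≃ₜ ℝ :=
  (Homeomorph.mulLeft₀ (δ j) (ne_of_gt (hδ j))).trans (Homeomorph.addLeft (a j))

theorem aff_apply (hδ : ∀ j, 0 < δ j) (j : ℕ) (x : ℝ) : aff a δ hδ j x = a j + δ j * x := rfl

end

theorem std : StmSTD := by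
  classical
  intro hV hB hC hK p
  obtain ⟨hcp, hint, hfs⟩ := hB p
  have hsub01 : Blk p ⊆ Icc 0 1 := by
    rintro x ⟨L, hL, rfl⟩
    exact (hV p).2.1 L hL
  have hne : (Blk p).Nonempty := ⟨_, fun _ => 0, fun s => by positivity, rfl⟩
  obtain ⟨a, δ, hδ, hs, hd', hden', N, hNc, hN01, hNk, hNd⟩ := hK (Blk p) hcp hsub01 hint hne
  have hd : ∀ i j, i ≠ j → Disjoint (kk a δ p i) (kk a δ p j) := hd'
  have himg : ∀ j (S : Set ℝ), (fun x => a j + δ j * x) '' S = aff a δ hδ j '' S := by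
    intro j S; rfl
  -- the embedding lemma
  have key : ∀ (K M : Set ℝ) (d : ℝ → ℕ), IsCompact K → interior K = ∅ → M.Countable →
      (∀ x ∈ K, d x ≤ p) → (∀ i, FS {x | x ∈ K ∧ d x ≤ i}) →
      ∀ u v : ℝ, 0 ≤ u → u < v → v ≤ 1 → ∃ (j : ℕ) (z : (ℕ → Bool) → ℝ → ℕ → ℕ),
        (∀ T, ∀ x ∈ K, Wd p (z T x)) ∧
        (∀ T, Emb K u v fun x => a j + δ j * V p (z T x)) ∧
        (∀ T, ∀ x ∈ K, cc a δ p (a j + δ j * V p (z T x)) = d x) ∧
        (∀ x ∈ K, x ∈ M → Per (z (fun _ => false) x)) ∧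
        (∀ T, ∀ x ∈ K, ∀ s, (z T x s).testBit p = T s) := by
    intro K M d hKc hKi hM hdp hF u v h0 huv h1
    obtain ⟨j, hj⟩ := hden' u v h0 huv h1
    obtain ⟨z, z1, z2, z3, z4, z5, z6⟩ := hC p K M d hKc hKi hM hdp hF
    refine ⟨j, z, z1, fun T => ⟨?_, ?_, ?_⟩, fun T x hx => ?_, z5, z6⟩
    · intro x hx y hy hxy
      obtain ⟨s, hs1, hs2⟩ := z2 T x hx y hy hxy
      have h3 := (hV p).1 _ _ (z1 T x hx) (z1 T y hy) s hs1 hs2
      have h4 := mul_lt_mul_of_pos_left h3 (hδ j)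
      change a j + δ j * V p (z T x) < a j + δ j * V p (z T y)
      linarith
    · have hcont : ContinuousOn (fun x => V p (z T x)) K := by
        intro x hx
        rw [ContinuousWithinAt, Metric.tendsto_nhds]
        intro ε hε
        obtain ⟨s, hs3⟩ := (hV p).2.2 ε hε
        have hev : ∀ r ∈ Set.Iio s, ∀ᶠ y in 𝓝[K] x, z T y r = z T x r := by
          intro r _
          obtain ⟨η, hη, hh⟩ := z3 T r x hx
          have h5 : ∀ᶠ y in 𝓝[K] x, y ∈ Metric.ball x η :=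
            mem_nhdsWithin_of_mem_nhds (Metric.ball_mem_nhds x hη)
          have h6 : ∀ᶠ y in 𝓝[K] x, y ∈ K := self_mem_nhdsWithin
          filter_upwards [h5, h6] with y hy1 hy2
          exact hh y hy2 (by rwa [Metric.mem_ball, Real.dist_eq] at hy1)
        have hev2 := (Filter.eventually_all_finite (Set.finite_Iio s)).2 hev
        have h6 : ∀ᶠ y in 𝓝[K] x, y ∈ K := self_mem_nhdsWithin
        filter_upwards [hev2, h6] with y hy1 hy2
        rw [Real.dist_eq]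
        exact hs3 _ _ (z1 T y hy2) (z1 T x hx) (fun r hr => hy1 r hr)
      exact continuousOn_const.add (continuousOn_const.mul hcont)
    · intro x hx
      exact hj ⟨_, ⟨_, z1 T x hx, rfl⟩, rfl⟩
    · rw [cc_eq a δ p hV hδ hd j (z1 T x hx), z4 T x hx]
  refine ⟨cc a δ p, {x | ∃ j L, Wd p L ∧ Per L ∧ x = a j + δ j * V p L} ∪ N, kk a δ p,
    ?_, ?_, ?_, ?_, ?_, ?_, ?_, ?_, ?_, ?_, ?_, ?_⟩
  · intro j
    exact hcp.image (by fun_prop)
  · exact hs
  · intro j
    change interior ((fun x => a j + δ j * x) '' Blk p) = ∅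
    rw [himg, ← Homeomorph.image_interior, hint, image_empty]
  · intro u v h0 huv h1
    obtain ⟨j, hj⟩ := hden' u v h0 huv h1
    exact ⟨j, hj, hne.image _⟩
  · intro x
    constructor
    · intro hx
      by_contra hc
      push Not at hc
      rw [cc_top a δ p hc] at hx
      omega
    · rintro ⟨j, hj⟩
      obtain ⟨L, hL, rfl⟩ := (mem_kk a δ p).1 hj
      rw [cc_eq a δ p hV hδ hd j hL]
      exact lev_le p L
  · intro x
    by_cases hx : ∃ j, x ∈ kk a δ p j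
    · obtain ⟨j, hj⟩ := hx
      obtain ⟨L, hL, rfl⟩ := (mem_kk a δ p).1 hj
      rw [cc_eq a δ p hV hδ hd j hL]
      exact (lev_le p L).trans (Nat.le_succ p)
    · push Not at hx
      rw [cc_top a δ p hx]
  · intro j i
    obtain ⟨E, hE, hU⟩ := hfs i
    refine ⟨fun m => aff a δ hδ j '' E m, fun m => (aff a δ hδ j).isClosedMap _ (hE m), ?_⟩
    rw [← image_iUnion, hU]
    ext x
    constructor
    · rintro ⟨y, ⟨L, hL, rfl, hl⟩, rfl⟩
      rw [aff_apply]
      exact ⟨(mem_kk a δ p).2 ⟨L, hL, rfl⟩, by rw [cc_eq a δ p hV hδ hd j hL]; exact hl⟩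
    · rintro ⟨hx, hl⟩
      obtain ⟨L, hL, rfl⟩ := (mem_kk a δ p).1 hx
      rw [cc_eq a δ p hV hδ hd j hL] at hl
      exact ⟨V p L, ⟨L, hL, rfl, hl⟩, rfl⟩
  · refine Countable.union ?_ hNc
    have h1 : {x | ∃ j L, Wd p L ∧ Per L ∧ x = a j + δ j * V p L}
        ⊆ ⋃ j : ℕ, (fun L => a j + δ j * V p L) '' {L | Per L} := by
      rintro x ⟨j, L, -, hP, rfl⟩
      exact mem_iUnion.2 ⟨j, L, hP, rfl⟩
    exact (countable_iUnion fun j => per_countable.image _).mono h1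
  · rintro x (⟨j, L, hL, -, rfl⟩ | hx)
    · exact hs j ⟨_, ⟨L, hL, rfl⟩, rfl⟩
    · exact hN01 hx
  · intro u v h0 huv h1
    obtain ⟨x, hx, hxu⟩ := hNd u v h0 huv h1
    exact ⟨x, Or.inr hx, hxu, cc_top a δ p (hNk x hx)⟩
  · intro K d M hKc hKi hM hdp hF u v h0 huv h1
    obtain ⟨j, z, z1, z2, z3, z4, z5⟩ := key K M d hKc hKi hM hdp hF u v h0 huv h1
    exact ⟨_, z2 fun _ => false, z3 _, fun x hx hxM =>
      Or.inl ⟨j, _, z1 _ x hx, z4 x hx hxM, rfl⟩⟩
  · intro K d D hKc hKi hD hdp hF u v h0 huv h1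
    obtain ⟨j, z, z1, z2, z3, z4, z5⟩ := key K ∅ d hKc hKi countable_empty hdp hF u v h0 huv h1
    have hbad : {T : ℕ → Bool | ∃ x ∈ K, a j + δ j * V p (z T x) ∈ D}.Countable := by
      choose! g hg1 hg2 using fun (T : ℕ → Bool)
        (hT : T ∈ {T : ℕ → Bool | ∃ x ∈ K, a j + δ j * V p (z T x) ∈ D}) => hT
      refine MapsTo.countable_of_injOn (f := fun T => a j + δ j * V p (z T (g T)))
        (fun T hT => hg2 T hT) ?_ hD
      intro T hT T' hT' he
      have h2 := (word_unique a δ p hV hδ hd (z1 T _ (hg1 T hT)) (z1 T' _ (hg1 T' hT')) he).2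
      funext s
      rw [← z5 T _ (hg1 T hT) s, ← z5 T' _ (hg1 T' hT') s, h2]
    obtain ⟨T, hT⟩ : ∃ T : ℕ → Bool, T ∉ {T : ℕ → Bool | ∃ x ∈ K, a j + δ j * V p (z T x) ∈ D} := by
      by_contra hc
      push Not at hc
      haveI := unc
      exact Set.not_countable_univ (hbad.mono fun T _ => hc T)
    exact ⟨_, z2 T, z3 T, fun x hx hxD => hT ⟨x, hx, hxD⟩⟩

end Pool.Agent.R135.WM
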