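import Pool.Agent.R135.WM.Stm

/-! Piece STEP of the back-and-forth. -/

namespace Pool.Agent.R135.WM

open Set Topology

namespace StepAux

theorem gapL {L : Set ℝ} (hL : IsClosed L) (l0 : (0 : ℝ) ∈ L) (l1 : (1 : ℝ) ∈ L) {x : ℝ}
    (h0 : 0 < x) (h1 : x < 1) (hx : x ∉ L) :
    ∃ a ∈ L, ∃ b ∈ L, a < x ∧ x < b ∧ ∀ c ∈ L, ¬ (a < c ∧ c < b) := by
  have na : (L ∩ Iic x).Nonempty := ⟨0, l0, h0.le⟩
  have ba : BddAbove (L ∩ Iic x) := ⟨x, fun y hy => hy.2⟩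
  have nb : (L ∩ Ici x).Nonempty := ⟨1, l1, h1.le⟩
  have bb : BddBelow (L ∩ Ici x) := ⟨x, fun y hy => hy.2⟩
  have ma := (hL.inter isClosed_Iic).csSup_mem na ba
  have mb := (hL.inter isClosed_Ici).csInf_mem nb bb
  refine ⟨_, ma.1, _, mb.1, ?_, ?_, ?_⟩
  · exact lt_of_le_of_ne ma.2 (fun h => hx (h ▸ ma.1))
  · exact lt_of_le_of_ne mb.2 (fun h => hx (h ▸ mb.1))
  · rintro c hc ⟨c1, c2⟩
    rcases le_total c x with h | h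
    · exact absurd (le_csSup ba ⟨hc, h⟩) (not_le.2 c1)
    · exact absurd (csInf_le bb ⟨hc, h⟩) (not_le.2 c2)

/-- strict order in both coordinates -/
def LT2 (x y : ℝ × ℝ) : Prop := x.1 < y.1 ∧ x.2 < y.2

theorem LT2.trans {x y z : ℝ × ℝ} (h : LT2 x y) (h' : LT2 y z) : LT2 x z :=
  ⟨h.1.trans h'.1, h.2.trans h'.2⟩

def Cmp (x y : ℝ × ℝ) : Prop := LT2 x y ∨ x = y ∨ LT2 y x

theorem Cmp.symm {x y : ℝ × ℝ} (h : Cmp x y) : Cmp y x := by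
  rcases h with h | h | h
  · exact Or.inr (Or.inr h)
  · exact Or.inr (Or.inl h.symm)
  · exact Or.inl h

theorem Cmp.ord {x y : ℝ × ℝ} (h : Cmp x y) : x.1 < y.1 ↔ x.2 < y.2 := by
  rcases h with h | h | h
  · exact ⟨fun _ => h.2, fun _ => h.1⟩
  · rw [h]; exact ⟨fun h => absurd h (lt_irrefl _), fun h => absurd h (lt_irrefl _)⟩
  · exact ⟨fun h' => absurd h' (not_lt.2 h.1.le), fun h' => absurd h' (not_lt.2 h.2.le)⟩

theorem cmp_of {x y : ℝ × ℝ} (h : x.1 < y.1 ↔ x.2 < y.2) (h' : y.1 < x.1 ↔ y.2 < x.2) :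
    Cmp x y := by
  rcases lt_trichotomy x.1 y.1 with h1 | h1 | h1
  · exact Or.inl ⟨h1, h.1 h1⟩
  · right; left
    apply Prod.ext h1
    apply le_antisymm
    · exact not_lt.1 (fun h2 => absurd (h'.2 h2) (by rw [h1]; exact lt_irrefl _))
    · exact not_lt.1 (fun h2 => absurd (h.2 h2) (by rw [h1]; exact lt_irrefl _))
  · exact Or.inr (Or.inr ⟨h1, h'.1 h1⟩)

end StepAux

open StepAux in
theorem step : StmSTEP := by
  intro hGAP R G K hG hK hK01 hKi hemb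
  have hc : ∀ g ∈ G, ∀ h ∈ G, Cmp g h := fun g hg h hh =>
    cmp_of (hG.ord g hg h hh) (hG.ord h hh g hg)
  -- consecutive pairs
  let Γ : Set ((ℝ × ℝ) × (ℝ × ℝ)) := {γ | γ.1 ∈ G ∧ γ.2 ∈ G ∧ LT2 γ.1 γ.2 ∧
    ∀ k ∈ G, ¬ (LT2 γ.1 k ∧ LT2 k γ.2)}
  have hH : ∀ γ : (ℝ × ℝ) × (ℝ × ℝ), ∃ H : Set (ℝ × ℝ), γ ∈ Γ →
      Prod.fst '' H = K ∩ Ioo γ.1.1 γ.2.1 ∧ (∀ g ∈ H, g.2 ∈ Ioo γ.1.2 γ.2.2) ∧
      (∀ g ∈ H, ∀ h ∈ H, g.1 < h.1 ↔ g.2 < h.2) ∧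
      IsClosed (Prod.snd '' H ∪ {γ.1.2, γ.2.2}) ∧ ∀ g ∈ H, R g.1 g.2 := by
    intro γ
    by_cases hγ : γ ∈ Γ
    · obtain ⟨h1, h2, h3, h4⟩ := hγ
      obtain ⟨H, hH⟩ := hGAP R K γ.1.1 γ.2.1 γ.1.2 γ.2.2 hK hKi h3.1 h3.2
        (fun K0 hK0 hK0c a b ha hab hb => hemb K0 hK0 hK0c a b
          (le_trans (hG.box _ h1).2.1 ha) hab (le_trans hb (hG.box _ h2).2.2))
      exact ⟨H, fun _ => hH⟩
    · exact ⟨∅, fun h => absurd h hγ⟩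
  choose H hH using hH
  have hin : ∀ γ ∈ Γ, ∀ x ∈ H γ, LT2 γ.1 x ∧ LT2 x γ.2 ∧ x.1 ∈ K := by
    intro γ hγ x hx
    have h1 : x.1 ∈ K ∩ Ioo γ.1.1 γ.2.1 := by
      rw [← (hH γ hγ).1]; exact ⟨x, hx, rfl⟩
    have h2 := (hH γ hγ).2.1 x hx
    exact ⟨⟨h1.2.1, h2.1⟩, ⟨h1.2.2, h2.2⟩, h1.1⟩
  -- comparison of an element of `G` with an element of `H γ`
  have c1 : ∀ γ ∈ Γ, ∀ x ∈ H γ, ∀ k ∈ G, Cmp k x := by
    intro γ hγ x hx k hk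
    obtain ⟨a1, a2, -⟩ := hin γ hγ x hx
    rcases hc k hk γ.1 hγ.1 with h | h | h
    · exact Or.inl (h.trans a1)
    · rw [h]; exact Or.inl a1
    · rcases hc k hk γ.2 hγ.2.1 with h' | h' | h'
      · exact absurd ⟨h, h'⟩ (hγ.2.2.2 k hk)
      · rw [h']; exact Or.inr (Or.inr a2)
      · exact Or.inr (Or.inr (a2.trans h'))
  -- uniqueness of the pair
  have huniq : ∀ γ ∈ Γ, ∀ γ' ∈ Γ, ∀ y ∈ H γ', LT2 γ.1 y → LT2 y γ.2 → γ' = γ := by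
    intro γ hγ γ' hγ' y hy b1 b2
    obtain ⟨a1, a2, -⟩ := hin γ' hγ' y hy
    have e1 : γ'.1 = γ.1 := by
      rcases hc γ'.1 hγ'.1 γ.1 hγ.1 with h | h | h
      · exact absurd ⟨h, b1.trans a2⟩ (hγ'.2.2.2 γ.1 hγ.1)
      · exact h
      · exact absurd ⟨h, a1.trans b2⟩ (hγ.2.2.2 γ'.1 hγ'.1)
    have e2 : γ'.2 = γ.2 := by
      rcases hc γ'.2 hγ'.2.1 γ.2 hγ.2.1 with h | h | h
      · exact absurd ⟨b1.trans a2, h⟩ (hγ.2.2.2 γ'.2 hγ'.2.1)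
      · exact h
      · exact absurd ⟨a1.trans b2, h⟩ (hγ'.2.2.2 γ.2 hγ.2.1)
    exact Prod.ext e1 e2
  have c2 : ∀ γ ∈ Γ, ∀ x ∈ H γ, ∀ γ' ∈ Γ, ∀ y ∈ H γ', Cmp x y := by
    intro γ hγ x hx γ' hγ' y hy
    obtain ⟨a1, a2, -⟩ := hin γ hγ x hx
    rcases c1 γ' hγ' y hy γ.1 hγ.1 with h | h | h
    · rcases c1 γ' hγ' y hy γ.2 hγ.2.1 with h' | h' | h'
      · exact Or.inl (a2.trans h')
      · rw [← h']; exact Or.inl a2
      · have e := huniq γ hγ γ' hγ' y hy h h'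
        rw [e] at hy
        exact cmp_of ((hH γ hγ).2.2.1 x hx y hy) ((hH γ hγ).2.2.1 y hy x hx)
    · rw [← h]; exact Or.inr (Or.inr a1)
    · exact Or.inr (Or.inr (h.trans a1))
  let G' : Set (ℝ × ℝ) := G ∪ {x | ∃ γ ∈ Γ, x ∈ H γ}
  have cG : ∀ x ∈ G', ∀ y ∈ G', Cmp x y := by
    rintro x (hx | ⟨γ, hγ, hx⟩) y (hy | ⟨γ', hγ', hy⟩)
    · exact hc x hx y hy
    · exact c1 γ' hγ' y hy x hx
    · exact (c1 γ hγ x hx y hy).symm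
    · exact c2 γ hγ x hx γ' hγ' y hy
  have l0 : (0 : ℝ) ∈ Prod.fst '' G := ⟨_, hG.zero, rfl⟩
  have l1 : (1 : ℝ) ∈ Prod.fst '' G := ⟨_, hG.one, rfl⟩
  have m0 : (0 : ℝ) ∈ Prod.snd '' G := ⟨_, hG.zero, rfl⟩
  have m1 : (1 : ℝ) ∈ Prod.snd '' G := ⟨_, hG.one, rfl⟩
  have hKG : K ⊆ Prod.fst '' G' := by
    intro x hx
    by_cases hxL : x ∈ Prod.fst '' G
    · obtain ⟨g, hg, rfl⟩ := hxL
      exact ⟨g, Or.inl hg, rfl⟩
    · obtain ⟨_, ⟨g, hg, rfl⟩, _, ⟨h, hh, rfl⟩, ha, hb, hno⟩ :=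
        gapL hG.cl1 l0 l1 (hK01 hx).1 (hK01 hx).2 hxL
      have hlt : LT2 g h := ⟨ha.trans hb, (hG.ord g hg h hh).1 (ha.trans hb)⟩
      have hγ : (g, h) ∈ Γ := ⟨hg, hh, hlt, fun k hk hk' =>
        hno k.1 ⟨k, hk, rfl⟩ ⟨hk'.1.1, hk'.2.1⟩⟩
      have h1 : x ∈ Prod.fst '' H (g, h) := by
        rw [(hH _ hγ).1]
        exact ⟨hx, ha, hb⟩
      obtain ⟨y, hy, hyx⟩ := h1
      exact ⟨y, Or.inr ⟨_, hγ, hy⟩, hyx⟩
  have hbox : ∀ x ∈ G', x.1 ∈ Icc (0 : ℝ) 1 ∧ x.2 ∈ Icc (0 : ℝ) 1 := by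
    rintro x (hx | ⟨γ, hγ, hx⟩)
    · exact hG.box x hx
    · obtain ⟨a1, a2, -⟩ := hin γ hγ x hx
      have b1 := hG.box _ hγ.1
      have b2 := hG.box _ hγ.2.1
      exact ⟨⟨b1.1.1.trans a1.1.le, a2.1.le.trans b2.1.2⟩,
        ⟨b1.2.1.trans a1.2.le, a2.2.le.trans b2.2.2⟩⟩
  refine ⟨G', subset_union_left, ?_, hKG⟩
  constructor
  · exact Or.inl hG.zero
  · exact Or.inl hG.one
  · exact hbox
  · intro g hg h hh
    exact (cG g hg h hh).ord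
  · have : Prod.fst '' G' = Prod.fst '' G ∪ K := by
      apply Subset.antisymm
      · rintro _ ⟨x, (hx | ⟨γ, hγ, hx⟩), rfl⟩
        · exact Or.inl ⟨x, hx, rfl⟩
        · exact Or.inr (hin γ hγ x hx).2.2
      · rintro x (⟨g, hg, rfl⟩ | hx)
        · exact ⟨g, Or.inl hg, rfl⟩
        · exact hKG hx
    rw [this]
    exact hG.cl1.union hK.isClosed
  · rw [← isOpen_compl_iff, isOpen_iff_mem_nhds]
    intro y hy
    have hyL : y ∉ Prod.snd '' G := fun ⟨g, hg, hgy⟩ => hy ⟨g, Or.inl hg, hgy⟩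
    by_cases h01 : 0 < y ∧ y < 1
    · obtain ⟨_, ⟨g, hg, rfl⟩, _, ⟨h, hh, rfl⟩, ha, hb, hno⟩ :=
        gapL hG.cl2 m0 m1 h01.1 h01.2 hyL
      have hlt : LT2 g h := ⟨(hG.ord g hg h hh).2 (ha.trans hb), ha.trans hb⟩
      have hγ : (g, h) ∈ Γ := ⟨hg, hh, hlt, fun k hk hk' =>
        hno k.2 ⟨k, hk, rfl⟩ ⟨hk'.1.2, hk'.2.2⟩⟩
      have hcl := (hH _ hγ).2.2.2.1
      have hopen : IsOpen ((Prod.snd '' H (g, h) ∪ {g.2, h.2})ᶜ ∩ Ioo g.2 h.2) :=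
        hcl.isOpen_compl.inter isOpen_Ioo
      have hymem : y ∈ (Prod.snd '' H (g, h) ∪ {g.2, h.2})ᶜ ∩ Ioo g.2 h.2 := by
        refine ⟨?_, ha, hb⟩
        rintro (⟨x, hx, hxy⟩ | h')
        · exact hy ⟨x, Or.inr ⟨_, hγ, hx⟩, hxy⟩
        · rcases h' with h' | h'
          · exact absurd h' (ne_of_gt ha)
          · exact absurd h' (ne_of_lt hb)
      refine Filter.mem_of_superset (hopen.mem_nhds hymem) ?_
      rintro z ⟨hz1, hz2⟩ ⟨x, hx, rfl⟩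
      rcases hx with hx | ⟨γ', hγ', hx⟩
      · exact hno x.2 ⟨x, hx, rfl⟩ hz2
      · have k1 : LT2 g x := by
          rcases c1 γ' hγ' x hx g hg with h' | h' | h'
          · exact h'
          · rw [h'] at hz2; exact absurd hz2.1 (lt_irrefl _)
          · exact absurd hz2.1 (not_lt.2 h'.2.le)
        have k2 : LT2 x h := by
          rcases c1 γ' hγ' x hx h hh with h' | h' | h'
          · exact absurd hz2.2 (not_lt.2 h'.2.le)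
          · rw [h'] at hz2; exact absurd hz2.2 (lt_irrefl _)
          · exact h'
        have e := huniq (g, h) hγ γ' hγ' x hx k1 k2
        rw [e] at hx
        exact hz1 (Or.inl ⟨x, hx, rfl⟩)
    · have hyI : y ∉ Icc (0 : ℝ) 1 := by
        rintro ⟨h0, h1⟩
        apply h01
        constructor
        · exact lt_of_le_of_ne h0 (fun h' => hyL (h' ▸ m0))
        · exact lt_of_le_of_ne h1 (fun h' => hyL (h' ▸ m1))
      refine Filter.mem_of_superset (isClosed_Icc.isOpen_compl.mem_nhds hyI) ?_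
      rintro z hz ⟨x, hx, rfl⟩
      exact hz (hbox x hx).2
  · rintro g (hg | ⟨γ, hγ, hg⟩)
    · exact hG.rel g hg
    · exact Or.inr (Or.inr ((hH γ hγ).2.2.2.2 g hg))

end Pool.Agent.R135.WM
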