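import Pool.Agent.R135.WM.Stm

/-! Piece VAL. -/

set_option autoImplicit false

namespace Pool.Agent.R135.WM

open Set Topology

namespace VALx

/-- the terms -/
noncomputable def a (p : ℕ) (L : ℕ → ℕ) (r : ℕ) : ℝ := (L r : ℝ) / (2 ^ (p + 3)) ^ (r + 1)

/-- the ratio -/
noncomputable def q (p : ℕ) : ℝ := ((2 : ℝ) ^ (p + 3))⁻¹

lemma q_pos (p : ℕ) : 0 < q p := by unfold q; positivity

lemma q_le (p : ℕ) : q p ≤ 1 / 8 := by
  unfold q
  rw [one_div]
  apply inv_anti₀ (by norm_num)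
  have h : (1 : ℝ) ≤ 2 ^ p := one_le_pow₀ (by norm_num)
  calc (8 : ℝ) = 1 * 8 := by norm_num
    _ ≤ 2 ^ p * 8 := by linarith
    _ = 2 ^ (p + 3) := by rw [pow_add]; norm_num

lemma a_nonneg (p : ℕ) (L : ℕ → ℕ) (r : ℕ) : 0 ≤ a p L r := by unfold a; positivity

lemma a_le {p : ℕ} {L : ℕ → ℕ} (h : Wd p L) (r : ℕ) : a p L r ≤ 1 / 2 * q p ^ r := by
  have h1 : (L r : ℝ) ≤ 2 ^ (p + 2) := by
    have := (h r).le
    exact_mod_cast this
  have h2 : (1 : ℝ) / 2 * q p ^ r = 2 ^ (p + 2) / (2 ^ (p + 3)) ^ (r + 1) := by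
    unfold q
    rw [pow_succ _ r, inv_pow]
    have : (2 : ℝ) ^ (p + 3) = 2 ^ (p + 2) * 2 := by rw [← pow_succ]
    rw [this]
    field_simp
  rw [h2]
  unfold a
  gcongr

lemma geo_sum (p : ℕ) : Summable fun r => (1 : ℝ) / 2 * q p ^ r :=
  (summable_geometric_of_lt_one (q_pos p).le (by linarith [q_le p])).mul_left _

lemma a_sum {p : ℕ} {L : ℕ → ℕ} (h : Wd p L) : Summable (a p L) :=
  Summable.of_nonneg_of_le (a_nonneg p L) (a_le h) (geo_sum p)

lemma geo_tail (p s : ℕ) : ∑' r, (1 : ℝ) / 2 * q p ^ (r + s) ≤ 4 / 7 * q p ^ s := by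
  have h0 := q_pos p
  have h1 := q_le p
  have e : (fun r => (1 : ℝ) / 2 * q p ^ (r + s)) = fun r => (1 / 2 * q p ^ s) * q p ^ r := by
    ext r
    rw [pow_add]; ring
  rw [e, tsum_mul_left, tsum_geometric_of_lt_one h0.le (by linarith)]
  have h2 : (1 - q p)⁻¹ ≤ 8 / 7 := by
    rw [inv_le_comm₀ (by linarith) (by norm_num)]
    norm_num
    linarith
  have h3 : 0 < q p ^ s := pow_pos h0 s
  nlinarith

lemma diff_le {p : ℕ} {L L' : ℕ → ℕ} (h : Wd p L) (h' : Wd p L') (r : ℕ) :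
    |a p L r - a p L' r| ≤ 1 / 2 * q p ^ r := by
  rw [abs_le]
  constructor <;> linarith [a_nonneg p L r, a_nonneg p L' r, a_le h r, a_le h' r]

lemma tail {p : ℕ} {L L' : ℕ → ℕ} (h : Wd p L) (h' : Wd p L') (s : ℕ) :
    |∑' r, (a p L (r + s) - a p L' (r + s))| ≤ 4 / 7 * q p ^ s := by
  refine le_trans ?_ (geo_tail p s)
  have hs : Summable fun r => (1 : ℝ) / 2 * q p ^ (r + s) := (summable_nat_add_iff s).2 (geo_sum p)
  have h1 : ∀ r, ‖a p L (r + s) - a p L' (r + s)‖ ≤ 1 / 2 * q p ^ (r + s) := fun r => by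
    rw [Real.norm_eq_abs]; exact diff_le h h' (r + s)
  rw [← Real.norm_eq_abs]
  exact tsum_of_norm_bounded hs.hasSum h1

lemma split {p : ℕ} {L L' : ℕ → ℕ} (h : Wd p L) (h' : Wd p L') (s : ℕ) :
    V p L - V p L' = ∑ r ∈ Finset.range s, (a p L r - a p L' r) +
      ∑' r, (a p L (r + s) - a p L' (r + s)) := by
  have h1 : V p L - V p L' = ∑' r, (a p L r - a p L' r) :=
    ((a_sum h).tsum_sub (a_sum h')).symm
  rw [h1]
  exact (((a_sum h).sub (a_sum h')).sum_add_tsum_nat_add s).symm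

lemma split0 {p : ℕ} {L L' : ℕ → ℕ} (h : Wd p L) (h' : Wd p L') (s : ℕ)
    (he : ∀ r < s, L r = L' r) :
    V p L - V p L' = ∑' r, (a p L (r + s) - a p L' (r + s)) := by
  rw [split h h' s, Finset.sum_eq_zero, zero_add]
  intro r hr
  unfold a
  rw [he r (Finset.mem_range.1 hr), sub_self]

end VALx

open VALx in
/-- piece VAL -/
theorem val : StmVAL := by
  intro p
  refine ⟨?_, ?_, ?_⟩
  · intro L L' h h' s he hs
    have h1 := split h' h (s + 1)
    rw [Finset.sum_range_succ, Finset.sum_eq_zero, zero_add] at h1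
    · have h2 := (abs_le.1 (tail h' h (s + 1))).1
      have h3 : q p ^ (s + 1) ≤ a p L' s - a p L s := by
        unfold a q
        rw [← sub_div, inv_pow, inv_eq_one_div]
        have : (1 : ℝ) ≤ (L' s : ℝ) - L s := by
          have h4 : L s + 1 ≤ L' s := hs
          have h5 : ((L s : ℝ) + 1) ≤ L' s := by exact_mod_cast h4
          linarith
        gcongr
      have h4 : 0 < q p ^ (s + 1) := pow_pos (q_pos p) _
      linarith
    · intro r hr
      unfold a
      rw [he r (Finset.mem_range.1 hr), sub_self]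
  · intro L h
    constructor
    · exact tsum_nonneg (a_nonneg p L)
    · have h1 : V p L ≤ ∑' r, (1 : ℝ) / 2 * q p ^ r :=
        (a_sum h).tsum_le_tsum (a_le h) (geo_sum p)
      have h2 := geo_tail p 0
      simp only [add_zero, pow_zero, mul_one] at h2
      linarith
  · intro ε hε
    obtain ⟨s, hs⟩ := exists_pow_lt_of_lt_one hε (show q p < 1 by linarith [q_le p])
    refine ⟨s, fun L L' h h' he => ?_⟩
    rw [split0 h h' s he]
    have h1 := tail h h' s
    have h2 : 0 < q p ^ s := pow_pos (q_pos p) s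
    linarith

end Pool.Agent.R135.WM
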